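import Mathlib

/-!
# Holomorphic dependence of integrals on a parameter
-/

set_option autoImplicit false

namespace Pool.Agent.XRay

open Complex Filter Topology MeasureTheory Metric

/-- **Holomorphy under the integral sign.** -/
theorem differentiableAt_integral {α : Type*} [MeasurableSpace α] {μ : Measure α}
    {G : ℂ → α → ℂ} {z₀ : ℂ} {ε : ℝ} (hε : 0 < ε)
    (hm : ∀ z ∈ ball z₀ ε, AEStronglyMeasurable (G z) μ)
    (hd : ∀ᵐ y ∂μ, DifferentiableOn ℂ (fun z => G z y) (ball z₀ ε))
    {B : α → ℝ} (hB : Integrable B μ)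
    (hb : ∀ᵐ y ∂μ, ∀ w ∈ ball z₀ ε, ‖G w y‖ ≤ B y) :
    DifferentiableAt ℂ (fun z => ∫ y, G z y ∂μ) z₀ := by
  have hderiv : ∀ᵐ y ∂μ, ∀ z ∈ ball z₀ (ε / 2),
      HasDerivAt (fun z => G z y) (deriv (fun z => G z y) z) z := by
    filter_upwards [hd] with y hy z hz
    apply DifferentiableAt.hasDerivAt
    apply (hy z (ball_subset_ball (by linarith) hz)).differentiableAt
    exact isOpen_ball.mem_nhds (ball_subset_ball (by linarith) hz)
  have hbound : ∀ᵐ y ∂μ, ∀ z ∈ ball z₀ (ε / 2), ‖deriv (fun z => G z y) z‖ ≤ B y / (ε / 4) := by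
    filter_upwards [hd, hb] with y hy hb z hz
    have hsub : closedBall z (ε / 4) ⊆ ball z₀ ε := by
      intro w hw
      rw [mem_closedBall, mem_ball] at *
      calc dist w z₀ ≤ dist w z + dist z z₀ := dist_triangle _ _ _
        _ < ε := by linarith
    apply Complex.norm_deriv_le_of_forall_mem_sphere_norm_le (by positivity)
    · apply DifferentiableOn.diffContOnCl
      rw [closure_ball _ (by positivity)]
      exact hy.mono hsub
    · intro w hw
      exact hb w (hsub (sphere_subset_closedBall hw))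
  have hmeas : AEStronglyMeasurable (fun y => deriv (fun z => G z y) z₀) μ := by
    -- limit of difference quotients
    have hn : ∀ n : ℕ, (ε / 2) / ((n : ℝ) + 1) < ε := by
      intro n
      rw [div_lt_iff₀ (by positivity)]
      nlinarith [Nat.cast_nonneg (α := ℝ) n]
    have hmem : ∀ n : ℕ, z₀ + (((ε / 2) / ((n : ℝ) + 1) : ℝ) : ℂ) ∈ ball z₀ ε := by
      intro n
      rw [mem_ball, dist_eq_norm, add_sub_cancel_left, norm_real, Real.norm_of_nonneg (by positivity)]
      exact hn n
    apply aestronglyMeasurable_of_tendsto_ae (u := atTop) (f := fun (n : ℕ) y =>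
      ((((ε / 2) / ((n : ℝ) + 1) : ℝ) : ℂ))⁻¹ • (G (z₀ + (((ε / 2) / ((n : ℝ) + 1) : ℝ) : ℂ)) y -
        G z₀ y))
    · intro n
      exact ((hm _ (hmem n)).sub (hm _ (mem_ball_self hε))).const_smul
        ((((ε / 2) / ((n : ℝ) + 1) : ℝ) : ℂ))⁻¹
    · filter_upwards [hderiv] with y hy
      have h1 := (hy z₀ (mem_ball_self (by positivity))).tendsto_slope_zero
      have h2 : Tendsto (fun n : ℕ => ((((ε / 2) / ((n : ℝ) + 1) : ℝ) : ℂ))) atTop (𝓝[≠] 0) := by
        apply tendsto_nhdsWithin_of_tendsto_nhds_of_eventually_within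
        · have h3 : Tendsto (fun n : ℕ => (ε / 2) / ((n : ℝ) + 1)) atTop (𝓝 0) := by
            have := (tendsto_one_div_add_atTop_nhds_zero_nat (𝕜 := ℝ)).const_mul (ε / 2)
            rw [mul_zero] at this
            exact this.congr fun n => by ring
          exact (Complex.continuous_ofReal.tendsto 0).comp h3
        · filter_upwards with n
          simp only [Set.mem_compl_iff, Set.mem_singleton_iff]
          have : (0 : ℝ) < (ε / 2) / ((n : ℝ) + 1) := by positivity
          exact_mod_cast this.ne'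
      exact h1.comp h2
  exact (hasDerivAt_integral_of_dominated_loc_of_deriv_le
    (ball_mem_nhds z₀ (by positivity : 0 < ε / 2))
    (by filter_upwards [ball_mem_nhds z₀ hε] with z hz using hm z hz)
    (hB.mono' (hm z₀ (mem_ball_self hε)) (by
      filter_upwards [hb] with y hy using hy z₀ (mem_ball_self hε)))
    hmeas hbound (hB.div_const _) hderiv).2.differentiableAt

/-- version for interval integrals -/
theorem differentiableAt_intervalIntegral {a b : ℝ}
    {G : ℂ → ℝ → ℂ} {z₀ : ℂ} {ε : ℝ} (hε : 0 < ε)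
    (hm : ∀ z ∈ ball z₀ ε, AEStronglyMeasurable (G z) (volume.restrict (Set.uIoc a b)))
    (hd : ∀ᵐ y ∂(volume.restrict (Set.uIoc a b)), DifferentiableOn ℂ (fun z => G z y) (ball z₀ ε))
    {B : ℝ → ℝ} (hB : IntervalIntegrable B volume a b)
    (hb : ∀ᵐ y ∂(volume.restrict (Set.uIoc a b)), ∀ w ∈ ball z₀ ε, ‖G w y‖ ≤ B y) :
    DifferentiableAt ℂ (fun z => ∫ y in a..b, G z y) z₀ := by
  simp only [intervalIntegral.intervalIntegral_eq_integral_uIoc]
  apply DifferentiableAt.const_smul
  exact differentiableAt_integral hε hm hd hB.def' hb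

end Pool.Agent.XRay
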