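import Pool.Agent.Lib_helper92.XRay.Boundary

/-!
# The cancellation of the boundary values
-/

set_option autoImplicit false

namespace Pool.Agent.XRay

open Complex Filter Topology MeasureTheory Metric Set

/-- transport of a combination of two solutions across an interval on which the phases agree and
the sources cancel -/
theorem U_pair {a b : ℝ} {k θ k' θ' : ℝ → ℂ} (hk : IntervalIntegrable k volume a b)
    (hθ : IntervalIntegrable θ volume a b) (hk' : IntervalIntegrable k' volume a b)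
    (hθ' : IntervalIntegrable θ' volume a b) (hab : a ≤ b) {y₁ y₂ : ℝ} (h1 : y₁ ∈ Icc a b)
    (h2 : y₂ ∈ Icc a b) (h12 : y₁ ≤ y₂) (e : ℂ)
    (hθe : ∀ᵐ s ∂(volume.restrict (Ioc y₁ y₂)), θ s = θ' s)
    (hke : ∀ᵐ s ∂(volume.restrict (Ioc y₁ y₂)), k s + e * k' s = 0) :
    U b k θ y₁ + e * U b k' θ' y₁ =
      exp (∫ r in y₁..y₂, θ r) * (U b k θ y₂ + e * U b k' θ' y₂) := by
  have hθθ : ∀ s ∈ Icc y₁ y₂, ∫ r in y₁..s, θ r = ∫ r in y₁..s, θ' r := by
    intro s hs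
    apply intervalIntegral.integral_congr_ae
    rw [ae_restrict_iff' measurableSet_Ioc] at hθe
    filter_upwards [hθe] with r hr hr'
    rw [uIoc_of_le hs.1] at hr'
    exact hr ⟨hr'.1, hr'.2.trans hs.2⟩
  rw [U_split hk hθ hab h1 h2, U_split hk' hθ' hab h1 h2,
    ← hθθ y₂ (right_mem_Icc.2 h12)]
  have h3 : (∫ s in y₁..y₂, k s * exp (∫ r in y₁..s, θ r)) +
      e * (∫ s in y₁..y₂, k' s * exp (∫ r in y₁..s, θ' r)) = 0 := by
    rw [← intervalIntegral.integral_const_mul, ← intervalIntegral.integral_add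
      (sub_int (integrand_int hk hθ hab h1) h1 h2)
      ((sub_int (integrand_int hk' hθ' hab h1) h1 h2).const_mul e)]
    rw [intervalIntegral.integral_of_le h12]
    apply integral_eq_zero_of_ae
    filter_upwards [hke, ae_restrict_mem measurableSet_Ioc] with s hs hs'
    simp only [Pi.zero_apply]
    rw [← hθθ s (Ioc_subset_Icc_self hs')]
    linear_combination exp (∫ r in y₁..s, θ r) * hs
  linear_combination h3

namespace Data

variable {D : Data} {t : ℝ}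

/-- the restriction of an a.e. statement -/
theorem ae_sub {P : ℝ → Prop} (h : ∀ᵐ s ∂(volume.restrict (Ioc D.a D.b)), P s) {y₁ y₂ : ℝ}
    (h1 : y₁ ∈ Icc D.a D.b) (h2 : y₂ ∈ Icc D.a D.b) :
    ∀ᵐ s ∂(volume.restrict (Ioc y₁ y₂)), P s := by
  apply ae_mono (Measure.restrict_mono _ le_rfl) h
  exact Ioc_subset_Ioc h1.1 h2.2

theorem ae_Ioo {P : ℝ → Prop} {y₁ y₂ : ℝ} (h : ∀ s ∈ Ioo y₁ y₂, P s) :
    ∀ᵐ s ∂(volume.restrict (Ioc y₁ y₂)), P s := by
  rw [← restrict_Ioo_eq_restrict_Ioc]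
  filter_upwards [ae_restrict_mem measurableSet_Ioo] with s hs using h s hs

theorem sgn (σ τ : ℝ) (hσ : σ = 1 ∨ σ = -1) (hτ : τ = 1 ∨ τ = -1) : Sgn σ τ := ⟨hσ, hτ⟩

/-- the sum over `σ` -/
noncomputable def N (D : Data) (τ t : ℝ) (ξ : ℂ) (y : ℝ) : ℂ :=
  D.uB 1 τ t ξ y + D.uB (-1) τ t ξ y

/-- the difference over `τ` -/
noncomputable def Df (D : Data) (σ t : ℝ) (ξ : ℂ) (y : ℝ) : ℂ :=
  D.uB σ 1 t ξ y - D.uB σ (-1) t ξ y

theorem N_transport (hg : D.Good t) {τ : ℝ} (hτ : τ = 1 ∨ τ = -1) (ξ : ℂ) {y₁ y₂ : ℝ}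
    (h1 : y₁ ∈ Icc D.a D.b) (h2 : y₂ ∈ Icc D.a D.b) (h12 : y₁ ≤ y₂)
    (hV : ∀ s ∈ Ioo y₁ y₂, 1 < t * D.c s) :
    D.N τ t ξ y₁ = exp (-(τ * ξ * ((∫ r in y₁..y₂, D.kap t r : ℝ) : ℂ))) * D.N τ t ξ y₂ := by
  have s1 : Sgn 1 τ := ⟨Or.inl rfl, hτ⟩
  have s2 : Sgn (-1) τ := ⟨Or.inr rfl, hτ⟩
  have hnot : ∀ s ∈ Ioo y₁ y₂, ¬ t * D.c s < 1 := fun s hs => not_lt.2 (hV s hs).le
  have key := U_pair (hg.kB_int s1 ξ) (hg.θB_int s1 ξ) (hg.kB_int s2 ξ) (hg.θB_int s2 ξ)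
    D.hab.le h1 h2 h12 1
    (ae_Ioo fun s hs => by
      rw [D.phB_ge s1.σ2 s1.τ2 (hnot s hs), D.phB_ge s2.σ2 s2.τ2 (hnot s hs)])
    (ae_Ioo fun s hs => by
      rw [D.omB_ge s1.σ2 s1.τ2 (hnot s hs), D.omB_ge s2.σ2 s2.τ2 (hnot s hs)]
      push_cast; ring)
  rw [one_mul, one_mul] at key
  have h3 : ∫ r in y₁..y₂, I * ξ * D.phB 1 τ t r =
      -(τ * ξ * ((∫ r in y₁..y₂, D.kap t r : ℝ) : ℂ)) := by
    have h4 : ∫ r in y₁..y₂, I * ξ * D.phB 1 τ t r =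
        ∫ r in y₁..y₂, -(τ * ξ) * ((D.kap t r : ℝ) : ℂ) := by
      apply intervalIntegral.integral_congr_ae
      have := ae_Ioo (P := fun r => I * ξ * D.phB 1 τ t r = -(τ * ξ) * ((D.kap t r : ℝ) : ℂ))
        (y₁ := y₁) (y₂ := y₂) (fun s hs => by
          rw [D.phB_ge s1.σ2 s1.τ2 (hnot s hs)]
          linear_combination (ξ * τ * D.kap t s) * I_sq)
      rw [ae_restrict_iff' measurableSet_Ioc] at this
      rw [uIoc_of_le h12]
      exact this
    rw [h4, intervalIntegral.integral_const_mul, intervalIntegral.integral_ofReal]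
    ring
  rw [h3] at key
  exact key

theorem Df_transport (hg : D.Good t) {σ : ℝ} (hσ : σ = 1 ∨ σ = -1) (ξ : ℂ) {y₁ y₂ : ℝ}
    (h1 : y₁ ∈ Icc D.a D.b) (h2 : y₂ ∈ Icc D.a D.b) (h12 : y₁ ≤ y₂)
    (hO : ∀ s ∈ Ioo y₁ y₂, t * D.c s ≤ 1) :
    D.Df σ t ξ y₁ = exp (I * ξ * σ * ((∫ r in y₁..y₂, D.kap t r : ℝ) : ℂ)) * D.Df σ t ξ y₂ := by
  have s1 : Sgn σ 1 := ⟨hσ, Or.inl rfl⟩
  have s2 : Sgn σ (-1) := ⟨hσ, Or.inr rfl⟩
  have hlt : ∀ᵐ s ∂(volume.restrict (Ioc y₁ y₂)), t * D.c s < 1 := by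
    filter_upwards [ae_sub hg.ne h1 h2, ae_Ioo hO] with s hs1 hs2
    exact lt_of_le_of_ne hs2 hs1
  have key := U_pair (hg.kB_int s1 ξ) (hg.θB_int s1 ξ) (hg.kB_int s2 ξ) (hg.θB_int s2 ξ)
    D.hab.le h1 h2 h12 (-1)
    (by
      filter_upwards [hlt] with s hs
      rw [D.phB_lt hs, D.phB_lt hs])
    (by
      filter_upwards [hlt] with s hs
      rw [D.omB_lt hs, D.omB_lt hs]
      ring)
  have h3 : ∫ r in y₁..y₂, I * ξ * D.phB σ 1 t r =
      I * ξ * σ * ((∫ r in y₁..y₂, D.kap t r : ℝ) : ℂ) := by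
    have h4 : ∫ r in y₁..y₂, I * ξ * D.phB σ 1 t r =
        ∫ r in y₁..y₂, (I * ξ * σ) * ((D.kap t r : ℝ) : ℂ) := by
      apply intervalIntegral.integral_congr_ae
      have : ∀ᵐ r ∂(volume.restrict (Ioc y₁ y₂)),
          I * ξ * D.phB σ 1 t r = (I * ξ * σ) * ((D.kap t r : ℝ) : ℂ) := by
        filter_upwards [hlt] with s hs
        rw [D.phB_lt hs]; ring
      rw [ae_restrict_iff' measurableSet_Ioc] at this
      rw [uIoc_of_le h12]
      exact this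
    rw [h4, intervalIntegral.integral_const_mul, intervalIntegral.integral_ofReal]
  rw [h3] at key
  unfold Df
  have e1 : ∀ y, D.uB σ 1 t ξ y - D.uB σ (-1) t ξ y = D.uB σ 1 t ξ y + (-1) * D.uB σ (-1) t ξ y :=
    fun y => by ring
  rw [e1, e1]
  exact key

/-- exponential bound for `N` -/
theorem exists_N_bound (hg : D.Good t) (h0 : ∀ σ τ, Sgn σ τ → ∀ ξ, D.uB σ τ t ξ D.a = 0) :
    ∃ C R : ℝ, ∀ τ, (τ = 1 ∨ τ = -1) → ∀ ξ, ∀ y ∈ Icc D.a D.b,
      ‖D.N τ t ξ y‖ ≤ C * Real.exp (R * |ξ.im|) := by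
  refine ⟨2 * (D.H * ∫ s in D.a..D.b, D.rho t s), D.X + ∫ s in D.a..D.b, D.kap t s,
    fun τ hτ ξ y hy => ?_⟩
  have s1 : Sgn 1 τ := ⟨Or.inl rfl, hτ⟩
  have s2 : Sgn (-1) τ := ⟨Or.inr rfl, hτ⟩
  have b1 := hg.norm_uB_le s1 (h0 1 τ s1) ξ hy
  have b2 := hg.norm_uB_le s2 (h0 (-1) τ s2) ξ hy
  refine (norm_add_le _ _).trans ?_
  linarith

/-- `N` vanishes on `{t c > 1}` -/
theorem N_eq_zero (hg : D.Good t) (h0 : ∀ σ τ, Sgn σ τ → ∀ ξ, D.uB σ τ t ξ D.a = 0)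
    {τ : ℝ} (hτ : τ = 1 ∨ τ = -1) (ξ : ℂ) {y : ℝ} (hy : y ∈ Ioo D.a D.b) (hV : 1 < t * D.c y) :
    D.N τ t ξ y = 0 := by
  obtain ⟨C, R, hCR⟩ := exists_N_bound hg h0
  -- a small interval to the right of `y`
  obtain ⟨z, hyz, hzb, hVz⟩ : ∃ z, y < z ∧ z ≤ D.b ∧ ∀ s ∈ Ioo y z, 1 < t * D.c s := by
    have hopen : IsOpen {s : ℝ | 1 < t * D.c s} :=
      isOpen_lt continuous_const (continuous_const.mul D.hc)
    obtain ⟨ε, hε, hεs⟩ := Metric.isOpen_iff.1 hopen y hV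
    refine ⟨min (y + ε) D.b, lt_min (by linarith) hy.2, min_le_right _ _, fun s hs => ?_⟩
    apply hεs
    rw [mem_ball, Real.dist_eq, abs_of_pos (by linarith [hs.1])]
    have := (lt_min_iff.1 hs.2).1
    linarith
  have h1 : y ∈ Icc D.a D.b := Ioo_subset_Icc_self hy
  have h2 : z ∈ Icc D.a D.b := ⟨hy.1.le.trans hyz.le, hzb⟩
  set K := ∫ r in y..z, D.kap t r with hK
  have hKpos : 0 < K := by
    rw [hK]
    apply intervalIntegral.intervalIntegral_pos_of_pos_on (sub_int hg.kap_int h1 h2) _ hyz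
    intro s hs
    have h3 := hVz s hs
    rw [kap, wt]
    have h4 : 1 - t ^ 2 * D.c s ^ 2 ≠ 0 := by
      intro h5
      have h6 : (t * D.c s) ^ 2 = 1 := by rw [mul_pow]; linarith
      nlinarith
    have h7 := D.α_pos s
    have h8 := hg.pos
    have h9 : 0 < √|1 - t ^ 2 * D.c s ^ 2| := Real.sqrt_pos.2 (abs_pos.2 h4)
    positivity
  have htr := fun ξ => N_transport hg hτ ξ h1 h2 hyz.le hVz
  have hent : ∀ w ∈ Icc D.a D.b, Differentiable ℂ (fun ξ => D.N τ t ξ w) := fun w hw =>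
    (hg.uB_entire ⟨Or.inl rfl, hτ⟩ hw).add (hg.uB_entire ⟨Or.inr rfl, hτ⟩ hw)
  rcases hτ with rfl | rfl
  · -- `exp (K ξ) N y = N z`
    have h3 : (fun ξ => D.N 1 t ξ y) = 0 := by
      apply carlson (hent y h1) hKpos (C := C) (τ := R) (fun ξ => hCR 1 (Or.inl rfl) ξ y h1)
      intro ξ
      have h4 : exp (K * ξ) * D.N 1 t ξ y = D.N 1 t ξ z := by
        rw [htr ξ, ← mul_assoc, ← exp_add]
        have : (K : ℂ) * ξ + -(((1 : ℝ) : ℂ) * ξ * (K : ℂ)) = 0 := by push_cast; ring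
        rw [this, exp_zero, one_mul]
      rw [h4]
      exact hCR 1 (Or.inl rfl) ξ z h2
    exact congrFun h3 ξ
  · have h3 : (fun ξ => D.N (-1) t ξ z) = 0 := by
      apply carlson (hent z h2) hKpos (C := C) (τ := R) (fun ξ => hCR (-1) (Or.inr rfl) ξ z h2)
      intro ξ
      have h4 : exp (K * ξ) * D.N (-1) t ξ z = D.N (-1) t ξ y := by
        rw [htr ξ]
        congr 2
        push_cast; ring
      rw [h4]
      exact hCR (-1) (Or.inr rfl) ξ y h1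
    rw [htr ξ]
    have := congrFun h3 ξ
    simp only [Pi.zero_apply] at this
    rw [this, mul_zero]

theorem uB_right (D : Data) (σ τ t : ℝ) (ξ : ℂ) : D.uB σ τ t ξ D.b = 0 := by
  rw [uB, U, intervalIntegral.integral_same]

/-- **Cancellation.** -/
theorem cancel (hg : D.Good t) (h0 : ∀ σ τ, Sgn σ τ → ∀ ξ, D.uB σ τ t ξ D.a = 0)
    (ξ : ℂ) {y : ℝ} (hy : y ∈ Icc D.a D.b) : D.Df 1 t ξ y + D.Df (-1) t ξ y = 0 := by
  set V : Set ℝ := {s | 1 < t * D.c s} ∩ Ioo D.a D.b with hV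
  set Z : Set ℝ := closure V ∪ {D.a, D.b} with hZ
  have hVI : closure V ⊆ Icc D.a D.b :=
    closure_minimal (fun s hs => Ioo_subset_Icc_self hs.2) isClosed_Icc
  have hab := D.hab.le
  have hZI : Z ⊆ Icc D.a D.b := by
    rintro s (hs | hs)
    · exact hVI hs
    · rcases hs with rfl | hs
      · exact left_mem_Icc.2 hab
      · rw [mem_singleton_iff] at hs; rw [hs]; exact right_mem_Icc.2 hab
  have hZc : IsClosed Z := isClosed_closure.union (by simp [Set.Finite.isClosed])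
  have hsum : ∀ ξ w, D.Df 1 t ξ w + D.Df (-1) t ξ w = D.N 1 t ξ w - D.N (-1) t ξ w := by
    intro ξ w; unfold Df N; ring
  -- on `Z` the sum vanishes
  have hcont : ∀ ξ, ContinuousOn (fun w => D.Df 1 t ξ w + D.Df (-1) t ξ w) (Icc D.a D.b) := by
    intro ξ
    unfold Df
    exact ((hg.uB_cont ⟨Or.inl rfl, Or.inl rfl⟩ ξ).sub
      (hg.uB_cont ⟨Or.inl rfl, Or.inr rfl⟩ ξ)).add
      ((hg.uB_cont ⟨Or.inr rfl, Or.inl rfl⟩ ξ).sub (hg.uB_cont ⟨Or.inr rfl, Or.inr rfl⟩ ξ))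
  have hZ0 : ∀ ξ, ∀ w ∈ Z, D.Df 1 t ξ w + D.Df (-1) t ξ w = 0 := by
    intro ξ w hw
    rcases hw with hw | hw
    · have h1 : closure V ⊆ Icc D.a D.b ∩
          (fun w => D.Df 1 t ξ w + D.Df (-1) t ξ w) ⁻¹' {0} := by
        apply closure_minimal
        · intro s hs
          refine ⟨Ioo_subset_Icc_self hs.2, ?_⟩
          rw [mem_preimage, mem_singleton_iff, hsum, N_eq_zero hg h0 (Or.inl rfl) ξ hs.2 hs.1,
            N_eq_zero hg h0 (Or.inr rfl) ξ hs.2 hs.1, sub_zero]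
        · exact (hcont ξ).preimage_isClosed_of_isClosed isClosed_Icc isClosed_singleton
      exact (h1 hw).2
    · rcases hw with rfl | hw
      · unfold Df
        rw [h0 1 1 ⟨Or.inl rfl, Or.inl rfl⟩, h0 1 (-1) ⟨Or.inl rfl, Or.inr rfl⟩,
          h0 (-1) 1 ⟨Or.inr rfl, Or.inl rfl⟩, h0 (-1) (-1) ⟨Or.inr rfl, Or.inr rfl⟩]
        ring
      · rw [mem_singleton_iff] at hw
        rw [hw]
        unfold Df
        rw [D.uB_right, D.uB_right, D.uB_right, D.uB_right]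
        ring
  by_cases hyZ : y ∈ Z
  · exact hZ0 ξ y hyZ
  -- the neighbours of `y` in `Z`
  obtain ⟨y₁, hy₁⟩ : ∃ y₁, IsGreatest (Z ∩ Icc D.a y) y₁ := by
    apply IsCompact.exists_isGreatest
    · exact isCompact_Icc.inter_left hZc
    · exact ⟨D.a, Or.inr (Or.inl rfl), le_rfl, hy.1⟩
  obtain ⟨y₂, hy₂⟩ : ∃ y₂, IsLeast (Z ∩ Icc y D.b) y₂ := by
    apply IsCompact.exists_isLeast
    · exact isCompact_Icc.inter_left hZc
    · exact ⟨D.b, Or.inr (Or.inr rfl), hy.2, le_rfl⟩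
  have hy₁Z := hy₁.1.1
  have hy₂Z := hy₂.1.1
  have h1 : y₁ ∈ Icc D.a D.b := hZI hy₁Z
  have h2 : y₂ ∈ Icc D.a D.b := hZI hy₂Z
  have h1y : y₁ < y := lt_of_le_of_ne hy₁.1.2.2 (fun h => hyZ (h ▸ hy₁Z))
  have hy2 : y < y₂ := lt_of_le_of_ne hy₂.1.2.1 (fun h => hyZ (h ▸ hy₂Z))
  have hO : ∀ s ∈ Ioo y₁ y₂, t * D.c s ≤ 1 := by
    intro s hs
    by_contra hcon
    push Not at hcon
    have hsV : s ∈ Z := Or.inl (subset_closure ⟨hcon, lt_of_le_of_lt h1.1 hs.1,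
      lt_of_lt_of_le hs.2 h2.2⟩)
    rcases le_total s y with hsy | hsy
    · exact absurd (hy₁.2 ⟨hsV, h1.1.trans hs.1.le, hsy⟩) (not_le.2 hs.1)
    · exact absurd (hy₂.2 ⟨hsV, hsy, hs.2.le.trans h2.2⟩) (not_le.2 hs.2)
  set K := ∫ r in y₁..y₂, D.kap t r with hK
  have h12 : y₁ < y₂ := h1y.trans hy2
  have hKpos : 0 < K := by
    rw [hK, intervalIntegral.integral_of_le h12.le]
    have hne : ∀ᵐ s ∂(volume.restrict (Ioc y₁ y₂)), D.kap t s ≠ 0 := by
      filter_upwards [ae_sub hg.ne h1 h2] with s hs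
      have h7 := D.α_pos s
      have h8 := hg.pos
      have h4 : 1 - t ^ 2 * D.c s ^ 2 ≠ 0 := by
        intro h5
        apply hs
        have h6 : (t * D.c s - 1) * (t * D.c s + 1) = 0 := by linear_combination -h5
        rcases mul_eq_zero.1 h6 with h | h
        · linarith
        · have := mul_pos h8 (D.c_pos s); linarith
      have h9 : 0 < √|1 - t ^ 2 * D.c s ^ 2| := Real.sqrt_pos.2 (abs_pos.2 h4)
      rw [kap, wt]
      positivity
    rw [integral_pos_iff_support_of_nonneg_ae]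
    · have h3 : (volume.restrict (Ioc y₁ y₂)) (Function.support (D.kap t)) =
          (volume.restrict (Ioc y₁ y₂)) univ := by
        apply measure_congr
        filter_upwards [hne] with s hs
        exact propext ⟨fun _ => trivial, fun _ => hs⟩
      rw [h3, Measure.restrict_apply_univ, Real.volume_Ioc]
      simp [h12]
    · filter_upwards with s using D.kap_nonneg hg.pos s
    · have := sub_int hg.kap_int h1 h2
      rwa [intervalIntegrable_iff_integrableOn_Ioc_of_le h12.le] at this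
  -- the difference vanishes at `y₂`
  have hD2 : ∀ ξ, (exp (I * ξ * K) - exp (-(I * ξ * K))) * D.Df 1 t ξ y₂ = 0 := by
    intro ξ
    have e1 := Df_transport hg (Or.inl rfl) ξ h1 h2 h12.le hO (σ := 1)
    have e2 := Df_transport hg (Or.inr rfl) ξ h1 h2 h12.le hO (σ := -1)
    rw [← hK] at e1 e2
    have e3 := hZ0 ξ y₁ hy₁Z
    have e4 := hZ0 ξ y₂ hy₂Z
    have e5 : I * ξ * ((1 : ℝ) : ℂ) * (K : ℂ) = I * ξ * K := by push_cast; ring
    have e6 : I * ξ * ((-1 : ℝ) : ℂ) * (K : ℂ) = -(I * ξ * K) := by push_cast; ring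
    rw [e5] at e1
    rw [e6] at e2
    linear_combination e3 - e1 - e2 - exp (-(I * ξ * K)) * e4
  have hD20 : (fun ξ => D.Df 1 t ξ y₂) = 0 := by
    have hent : Differentiable ℂ (fun ξ => D.Df 1 t ξ y₂) :=
      (hg.uB_entire ⟨Or.inl rfl, Or.inl rfl⟩ h2).sub (hg.uB_entire ⟨Or.inl rfl, Or.inr rfl⟩ h2)
    have han : AnalyticOnNhd ℂ (fun ξ => D.Df 1 t ξ y₂) univ :=
      hent.differentiableOn.analyticOnNhd isOpen_univ
    apply han.eq_of_frequently_eq (g := 0) (z₀ := 0) (fun z _ => analyticAt_const)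
    have h4 : Tendsto (fun n : ℕ => ((1 / (((n : ℝ) + 1)) * K⁻¹ : ℝ) : ℂ)) atTop (𝓝[≠] 0) := by
      apply tendsto_nhdsWithin_of_tendsto_nhds_of_eventually_within
      · have h5 := (tendsto_one_div_add_atTop_nhds_zero_nat (𝕜 := ℝ)).mul_const K⁻¹
        rw [zero_mul] at h5
        exact (Complex.continuous_ofReal.tendsto 0).comp h5
      · filter_upwards with n
        simp only [mem_compl_iff, mem_singleton_iff]
        intro h
        have h5 : (1 / (((n : ℝ) + 1)) * K⁻¹ : ℝ) = 0 := by exact_mod_cast h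
        have h6 : 0 < (1 / (((n : ℝ) + 1)) * K⁻¹ : ℝ) := by positivity
        linarith
    apply h4.frequently
    apply Filter.Frequently.of_forall
    intro n
    simp only [Pi.zero_apply]
    have h5 := hD2 ((1 / (((n : ℝ) + 1)) * K⁻¹ : ℝ) : ℂ)
    rcases mul_eq_zero.1 h5 with h6 | h6
    · exfalso
      have h7 : I * ((1 / (((n : ℝ) + 1)) * K⁻¹ : ℝ) : ℂ) * K = ((1 / ((n : ℝ) + 1) : ℝ) : ℂ) * I := by
        push_cast
        have : (K : ℂ) ≠ 0 := by exact_mod_cast hKpos.ne'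
        field_simp
      rw [h7, ← neg_mul] at h6
      have h8 : 2 * sin (((1 / ((n : ℝ) + 1) : ℝ) : ℂ)) * I = 0 := by
        rw [Complex.two_sin]
        linear_combination (-I*I) * h6
      have h9 : sin (((1 / ((n : ℝ) + 1) : ℝ) : ℂ)) = 0 := by
        simpa [I_ne_zero] using h8
      rw [← Complex.ofReal_sin] at h9
      have h10 : Real.sin (1 / ((n : ℝ) + 1)) = 0 := by exact_mod_cast h9
      have h11 : 0 < Real.sin (1 / ((n : ℝ) + 1)) := by
        apply Real.sin_pos_of_pos_of_lt_pi (by positivity)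
        have : 1 / ((n : ℝ) + 1) ≤ 1 := by
          rw [div_le_one (by positivity)]
          have := Nat.cast_nonneg (α := ℝ) n
          linarith
        linarith [Real.pi_gt_three]
      linarith
    · exact h6
  have e1 : D.Df 1 t ξ y₂ = 0 := congrFun hD20 ξ
  have e2 : D.Df (-1) t ξ y₂ = 0 := by
    have := hZ0 ξ y₂ hy₂Z
    rw [e1, zero_add] at this
    exact this
  have hOy : ∀ s ∈ Ioo y y₂, t * D.c s ≤ 1 := fun s hs => hO s ⟨h1y.trans hs.1, hs.2⟩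
  rw [Df_transport hg (Or.inl rfl) ξ hy h2 hy2.le hOy,
    Df_transport hg (Or.inr rfl) ξ hy h2 hy2.le hOy, e1, e2, mul_zero, mul_zero, add_zero]

end Data

end Pool.Agent.XRay
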