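import Mathlib

/-!
# Integrability of `|1 - t² c(y)²|^{-1/2}`
-/

set_option autoImplicit false

namespace Pool.Agent.XRay

open Filter Topology MeasureTheory Set

/-- the singular weight -/
noncomputable def wt (t c : ℝ) : ℝ := (√|1 - t ^ 2 * c ^ 2|)⁻¹

theorem wt_nonneg (t c : ℝ) : 0 ≤ wt t c := inv_nonneg.2 (Real.sqrt_nonneg _)

theorem wt_neg (t c : ℝ) : wt (-t) c = wt t c := by rw [wt, wt, neg_sq]

theorem wt_measurable : Measurable (fun x : ℝ × ℝ => wt x.1 x.2) := by
  unfold wt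
  exact (by fun_prop : Measurable (fun x : ℝ × ℝ => √|1 - x.1 ^ 2 * x.2 ^ 2|)).inv

/-- `|s|^{-1/2}` is locally integrable -/
theorem intervalIntegrable_inv_sqrt_abs (x y : ℝ) :
    IntervalIntegrable (fun s : ℝ => (√|s|)⁻¹) volume x y := by
  have h1 : ∀ z : ℝ, 0 ≤ z → IntervalIntegrable (fun s : ℝ => (√|s|)⁻¹) volume 0 z := by
    intro z hz
    have h2 : IntervalIntegrable (fun s : ℝ => s ^ (-(1 / 2) : ℝ)) volume 0 z :=
      intervalIntegral.intervalIntegrable_rpow' (by norm_num)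
    refine h2.congr ?_
    intro s hs
    rw [uIoc_of_le hz] at hs
    simp only []
    rw [abs_of_pos hs.1, Real.rpow_neg hs.1.le, Real.sqrt_eq_rpow]
  have h2 : ∀ z : ℝ, IntervalIntegrable (fun s : ℝ => (√|s|)⁻¹) volume 0 z := by
    intro z
    rcases le_total 0 z with hz | hz
    · exact h1 z hz
    · have h3 := (h1 (-z) (by linarith)).comp_sub_left 0
      simp only [sub_zero, zero_sub, neg_neg, abs_neg] at h3
      exact h3
  exact (h2 x).symm.trans (h2 y)

theorem wt_le (t c : ℝ) (hc : 0 ≤ c) (h : |t| * c ≠ 1) : wt t c ≤ (√(abs (1 - c * |t|)))⁻¹ := by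
  have h0 : 0 < abs (1 - c * |t|) := by
    apply abs_pos.2
    intro h'; apply h; linarith
  rw [wt]
  apply inv_anti₀ (Real.sqrt_pos.2 h0)
  apply Real.sqrt_le_sqrt
  have h1 : 1 - t ^ 2 * c ^ 2 = (1 - c * |t|) * (1 + c * |t|) := by
    rw [← sq_abs t]; ring
  rw [h1, abs_mul]
  have h2 : 1 ≤ abs (1 + c * |t|) := by
    rw [abs_of_nonneg (by positivity)]
    have : 0 ≤ c * |t| := by positivity
    linarith
  exact le_mul_of_one_le_right (abs_nonneg _) h2

theorem wt_le_one {t c : ℝ} (h : 2 ≤ |t| * c) : wt t c ≤ 1 := by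
  rw [wt]
  apply inv_le_one_of_one_le₀
  rw [Real.one_le_sqrt]
  have h1 : 4 ≤ t ^ 2 * c ^ 2 := by
    have : (2 : ℝ) ^ 2 ≤ (|t| * c) ^ 2 := by gcongr
    rw [mul_pow, sq_abs] at this
    linarith
  rw [abs_of_nonpos (by linarith)]
  linarith

/-- bound of the integral over `[0, T]` -/
theorem exists_bound (c₀ c₁ T : ℝ) (h0 : 0 < c₀) (hT : 0 ≤ T) : ∃ C : ℝ, ∀ c, c₀ ≤ c → c ≤ c₁ →
    IntervalIntegrable (fun t => (√|1 - c * t|)⁻¹) volume 0 T ∧
    ∫ t in (0 : ℝ)..T, (√|1 - c * t|)⁻¹ ≤ C := by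
  refine ⟨c₀⁻¹ * ∫ s in (1 - c₁ * T)..1, (√|s|)⁻¹, fun c hc hc' => ?_⟩
  have hcpos : 0 < c := lt_of_lt_of_le h0 hc
  constructor
  · have h1 := (intervalIntegrable_inv_sqrt_abs (1 - c * 0) (1 - c * T)).comp_sub_left 1
    have h2 := h1.comp_mul_left (c := c)
    have e1 : (1 - (1 - c * 0)) / c = 0 := by ring
    have e2 : (1 - (1 - c * T)) / c = T := by field_simp; ring
    rw [e1, e2] at h2
    exact h2
  · rw [intervalIntegral.integral_comp_sub_mul (fun s => (√|s|)⁻¹) hcpos.ne' 1, mul_zero, sub_zero,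
      smul_eq_mul]
    have h1 : c * T ≤ c₁ * T := by gcongr
    have h2 : 0 ≤ c * T := by positivity
    have h3 : 0 ≤ ∫ s in (1 - c * T)..1, (√|s|)⁻¹ :=
      intervalIntegral.integral_nonneg (by linarith) fun s _ => by positivity
    have h4 : ∫ s in (1 - c * T)..1, (√|s|)⁻¹ ≤ ∫ s in (1 - c₁ * T)..1, (√|s|)⁻¹ := by
      apply intervalIntegral.integral_mono_interval (by linarith) (by linarith) le_rfl
      · filter_upwards with s
        simp only [Pi.zero_apply]
        positivity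
      · exact intervalIntegrable_inv_sqrt_abs _ _
    have h5 : c⁻¹ ≤ c₀⁻¹ := inv_anti₀ h0 hc
    calc c⁻¹ * ∫ s in (1 - c * T)..1, (√|s|)⁻¹ ≤ c₀⁻¹ * ∫ s in (1 - c * T)..1, (√|s|)⁻¹ := by gcongr
      _ ≤ _ := by gcongr

/-- the weight is integrable in `t`, uniformly in `c` -/
theorem exists_bound' (c₀ c₁ : ℝ) (h0 : 0 < c₀) : ∃ C : ℝ, ∀ c, c₀ ≤ c → c ≤ c₁ →
    Integrable (fun t => (1 + t ^ 2)⁻¹ * wt t c) ∧ ∫ t, (1 + t ^ 2)⁻¹ * wt t c ≤ C := by
  set T := 2 / c₀ with hT
  have hTpos : 0 < T := by positivity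
  obtain ⟨C, hC⟩ := exists_bound c₀ c₁ T h0 hTpos.le
  refine ⟨Real.pi + 2 * C, fun c hc hc' => ?_⟩
  obtain ⟨hi, hle⟩ := hC c hc hc'
  have hcpos : 0 < c := lt_of_lt_of_le h0 hc
  -- the dominating function
  set g : ℝ → ℝ := fun t => (Ioc (0 : ℝ) T).indicator (fun t => (√|1 - c * t|)⁻¹) t with hg
  have hg1 : Integrable g := by
    rw [hg]
    apply IntegrableOn.integrable_indicator _ measurableSet_Ioc
    rwa [intervalIntegrable_iff_integrableOn_Ioc_of_le hTpos.le] at hi
  have hg2 : ∫ t, g t ≤ C := by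
    rw [hg, integral_indicator measurableSet_Ioc, ← intervalIntegral.integral_of_le hTpos.le]
    exact hle
  have hg3 : Integrable (fun t => g (-t)) := hg1.comp_neg
  have hg4 : ∫ t, g (-t) ≤ C := by rw [integral_neg_eq_self g volume]; exact hg2
  have hdom : ∀ᵐ t : ℝ, ‖(1 + t ^ 2)⁻¹ * wt t c‖ ≤ (1 + t ^ 2)⁻¹ + g t + g (-t) := by
    have h1 : ∀ᵐ t : ℝ, t ≠ c⁻¹ := by simp [ae_iff, measure_singleton]
    have h2 : ∀ᵐ t : ℝ, t ≠ -c⁻¹ := by simp [ae_iff, measure_singleton]
    have h3 : ∀ᵐ t : ℝ, t ≠ 0 := by simp [ae_iff, measure_singleton]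
    filter_upwards [h1, h2, h3] with t ht1 ht2 ht3
    have hgn : ∀ s, 0 ≤ g s := by
      intro s
      rw [hg]
      apply indicator_nonneg
      intro s _; positivity
    have hpos : 0 < (1 + t ^ 2)⁻¹ := by positivity
    rw [Real.norm_of_nonneg (mul_nonneg hpos.le (wt_nonneg _ _))]
    by_cases hbig : T < |t|
    · have h4 : wt t c ≤ 1 := by
        apply wt_le_one
        have : T * c₀ = 2 := by rw [hT]; field_simp
        nlinarith [abs_nonneg t]
      have h5 := hgn t
      have h6 := hgn (-t)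
      nlinarith
    · push Not at hbig
      have hne : |t| * c ≠ 1 := by
        intro h
        have h4 : |t| = c⁻¹ := by field_simp; linarith
        rcases abs_eq (inv_nonneg.2 hcpos.le) |>.1 h4 with h5 | h5
        · exact ht1 h5
        · exact ht2 h5
      have h4 := wt_le t c hcpos.le hne
      have h5 : wt t c ≤ g t + g (-t) := by
        rcases lt_or_gt_of_ne ht3 with h6 | h6
        · have h7 : g (-t) = (√(abs (1 - c * |t|)))⁻¹ := by
            rw [hg]
            simp only []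
            rw [indicator_of_mem, abs_of_neg h6]
            rw [abs_of_neg h6] at hbig
            exact ⟨by linarith, hbig⟩
          rw [h7]
          have := hgn t
          linarith
        · have h7 : g t = (√(abs (1 - c * |t|)))⁻¹ := by
            rw [hg]
            simp only []
            rw [indicator_of_mem, abs_of_pos h6]
            rw [abs_of_pos h6] at hbig
            exact ⟨h6, hbig⟩
          rw [h7]
          have := hgn (-t)
          linarith
      have h6 : (1 + t ^ 2)⁻¹ ≤ 1 := inv_le_one_of_one_le₀ (by nlinarith [sq_nonneg t])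
      have h7 : (1 + t ^ 2)⁻¹ * wt t c ≤ wt t c := mul_le_of_le_one_left (wt_nonneg _ _) h6
      linarith
  have hdomi : Integrable (fun t : ℝ => (1 + t ^ 2)⁻¹ + g t + g (-t)) :=
    (integrable_inv_one_add_sq.add hg1).add hg3
  have hm : AEStronglyMeasurable (fun t : ℝ => (1 + t ^ 2)⁻¹ * wt t c) volume := by
    apply Measurable.aestronglyMeasurable
    apply Measurable.mul
    · exact (by fun_prop : Measurable fun t : ℝ => 1 + t ^ 2).inv
    · exact wt_measurable.comp (by fun_prop : Measurable fun t : ℝ => (t, c))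
  have hint : Integrable (fun t : ℝ => (1 + t ^ 2)⁻¹ * wt t c) := hdomi.mono' hm hdom
  refine ⟨hint, ?_⟩
  calc ∫ t, (1 + t ^ 2)⁻¹ * wt t c ≤ ∫ t : ℝ, ((1 + t ^ 2)⁻¹ + g t + g (-t)) := by
        apply integral_mono_ae hint hdomi
        filter_upwards [hdom] with t ht using (le_abs_self _).trans ht
    _ = Real.pi + (∫ t, g t) + ∫ t, g (-t) := by
        have e1 : ∫ t : ℝ, ((1 + t ^ 2)⁻¹ + g t + g (-t)) =
            (∫ t : ℝ, ((1 + t ^ 2)⁻¹ + g t)) + ∫ t, g (-t) :=
          integral_add (integrable_inv_one_add_sq.add hg1) hg3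
        have e2 : ∫ t : ℝ, ((1 + t ^ 2)⁻¹ + g t) = (∫ t : ℝ, (1 + t ^ 2)⁻¹) + ∫ t, g t :=
          integral_add integrable_inv_one_add_sq hg1
        rw [e1, e2, integral_univ_inv_one_add_sq]
    _ ≤ Real.pi + 2 * C := by linarith

/-- the facts about almost every `t` -/
theorem level {a b : ℝ} (hab : a ≤ b) {c : ℝ → ℝ} (hc : Continuous c) {c₀ c₁ : ℝ} (h0 : 0 < c₀)
    (hcb : ∀ y ∈ Icc a b, c₀ ≤ c y ∧ c y ≤ c₁) :
    (∀ᵐ t : ℝ, IntervalIntegrable (fun y => wt t (c y)) volume a b) ∧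
    Integrable (fun t : ℝ => (1 + t ^ 2)⁻¹ * ∫ y in a..b, wt t (c y)) ∧
    (∀ᵐ t : ℝ, ∀ᵐ y ∂(volume.restrict (Ioc a b)), t * c y ≠ 1) := by
  obtain ⟨C, hC⟩ := exists_bound' c₀ c₁ h0
  set ν : Measure ℝ := volume.restrict (Ioc a b) with hν
  have hwm : Measurable (fun x : ℝ × ℝ => (1 + x.1 ^ 2)⁻¹ * wt x.1 (c x.2)) := by
    apply Measurable.mul
    · exact (by fun_prop : Measurable fun x : ℝ × ℝ => 1 + x.1 ^ 2).inv
    · exact wt_measurable.comp (by fun_prop : Measurable fun x : ℝ × ℝ => (x.1, c x.2))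
  have hy : ∀ᵐ y ∂ν, y ∈ Icc a b := by
    filter_upwards [ae_restrict_mem measurableSet_Ioc] with y hy using Ioc_subset_Icc_self hy
  have hint : Integrable (fun x : ℝ × ℝ => (1 + x.1 ^ 2)⁻¹ * wt x.1 (c x.2)) (volume.prod ν) := by
    rw [integrable_prod_iff' hwm.aestronglyMeasurable]
    constructor
    · filter_upwards [hy] with y hy
      exact (hC (c y) (hcb y hy).1 (hcb y hy).2).1
    · have hfin : IsFiniteMeasure ν := by
        rw [hν]; exact ⟨by rw [Measure.restrict_apply_univ]; exact measure_Ioc_lt_top⟩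
      apply (integrable_const C).mono'
      · exact (hwm.norm.stronglyMeasurable.integral_prod_left' (μ := volume)).aestronglyMeasurable
      · filter_upwards [hy] with y hy
        have h1 := (hC (c y) (hcb y hy).1 (hcb y hy).2).2
        have h2 : ∀ t : ℝ, ‖(1 + t ^ 2)⁻¹ * wt t (c y)‖ = (1 + t ^ 2)⁻¹ * wt t (c y) := fun t =>
          Real.norm_of_nonneg (mul_nonneg (by positivity) (wt_nonneg _ _))
        rw [Real.norm_of_nonneg (integral_nonneg fun t => norm_nonneg _)]
        simp only [h2]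
        exact h1
  refine ⟨?_, ?_, ?_⟩
  · have h1 := hint.prod_right_ae
    filter_upwards [h1] with t ht
    rw [intervalIntegrable_iff_integrableOn_Ioc_of_le hab]
    have h2 : Integrable (fun y => (1 + t ^ 2) * ((1 + t ^ 2)⁻¹ * wt t (c y))) ν :=
      ht.const_mul _
    refine h2.congr ?_
    filter_upwards with y
    have : (1 + t ^ 2 : ℝ) ≠ 0 := by positivity
    field_simp
  · have h1 := hint.integral_prod_left
    refine h1.congr ?_
    filter_upwards with t
    rw [integral_const_mul, intervalIntegral.integral_of_le hab]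
  · have hms : MeasurableSet {x : ℝ × ℝ | x.1 * c x.2 ≠ 1} := by
      have : Measurable (fun x : ℝ × ℝ => x.1 * c x.2) := by fun_prop
      exact (this (measurableSet_singleton 1)).compl
    rw [Measure.ae_ae_comm hms]
    filter_upwards [hy] with y hy
    have hcy : c y ≠ 0 := (lt_of_lt_of_le h0 (hcb y hy).1).ne'
    have h1 : ∀ᵐ t : ℝ, t ≠ (c y)⁻¹ := by simp [ae_iff, measure_singleton]
    filter_upwards [h1] with t ht h
    apply ht
    field_simp
    exact h

end Pool.Agent.XRay
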