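import Mathlib

/-!
# Decomposition of a curve into its maximal segments in a set
-/

set_option autoImplicit false

namespace Pool.Agent.XRay

open Set Topology MeasureTheory Filter

/-- the component of `q` in a compact subset of the line -/
theorem comp_eq_Icc {K : Set ℝ} (hK : IsCompact K) {q : ℝ} (hq : q ∈ K) :
    ∃ y₁ y₂, connectedComponentIn K q = Icc y₁ y₂ ∧ q ∈ Icc y₁ y₂ := by
  set C := connectedComponentIn K q with hC
  have hqC : q ∈ C := mem_connectedComponentIn hq
  have hCp : IsPreconnected C := isPreconnected_connectedComponentIn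
  have hCK : C ⊆ K := connectedComponentIn_subset K q
  have hCc : IsClosed C := by
    rw [← closure_subset_iff_isClosed]
    exact hCp.closure.subset_connectedComponentIn (subset_closure hqC)
      (closure_minimal hCK hK.isClosed)
  have h1 := eq_Icc_of_connected_compact ⟨⟨q, hqC⟩, hCp⟩ (hK.of_isClosed_subset hCc hCK)
  exact ⟨_, _, h1, h1 ▸ hqC⟩

theorem measurable_indicator_of_continuousOn {V : Type*} [TopologicalSpace V] [MeasurableSpace V]
    [BorelSpace V] {M : Set V} (hM : MeasurableSet M) {f : V → ℝ} (hf : ContinuousOn f M) :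
    Measurable (M.indicator f) := by
  classical
  rw [← Set.piecewise_eq_indicator]
  exact hf.measurable_piecewise continuousOn_const hM

/-- **Sum over the maximal segments.** -/
theorem integral_eq_zero_of_segments {V : Type*} [TopologicalSpace V] [MeasurableSpace V]
    [BorelSpace V] {M : Set V} (hM : IsClosed M) {f : V → ℝ} (hf : ContinuousOn f M)
    {Cf : ℝ} (hfb : ∀ v ∈ M, |f v| ≤ Cf) {a b : ℝ} (hab : a ≤ b) {σ : ℝ → V} (hσ : Continuous σ)
    (ha : σ a ∉ M) (hb : σ b ∉ M) {w : ℝ → ℝ} (hw : Continuous w)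
    (hfr : ∀ᵐ y ∂(volume.restrict (Ioc a b)), σ y ∉ frontier M)
    (hseg : ∀ y₁ y₂, a < y₁ → y₁ < y₂ → y₂ < b → (∀ y ∈ Icc y₁ y₂, σ y ∈ M) →
      (∀ ε > 0, ∃ y ∈ Ioo (y₁ - ε) y₁, σ y ∉ M) → (∀ ε > 0, ∃ y ∈ Ioo y₂ (y₂ + ε), σ y ∉ M) →
      ∫ y in y₁..y₂, f (σ y) * w y = 0) :
    ∫ y in a..b, M.indicator f (σ y) * w y = 0 := by
  set K : Set ℝ := Icc a b ∩ σ ⁻¹' M with hKdef
  have hK : IsCompact K := isCompact_Icc.inter_right (hM.preimage hσ)
  set O : Set ℝ := Ioo a b ∩ σ ⁻¹' (interior M) with hOdef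
  have hO : IsOpen O := isOpen_Ioo.inter (isOpen_interior.preimage hσ)
  have hOK : O ⊆ K := fun y hy => ⟨Ioo_subset_Icc_self hy.1, interior_subset (s := M) hy.2⟩
  set F : ℝ → ℝ := fun y => M.indicator f (σ y) * w y with hF
  -- the segments
  set S : Set (Set ℝ) := {C | ∃ q : ℚ, (q : ℝ) ∈ O ∧ C = connectedComponentIn K q} with hS
  have hScount : S.Countable := by
    have : S ⊆ range (fun q : ℚ => connectedComponentIn K (q : ℝ)) := by
      rintro C ⟨q, _, rfl⟩; exact ⟨q, rfl⟩
    exact (countable_range _).mono this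
  have hSseg : ∀ C ∈ S, ∃ y₁ y₂, C = Icc y₁ y₂ ∧ a < y₁ ∧ y₁ < y₂ ∧ y₂ < b ∧
      ∫ y in y₁..y₂, f (σ y) * w y = 0 := by
    rintro C ⟨q, hqO, rfl⟩
    obtain ⟨y₁, y₂, hC, hq⟩ := comp_eq_Icc hK (hOK hqO)
    have hCK : Icc y₁ y₂ ⊆ K := hC ▸ connectedComponentIn_subset K _
    have h12' : y₁ ≤ y₂ := hq.1.trans hq.2
    -- maximality
    have hmax : ∀ s : Set ℝ, IsPreconnected s → (q : ℝ) ∈ s → s ⊆ K → s ⊆ Icc y₁ y₂ := by
      intro s hs hqs hsK
      rw [← hC]; exact hs.subset_connectedComponentIn hqs hsK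
    have ha1 : a < y₁ := by
      have h1 := hCK (left_mem_Icc.2 h12')
      rcases h1.1.1.lt_or_eq with h | h
      · exact h
      · exact absurd h1.2 (by rw [← h]; exact ha)
    have hb2 : y₂ < b := by
      have h1 := hCK (right_mem_Icc.2 h12')
      rcases h1.1.2.lt_or_eq with h | h
      · exact h
      · exact absurd h1.2 (by rw [h]; exact hb)
    have h12 : y₁ < y₂ := by
      obtain ⟨δ, hδ, hball⟩ := Metric.isOpen_iff.1 hO q hqO
      have h1 := hmax (Metric.ball (q : ℝ) δ) (convex_ball _ _).isPreconnected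
        (Metric.mem_ball_self hδ) (hball.trans hOK)
      have h2 : (q : ℝ) - δ / 2 ∈ Icc y₁ y₂ := h1 (by
        rw [Metric.mem_ball, Real.dist_eq]
        rw [show (q : ℝ) - δ / 2 - q = -(δ / 2) by ring, abs_neg, abs_of_pos (by positivity)]
        linarith)
      have h3 : (q : ℝ) + δ / 2 ∈ Icc y₁ y₂ := h1 (by
        rw [Metric.mem_ball, Real.dist_eq]
        rw [show (q : ℝ) + δ / 2 - q = δ / 2 by ring, abs_of_pos (by positivity)]
        linarith)
      linarith [h2.1, h3.2]
    refine ⟨y₁, y₂, hC, ha1, h12, hb2, hseg y₁ y₂ ha1 h12 hb2 (fun y hy => (hCK hy).2) ?_ ?_⟩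
    · intro ε hε
      by_contra hcon
      push Not at hcon
      set ε' := min ε (y₁ - a) with hε'
      have hε'0 : 0 < ε' := lt_min hε (by linarith)
      have h1 := hmax (Ioc (y₁ - ε') y₂) isPreconnected_Ioc ⟨by linarith [hq.1], hq.2⟩ (by
        intro y hy
        rcases lt_or_ge y y₁ with h | h
        · refine ⟨⟨?_, by linarith⟩, hcon y ⟨?_, h⟩⟩
          · have := min_le_right ε (y₁ - a)
            linarith [hy.1]
          · have := min_le_left ε (y₁ - a)
            linarith [hy.1]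
        · exact hCK ⟨h, hy.2⟩)
      have h2 : y₁ - ε' / 2 ∈ Icc y₁ y₂ := h1 ⟨by linarith, by linarith⟩
      linarith [h2.1]
    · intro ε hε
      by_contra hcon
      push Not at hcon
      set ε' := min ε (b - y₂) with hε'
      have hε'0 : 0 < ε' := lt_min hε (by linarith)
      have h1 := hmax (Ico y₁ (y₂ + ε')) isPreconnected_Ico ⟨hq.1, by linarith [hq.2]⟩ (by
        intro y hy
        rcases lt_or_ge y₂ y with h | h
        · refine ⟨⟨by linarith, ?_⟩, hcon y ⟨h, ?_⟩⟩
          · have := min_le_right ε (b - y₂)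
            linarith [hy.2]
          · have := min_le_left ε (b - y₂)
            linarith [hy.2]
        · exact hCK ⟨hy.1, h⟩)
      have h2 : y₂ + ε' / 2 ∈ Icc y₁ y₂ := h1 ⟨by linarith, by linarith⟩
      linarith [h2.2]
  -- disjointness
  have hdisj : ∀ C ∈ S, ∀ C' ∈ S, C ≠ C' → Disjoint C C' := by
    rintro C ⟨q, hqO, rfl⟩ C' ⟨q', hqO', rfl⟩ hne
    rw [Set.disjoint_left]
    intro z hz hz'
    apply hne
    rw [connectedComponentIn_eq hz, connectedComponentIn_eq hz']
  -- the union covers `O`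
  have hcover : O ⊆ ⋃₀ S := by
    intro y hy
    obtain ⟨δ, hδ, hball⟩ := Metric.isOpen_iff.1 hO y hy
    obtain ⟨q, hq1, hq2⟩ := exists_rat_btwn (show y < y + δ by linarith)
    have hqb : (q : ℝ) ∈ Metric.ball y δ := by
      rw [Metric.mem_ball, Real.dist_eq, abs_of_pos (by linarith)]
      linarith
    refine ⟨connectedComponentIn K q, ⟨q, hball hqb, rfl⟩, ?_⟩
    exact (convex_ball y δ).isPreconnected.subset_connectedComponentIn hqb (hball.trans hOK)
      (Metric.mem_ball_self hδ)
  have hSm : ∀ C ∈ S, MeasurableSet C := by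
    intro C hC
    obtain ⟨y₁, y₂, h, _⟩ := hSseg C hC
    rw [h]; exact measurableSet_Icc
  have hUm : MeasurableSet (⋃₀ S) := MeasurableSet.sUnion hScount hSm
  have hUI : ⋃₀ S ⊆ Ioc a b := by
    rintro y ⟨C, hC, hy⟩
    obtain ⟨y₁, y₂, h, h1, h2, h3, _⟩ := hSseg C hC
    rw [h] at hy
    exact ⟨lt_of_lt_of_le h1 hy.1, hy.2.trans h3.le⟩
  have hUK : ∀ y ∈ ⋃₀ S, σ y ∈ M := by
    rintro y ⟨C, ⟨q, hqO, rfl⟩, hy⟩
    exact (connectedComponentIn_subset K _ hy).2
  -- integrability
  have hFm : Measurable F :=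
    ((measurable_indicator_of_continuousOn hM.measurableSet hf).comp hσ.measurable).mul
      hw.measurable
  have hFi : IntegrableOn F (Ioc a b) := by
    obtain ⟨B, hB⟩ := isCompact_Icc.exists_bound_of_continuousOn (s := Icc a b) hw.continuousOn
    apply Measure.integrableOn_of_bounded (M := |Cf| * |B|) measure_Ioc_lt_top.ne
      hFm.aestronglyMeasurable
    filter_upwards [ae_restrict_mem measurableSet_Ioc] with y hy
    rw [hF, norm_mul]
    apply mul_le_mul
    · rw [Real.norm_eq_abs]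
      by_cases h : σ y ∈ M
      · rw [indicator_of_mem h]; exact (hfb _ h).trans (le_abs_self _)
      · rw [indicator_of_notMem h, abs_zero]; exact abs_nonneg _
    · exact (hB y (Ioc_subset_Icc_self hy)).trans (le_abs_self _)
    · exact norm_nonneg _
    · exact abs_nonneg _
  -- the sum
  rw [intervalIntegral.integral_of_le hab]
  have h1 : ∫ y in Ioc a b, F y = ∫ y in Ioc a b, (⋃₀ S).indicator F y := by
    apply integral_congr_ae
    have hyb : ∀ᵐ y ∂(volume.restrict (Ioc a b)), y ≠ b := by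
      apply ae_restrict_of_ae
      simp [ae_iff, measure_singleton]
    filter_upwards [hfr, hyb, ae_restrict_mem measurableSet_Ioc] with y hy1 hy2 hy3
    by_cases hyS : y ∈ ⋃₀ S
    · rw [indicator_of_mem hyS]
    · rw [indicator_of_notMem hyS, hF]
      simp only []
      have hyM : σ y ∉ M := by
        intro h
        apply hyS
        apply hcover
        refine ⟨⟨hy3.1, lt_of_le_of_ne hy3.2 hy2⟩, ?_⟩
        by_contra hint
        apply hy1
        rw [hM.frontier_eq]
        exact ⟨h, hint⟩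
      rw [indicator_of_notMem hyM, zero_mul]
  have hstart : ∫ y in Ioc a b, M.indicator f (σ y) * w y = ∫ y in Ioc a b, F y := rfl
  rw [hstart, h1, setIntegral_indicator hUm, inter_eq_self_of_subset_right hUI, sUnion_eq_iUnion]
  have : Countable S := hScount.to_subtype
  rw [integral_iUnion (fun C : S => hSm C C.2)]
  · have h2 : ∀ C : S, ∫ y in (C : Set ℝ), F y = 0 := by
      intro C
      obtain ⟨y₁, y₂, h, h3, h4, h5, h6⟩ := hSseg C C.2
      rw [h, integral_Icc_eq_integral_Ioc, ← intervalIntegral.integral_of_le h4.le, ← h6]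
      apply intervalIntegral.integral_congr
      intro y hy
      rw [uIcc_of_le h4.le] at hy
      have hyM : σ y ∈ M := hUK y ⟨C, C.2, h ▸ hy⟩
      simp only [hF]
      rw [indicator_of_mem hyM]
    simp [h2]
  · intro C C' hne
    exact hdisj C C.2 C' C'.2 (fun h => hne (Subtype.ext h))
  · rw [← sUnion_eq_iUnion]
    exact hFi.mono_set hUI

end Pool.Agent.XRay
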