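import Mathlib

/-!
# Riemannian metrics on a vector space, their unit speed geodesics, and maximal segments in a set
-/

set_option autoImplicit false

namespace Pool.Agent.XRay

section

variable {V : Type*} [NormedAddCommGroup V] [NormedSpace ℝ V]

/-- `G` is a Riemannian metric on the vector space `V`: `G z` is a symmetric positive definite
bilinear form on `V = T_z V`, and `z ↦ G z` is differentiable (for instance smooth). -/
structure IsMetric (G : V → V →L[ℝ] V →L[ℝ] ℝ) : Prop where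
  diff : Differentiable ℝ G
  symm : ∀ z v w, G z v w = G z w v
  pos : ∀ z v, v ≠ 0 → 0 < G z v v

/-- `γ` is a unit speed geodesic of the metric `G` on the open set of times `J`: it solves the
Euler-Lagrange equations `d/dt (G_γ(γ', w)) = ½ (∂_w G)_γ(γ', γ')` (for all constant vectors `w`)
of the energy `½ ∫ G_γ(γ', γ')`, and `G_γ(γ', γ') = 1`. -/
structure UnitGeodesicOn (G : V → V →L[ℝ] V →L[ℝ] ℝ) (γ : ℝ → V) (J : Set ℝ) : Prop where
  diff : ∀ t ∈ J, DifferentiableAt ℝ γ t
  euler : ∀ t ∈ J, ∀ w : V, HasDerivAt (fun s => G (γ s) (deriv γ s) w)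
    (2⁻¹ * fderiv ℝ G (γ t) w (deriv γ t) (deriv γ t)) t
  unit : ∀ t ∈ J, G (γ t) (deriv γ t) (deriv γ t) = 1

/-- the restriction of `γ` to `[s, t]` lies in `M` and cannot be extended inside `M` on either
side: `γ` leaves `M` immediately before `s` and immediately after `t`. -/
structure MaximalSegment (M : Set V) (γ : ℝ → V) (s t : ℝ) : Prop where
  mem : ∀ τ ∈ Set.Icc s t, γ τ ∈ M
  left : ∀ ε > 0, ∃ τ ∈ Set.Ioo (s - ε) s, γ τ ∉ M
  right : ∀ ε > 0, ∃ τ ∈ Set.Ioo t (t + ε), γ τ ∉ M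

/-- The geodesic X-ray transform of `f` on `M` vanishes for all geodesics of the metric `G` whose
momentum in the directions of `H` is at most `δ`: `∫_s^t f(γ(τ)) dτ = 0` for every unit speed
geodesic `γ : (u, v) → V` with `|G_γ(γ', x)| ≤ δ ‖x‖` for `x ∈ H`, and every maximal segment
`[s, t] ⊆ (u, v)`, `s < t`, of `γ` in `M`. -/
def XRayZero (G : V → V →L[ℝ] V →L[ℝ] ℝ) (H M : Set V) (f : V → ℝ) (δ : ℝ) : Prop :=
  ∀ (γ : ℝ → V) (u v s t : ℝ), u < s → s < t → t < v → UnitGeodesicOn G γ (Set.Ioo u v) →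
    (∀ τ ∈ Set.Ioo u v, ∀ x ∈ H, |G (γ τ) (deriv γ τ) x| ≤ δ * ‖x‖) →
    MaximalSegment M γ s t → ∫ τ in s..t, f (γ τ) = 0

end

end Pool.Agent.XRay
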