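import Mathlib

/-!
# Regular domains
-/

set_option autoImplicit false

namespace Pool.Agent.XRay

open Set Topology MeasureTheory Filter Pointwise

section

variable {V : Type*} [NormedAddCommGroup V] [NormedSpace ℝ V]

theorem exists_ball {ρ : V → ℝ} (hρ : ContDiff ℝ 1 ρ) {z : V} (hd : fderiv ℝ ρ z ≠ 0) :
    ∃ (v : V) (r : ℝ), 0 < r ∧ v ≠ 0 ∧ ∀ (w : V) (t : ℝ), 0 < t → w ∈ Metric.ball z r →
      w + t • v ∈ Metric.ball z r → ρ w < ρ (w + t • v) := by
  obtain ⟨v, hv⟩ : ∃ v, 0 < fderiv ℝ ρ z v := by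
    by_contra h
    push Not at h
    apply hd
    ext v
    have h1 := h v
    have h2 := h (-v)
    rw [map_neg] at h2
    have : fderiv ℝ ρ z v = 0 := by linarith
    rw [this]; rfl
  have hc : Continuous (fun w => fderiv ℝ ρ w v) :=
    (hρ.continuous_fderiv one_ne_zero).clm_apply continuous_const
  have hopen : IsOpen {w | 0 < fderiv ℝ ρ w v} := isOpen_lt continuous_const hc
  obtain ⟨r, hr, hball⟩ := Metric.isOpen_iff.1 hopen z hv
  refine ⟨v, r, hr, ?_, ?_⟩
  · rintro rfl
    rw [map_zero] at hv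
    exact lt_irrefl _ hv
  · intro w t ht hw hwt
    have hd1 : ∀ s : ℝ, HasDerivAt (fun s => ρ (w + s • v)) (fderiv ℝ ρ (w + s • v) v) s := by
      intro s
      have h1 : HasFDerivAt ρ (fderiv ℝ ρ (w + s • v)) (w + s • v) :=
        (hρ.differentiable one_ne_zero _).hasFDerivAt
      have h2 : HasDerivAt (fun s : ℝ => w + s • v) v s := by
        have := ((hasDerivAt_id s).smul_const v).const_add w
        simpa using this
      exact h1.comp_hasDerivAt s h2
    have hmem : ∀ s ∈ Icc 0 t, w + s • v ∈ Metric.ball z r := by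
      intro s hs
      have h1 := (convex_ball z r).add_smul_sub_mem hw hwt
        (t := s / t) ⟨div_nonneg hs.1 ht.le, (div_le_one ht).2 hs.2⟩
      rw [add_sub_cancel_left, smul_smul, div_mul_cancel₀ _ ht.ne'] at h1
      exact h1
    have hmono : StrictMonoOn (fun s => ρ (w + s • v)) (Icc 0 t) := by
      apply strictMonoOn_of_deriv_pos (convex_Icc 0 t)
      · intro s _
        exact (hd1 s).continuousAt.continuousWithinAt
      · intro s hs
        rw [(hd1 s).deriv]
        exact hball (hmem s (interior_subset hs))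
    have := hmono (left_mem_Icc.2 ht.le) (right_mem_Icc.2 ht.le) ht
    simpa using this

theorem regular_closure {ρ : V → ℝ} (hρ : ContDiff ℝ 1 ρ) (hd : ∀ z, ρ z = 0 → fderiv ℝ ρ z ≠ 0) :
    {z | 0 ≤ ρ z} ⊆ closure (interior {z | 0 ≤ ρ z}) := by
  have hpos : {z | 0 < ρ z} ⊆ interior {z | 0 ≤ ρ z} :=
    interior_maximal (fun z (hz : 0 < ρ z) => (le_of_lt hz : 0 ≤ ρ z)) (isOpen_lt continuous_const hρ.continuous)
  intro z hz
  rcases (show 0 ≤ ρ z from hz).lt_or_eq with h | h
  · exact subset_closure (hpos h)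
  · obtain ⟨v, r, hr, _, hv⟩ := exists_ball hρ (hd z h.symm)
    apply closure_mono hpos
    have h1 : Tendsto (fun t : ℝ => z + t • v) (𝓝[>] 0) (𝓝 z) := by
      have : Continuous (fun t : ℝ => z + t • v) := by fun_prop
      have h2 := this.tendsto 0
      rw [zero_smul, add_zero] at h2
      exact h2.mono_left nhdsWithin_le_nhds
    apply mem_closure_of_tendsto h1
    filter_upwards [self_mem_nhdsWithin, h1 (Metric.ball_mem_nhds z hr)] with t ht ht'
    have := hv z t ht (Metric.mem_ball_self hr) ht'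
    rw [← h] at this
    exact this

end

section

variable {V : Type*} [NormedAddCommGroup V] [NormedSpace ℝ V] [FiniteDimensional ℝ V]
  [MeasurableSpace V] [BorelSpace V]

theorem regular_null {ρ : V → ℝ} (hρ : ContDiff ℝ 1 ρ) (hd : ∀ z, ρ z = 0 → fderiv ℝ ρ z ≠ 0)
    (μ : Measure V) [μ.IsAddHaarMeasure] : μ (frontier {z | 0 ≤ ρ z}) = 0 := by
  have hsub : frontier {z | 0 ≤ ρ z} ⊆ {z | ρ z = 0} := by
    intro z hz
    exact (frontier_le_subset_eq continuous_const hρ.continuous hz).symm
  apply measure_mono_null hsub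
  apply measure_null_of_locally_null
  intro z hz
  obtain ⟨v, r, hr, hv0, hv⟩ := exists_ball hρ (hd z hz)
  refine ⟨{z | ρ z = 0} ∩ Metric.ball z r, ?_, ?_⟩
  · exact inter_mem_nhdsWithin _ (Metric.ball_mem_nhds z hr)
  · apply Measure.addHaar_eq_zero_of_disjoint_translates μ (u := fun n : ℕ => (1 / ((n : ℝ) + 1)) • v)
    · refine (Metric.isBounded_closedBall (x := (0 : V)) (r := ‖v‖)).subset ?_
      rintro _ ⟨n, rfl⟩
      rw [Metric.mem_closedBall, dist_zero_right, norm_smul]
      have h1 : ‖(1 / ((n : ℝ) + 1))‖ ≤ 1 := by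
        rw [Real.norm_of_nonneg (by positivity), div_le_one (by positivity)]
        linarith [Nat.cast_nonneg (α := ℝ) n]
      have := mul_le_mul_of_nonneg_right h1 (norm_nonneg v)
      linarith
    · have key : ∀ n m : ℕ, n < m → Disjoint
          (({(1 / ((n : ℝ) + 1)) • v} : Set V) + ({z | ρ z = 0} ∩ Metric.ball z r))
          (({(1 / ((m : ℝ) + 1)) • v} : Set V) + ({z | ρ z = 0} ∩ Metric.ball z r)) := by
        intro n m hnm
        rw [Set.disjoint_left]
        rintro x ⟨_, rfl, w, ⟨hw1, hw2⟩, rfl⟩ ⟨_, rfl, w', ⟨hw1', hw2'⟩, h⟩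
        have hlt : 1 / ((m : ℝ) + 1) < 1 / ((n : ℝ) + 1) := by
          apply one_div_lt_one_div_of_lt (by positivity)
          have : (n : ℝ) < m := by exact_mod_cast hnm
          linarith
        have h' : w' = w + (1 / ((n : ℝ) + 1) - 1 / ((m : ℝ) + 1)) • v := by
          simp only at h
          rw [sub_smul]
          have : w' = (1 / ((n : ℝ) + 1)) • v + w - (1 / ((m : ℝ) + 1)) • v := by
            rw [← h]; abel
          rw [this]; abel
        have h2 := hv w (1 / ((n : ℝ) + 1) - 1 / ((m : ℝ) + 1)) (by linarith) hw2 (h' ▸ hw2')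
        rw [← h'] at h2
        have e1 : ρ w = 0 := hw1
        have e2 : ρ w' = 0 := hw1'
        rw [e1, e2] at h2
        exact lt_irrefl _ h2
      intro n m hnm
      rcases lt_or_gt_of_ne hnm with h | h
      · exact key n m h
      · exact (key m n h).symm
    · exact (measurableSet_eq_fun hρ.continuous.measurable measurable_const).inter
        measurableSet_ball

end

end Pool.Agent.XRay
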