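import Mathlib

/-!
# The Poisson formula at `i` for bounded holomorphic functions on the upper half plane
-/

set_option autoImplicit false

namespace Pool.Agent.XRay

open Complex Filter Topology MeasureTheory Metric

/-- the kernel -/
noncomputable def pG (F : ℂ → ℂ) (z : ℂ) : ℂ := dslope F I z / (z + I)

theorem pG_eq (F : ℂ → ℂ) {z : ℂ} (hz : z ≠ I) : pG F z = (F z - F I) / (z ^ 2 + 1) := by
  rw [pG, dslope_of_ne _ hz, slope, vsub_eq_sub, smul_eq_mul]
  have h1 : z - I ≠ 0 := sub_ne_zero.2 hz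
  have h2 : z ^ 2 + 1 = (z - I) * (z + I) := by ring_nf; rw [I_sq]; ring
  rw [h2, mul_comm, div_eq_mul_inv, div_eq_mul_inv, mul_inv]
  ring

theorem norm_pG_le {F : ℂ → ℂ} {B : ℝ} (hB : ∀ z : ℂ, 0 ≤ z.im → ‖F z‖ ≤ B) {R : ℝ} (hR : 1 < R)
    {z : ℂ} (hz : 0 ≤ z.im) (hzR : R ≤ ‖z‖) : ‖pG F z‖ ≤ 2 * B / (R ^ 2 - 1) := by
  have hB0 : 0 ≤ B := (norm_nonneg _).trans (hB I (by simp))
  have hzI : z ≠ I := by
    rintro rfl
    rw [norm_I] at hzR; linarith
  rw [pG_eq F hzI, norm_div]
  have h1 : ‖F z - F I‖ ≤ 2 * B := by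
    calc ‖F z - F I‖ ≤ ‖F z‖ + ‖F I‖ := norm_sub_le _ _
      _ ≤ B + B := add_le_add (hB z hz) (hB I (by simp))
      _ = 2 * B := by ring
  have h2 : R ^ 2 - 1 ≤ ‖z ^ 2 + 1‖ := by
    have h3 : ‖z ^ 2‖ ≤ ‖z ^ 2 + 1‖ + ‖(1 : ℂ)‖ := by
      have := norm_sub_le (z ^ 2 + 1) (1 : ℂ)
      rwa [add_sub_cancel_right] at this
    rw [norm_one, norm_pow] at h3
    have : R ^ 2 ≤ ‖z‖ ^ 2 := by gcongr
    linarith
  have h3 : 0 < R ^ 2 - 1 := by nlinarith
  gcongr

theorem poisson {F : ℂ → ℂ} {δ B : ℝ} (hδ : 0 < δ)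
    (hF : ∀ z : ℂ, -δ < z.im → DifferentiableAt ℂ F z)
    (hB : ∀ z : ℂ, 0 ≤ z.im → ‖F z‖ ≤ B) :
    ∫ t : ℝ, (((1 + t ^ 2)⁻¹ : ℝ) : ℂ) * F t = Real.pi * F I := by
  have hB0 : 0 ≤ B := (norm_nonneg _).trans (hB I (by simp))
  set δ' := min δ 1 with hδ'
  have hδ'0 : 0 < δ' := lt_min hδ one_pos
  set S : Set ℂ := {z | -δ' < z.im} with hS
  have hSo : IsOpen S := isOpen_lt continuous_const continuous_im
  have hdS : DifferentiableOn ℂ F S := fun z hz =>
    (hF z (lt_of_le_of_lt (neg_le_neg (min_le_left _ _)) hz)).differentiableWithinAt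
  have hGd : DifferentiableOn ℂ (pG F) S := by
    have h1 : DifferentiableOn ℂ (dslope F I) S := by
      rw [Complex.differentiableOn_dslope (hSo.mem_nhds (by simp [hS, hδ'0]; linarith))]
      exact hdS
    intro z hz
    apply (h1 z hz).div (by fun_prop)
    intro h
    have h2 := congrArg Complex.im h
    simp at h2
    have h3 : -δ' < z.im := hz
    have : δ' ≤ 1 := min_le_right _ _
    linarith
  have hsub : {z : ℂ | 0 ≤ z.im} ⊆ S := fun z (hz : 0 ≤ z.im) => by
    change -δ' < z.im
    linarith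
  -- real line
  have hreal : ∀ t : ℝ, pG F t = (((1 + t ^ 2)⁻¹ : ℝ) : ℂ) * (F t - F I) := by
    intro t
    rw [pG_eq F (by intro h; have := congrArg Complex.im h; simp at this)]
    push_cast
    rw [div_eq_mul_inv, mul_comm, add_comm]
  have hcontF : Continuous (fun t : ℝ => F t) := by
    rw [continuous_iff_continuousAt]
    intro t
    exact (hF t (by simpa using hδ)).continuousAt.comp Complex.continuous_ofReal.continuousAt
  have hFi : Integrable (fun t : ℝ => (((1 + t ^ 2)⁻¹ : ℝ) : ℂ) * F t) := by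
    apply (integrable_inv_one_add_sq.mul_const B).mono'
    · apply Continuous.aestronglyMeasurable
      apply Continuous.mul _ hcontF
      apply Complex.continuous_ofReal.comp
      apply Continuous.inv₀ (by fun_prop)
      intro t; positivity
    · filter_upwards with t
      rw [norm_mul, norm_real, Real.norm_of_nonneg (by positivity)]
      gcongr
      exact hB t (by simp)
  have hFI : Integrable (fun t : ℝ => (((1 + t ^ 2)⁻¹ : ℝ) : ℂ) * F I) := by
    apply Integrable.mul_const
    exact integrable_inv_one_add_sq.ofReal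
  have hGi : Integrable (fun t : ℝ => pG F t) := by
    have := hFi.sub hFI
    refine this.congr ?_
    filter_upwards with t
    simp only [Pi.sub_apply]
    rw [hreal]; ring
  -- rectangle
  have hrect : ∀ R : ℝ, 1 < R → ‖∫ t in (-R)..R, pG F t‖ ≤ 8 * B * (R / (R ^ 2 - 1)) := by
    intro R hR
    have h3 : 0 < R ^ 2 - 1 := by nlinarith
    have h0 := Complex.integral_boundary_rect_eq_zero_of_differentiableOn (pG F)
      (-R : ℝ) ((R : ℝ) + (R : ℝ) * I) (by
        apply hGd.mono
        intro z hz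
        apply hsub
        rw [mem_reProdIm] at hz
        have := hz.2
        simp only [ofReal_im, add_im, mul_im, ofReal_re, I_im, mul_one, I_re, mul_zero, add_zero,
          zero_add] at this
        rw [Set.uIcc_of_le (by linarith)] at this
        exact this.1)
    simp only [ofReal_re, ofReal_im, add_re, mul_re, I_re, mul_zero, I_im, mul_one, sub_self,
      add_zero, add_im, mul_im, zero_add, ofReal_zero, zero_mul, smul_eq_mul] at h0
    have b1 : ‖∫ x in (-R)..R, pG F (x + R * I)‖ ≤ 2 * B / (R ^ 2 - 1) * |R - (-R)| := by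
      apply intervalIntegral.norm_integral_le_of_norm_le_const
      intro x _
      apply norm_pG_le hB hR
      · simp; linarith
      · calc R = |((x : ℂ) + R * I).im| := by simp [abs_of_pos (by linarith : 0 < R)]
          _ ≤ _ := Complex.abs_im_le_norm _
    have b2 : ‖∫ y in (0 : ℝ)..R, pG F (R + y * I)‖ ≤ 2 * B / (R ^ 2 - 1) * |R - 0| := by
      apply intervalIntegral.norm_integral_le_of_norm_le_const
      intro y hy
      rw [Set.uIoc_of_le (by linarith)] at hy
      apply norm_pG_le hB hR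
      · simpa using hy.1.le
      · calc R = |((R : ℂ) + y * I).re| := by simp [abs_of_pos (by linarith : 0 < R)]
          _ ≤ _ := Complex.abs_re_le_norm _
    have b3 : ‖∫ y in (0 : ℝ)..R, pG F (((-R : ℝ) : ℂ) + y * I)‖ ≤
        2 * B / (R ^ 2 - 1) * |R - 0| := by
      apply intervalIntegral.norm_integral_le_of_norm_le_const
      intro y hy
      rw [Set.uIoc_of_le (by linarith)] at hy
      apply norm_pG_le hB hR
      · simpa using hy.1.le
      · calc R = |(((-R : ℝ) : ℂ) + y * I).re| := by simp [abs_of_pos (by linarith : 0 < R)]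
          _ ≤ _ := Complex.abs_re_le_norm _
    have h4 : ∫ t in (-R)..R, pG F t = (∫ x in (-R)..R, pG F (x + R * I)) -
        I * (∫ y in (0 : ℝ)..R, pG F (R + y * I)) +
        I * (∫ y in (0 : ℝ)..R, pG F (((-R : ℝ) : ℂ) + y * I)) := by
      linear_combination h0
    rw [h4]
    calc _ ≤ ‖∫ x in (-R)..R, pG F (x + R * I)‖ + ‖∫ y in (0 : ℝ)..R, pG F (R + y * I)‖ +
          ‖∫ y in (0 : ℝ)..R, pG F (((-R : ℝ) : ℂ) + y * I)‖ := by
          refine (norm_add_le _ _).trans ?_
          gcongr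
          · refine (norm_sub_le _ _).trans ?_
            gcongr
            rw [norm_mul, norm_I, one_mul]
          · rw [norm_mul, norm_I, one_mul]
      _ ≤ 2 * B / (R ^ 2 - 1) * |R - (-R)| + 2 * B / (R ^ 2 - 1) * |R - 0| +
          2 * B / (R ^ 2 - 1) * |R - 0| := by gcongr
      _ = 8 * B * (R / (R ^ 2 - 1)) := by
          rw [sub_neg_eq_add, sub_zero, abs_of_pos (by linarith : 0 < R),
            abs_of_pos (by linarith : 0 < R + R)]
          ring
  have hlim1 : Tendsto (fun R : ℝ => ∫ t in (-R)..R, pG F t) atTop (𝓝 (∫ t : ℝ, pG F t)) :=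
    intervalIntegral_tendsto_integral hGi tendsto_neg_atTop_atBot tendsto_id
  have hlim2 : Tendsto (fun R : ℝ => 8 * B * (R / (R ^ 2 - 1))) atTop (𝓝 0) := by
    have h5 : Tendsto (fun R : ℝ => R / (R ^ 2 - 1)) atTop (𝓝 0) := by
      have h6 : Tendsto (fun R : ℝ => 2 / R) atTop (𝓝 0) := tendsto_const_nhds.div_atTop tendsto_id
      apply squeeze_zero' _ _ h6
      · filter_upwards [eventually_gt_atTop (1 : ℝ)] with R hR
        have : 0 < R ^ 2 - 1 := by nlinarith
        positivity
      · filter_upwards [eventually_gt_atTop (2 : ℝ)] with R hR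
        have : 0 < R ^ 2 - 1 := by nlinarith
        rw [div_le_div_iff₀ this (by linarith)]
        nlinarith
    have := h5.const_mul (8 * B)
    rwa [mul_zero] at this
  have hzero : ∫ t : ℝ, pG F t = 0 := by
    have h5 : Tendsto (fun R : ℝ => ∫ t in (-R)..R, pG F t) atTop (𝓝 0) := by
      rw [tendsto_zero_iff_norm_tendsto_zero]
      apply squeeze_zero' (Eventually.of_forall fun _ => norm_nonneg _) _ hlim2
      filter_upwards [eventually_gt_atTop (1 : ℝ)] with R hR using hrect R hR
    exact tendsto_nhds_unique hlim1 h5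
  have h5 : ∫ t : ℝ, (((1 + t ^ 2)⁻¹ : ℝ) : ℂ) * F t =
      (∫ t : ℝ, pG F t) + ∫ t : ℝ, (((1 + t ^ 2)⁻¹ : ℝ) : ℂ) * F I := by
    rw [← integral_add hGi hFI]
    apply integral_congr_ae
    filter_upwards with t
    rw [hreal]; ring
  rw [h5, hzero, zero_add, integral_mul_const, integral_complex_ofReal,
    integral_univ_inv_one_add_sq]

end Pool.Agent.XRay
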