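import Pool.Agent.Lib_helper92.XRay.Cancel
import Pool.Agent.Lib_helper92.XRay.Poisson

/-!
# Analytic continuation in the momentum and the uniqueness theorem
-/

set_option autoImplicit false

namespace Pool.Agent.XRay

open Complex Filter Topology MeasureTheory Metric Set

/-- admissible complex momenta -/
def Adm (m : ℝ) : Set ℂ := {p | p.im ≠ 0 ∨ |p.re| * m < 1}

theorem isOpen_Adm (m : ℝ) : IsOpen (Adm m) := by
  have h1 : IsOpen {p : ℂ | p.im ≠ 0} := isOpen_ne_fun continuous_im continuous_const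
  have h2 : IsOpen {p : ℂ | |p.re| * m < 1} :=
    isOpen_lt (by fun_prop) continuous_const
  exact h1.union h2

theorem isPreconnected_Adm {m : ℝ} (hm : 0 < m) : IsPreconnected (Adm m) := by
  have h1 : StarConvex ℝ (0 : ℂ) (Adm m) := by
    rw [starConvex_zero_iff]
    intro p hp s hs0 hs1
    rcases hs0.lt_or_eq with hs | hs
    · rcases hp with hp | hp
      · left
        rw [smul_im, smul_eq_mul]
        exact mul_ne_zero hs.ne' hp
      · right
        rw [smul_re, smul_eq_mul, abs_mul, abs_of_pos hs]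
        have : 0 ≤ |p.re| * m := by positivity
        nlinarith
    · right
      rw [← hs]; simp
  exact (h1.isPathConnected (Or.inr (by simp))).isConnected.isPreconnected

namespace Data

variable (D : Data)

theorem exists_c_bounds : ∃ c₀ c₁ : ℝ, 0 < c₀ ∧ 0 < c₁ ∧
    ∀ y ∈ Icc D.a D.b, c₀ ≤ D.c y ∧ D.c y ≤ c₁ := by
  have hne : (Icc D.a D.b).Nonempty := nonempty_Icc.2 D.hab.le
  obtain ⟨y₀, _, h0⟩ := isCompact_Icc.exists_isMinOn hne D.hc.continuousOn
  obtain ⟨y₁, _, h1⟩ := isCompact_Icc.exists_isMaxOn hne D.hc.continuousOn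
  exact ⟨D.c y₀, D.c y₁, D.c_pos _, D.c_pos _, fun y hy => ⟨h0 hy, h1 hy⟩⟩

/-- the lower bound of `c` -/
noncomputable def c₀ : ℝ := D.exists_c_bounds.choose
/-- the upper bound of `c` -/
noncomputable def c₁ : ℝ := D.exists_c_bounds.choose_spec.choose

theorem c₀_pos : 0 < D.c₀ := D.exists_c_bounds.choose_spec.choose_spec.1
theorem c₁_pos : 0 < D.c₁ := D.exists_c_bounds.choose_spec.choose_spec.2.1
theorem c_bd {y : ℝ} (hy : y ∈ Icc D.a D.b) : D.c₀ ≤ D.c y ∧ D.c y ≤ D.c₁ :=
  D.exists_c_bounds.choose_spec.choose_spec.2.2 y hy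

variable {D}

theorem adm_at {p : ℂ} (hp : p ∈ Adm D.c₁) {y : ℝ} (hy : y ∈ Icc D.a D.b) :
    p.im ≠ 0 ∨ |p.re| * D.c y < 1 := by
  rcases hp with hp | hp
  · exact Or.inl hp
  · right
    have := (D.c_bd hy).2
    nlinarith [abs_nonneg p.re]

theorem le_norm_rt_im {p : ℂ} {y : ℝ} (hy : y ∈ Icc D.a D.b) : |p.im| * D.c₀ ≤ ‖rt p (D.c y)‖ := by
  rw [norm_rt]
  apply Real.le_sqrt_of_sq_le
  refine le_trans ?_ (le_norm_im p (D.c y))
  rw [mul_pow, mul_pow, sq_abs]
  have := (D.c_bd hy).1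
  have h0 := D.c₀_pos
  gcongr

theorem le_norm_rt_re {p : ℂ} {y : ℝ} (hy : y ∈ Icc D.a D.b) (hp : |p.re| * D.c₁ ≤ 1) :
    1 - |p.re| * D.c₁ ≤ ‖rt p (D.c y)‖ := by
  rw [norm_rt]
  apply Real.le_sqrt_of_sq_le
  have h1 := (D.c_bd hy).2
  have h2 : |p.re| * D.c y ≤ |p.re| * D.c₁ := by gcongr
  refine le_trans ?_ (le_norm_re (D.c_pos y).le (h2.trans hp))
  have h3 : 0 ≤ 1 - |p.re| * D.c₁ := by linarith
  gcongr

theorem locbound {p₀ : ℂ} (hp₀ : p₀ ∈ Adm D.c₁) : ∃ ε > 0, ∃ η > 0, ∀ p ∈ ball p₀ ε,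
    p ∈ Adm D.c₁ ∧ ∀ s ∈ Icc D.a D.b, η ≤ ‖rt p (D.c s)‖ := by
  obtain ⟨ε₀, hε₀, hball⟩ := Metric.isOpen_iff.1 (isOpen_Adm D.c₁) p₀ hp₀
  have h0 := D.c₀_pos
  have h1 := D.c₁_pos
  rcases hp₀ with hp | hp
  · have hpos : 0 < |p₀.im| := abs_pos.2 hp
    refine ⟨min ε₀ (|p₀.im| / 2), lt_min hε₀ (by positivity), |p₀.im| / 2 * D.c₀, by positivity,
      fun p hpb => ⟨hball (ball_subset_ball (min_le_left _ _) hpb), fun s hs => ?_⟩⟩
    refine le_trans ?_ (le_norm_rt_im hs)
    gcongr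
    have h2 := ball_subset_ball (min_le_right _ _) hpb
    rw [mem_ball, dist_eq_norm] at h2
    have h3 : |(p - p₀).im| ≤ ‖p - p₀‖ := Complex.abs_im_le_norm _
    rw [sub_im] at h3
    have h4 := abs_sub_abs_le_abs_sub p₀.im p.im
    rw [abs_sub_comm] at h4
    linarith
  · refine ⟨min ε₀ ((1 - |p₀.re| * D.c₁) / (2 * D.c₁)), lt_min hε₀ (div_pos (by linarith)
      (by positivity)), (1 - |p₀.re| * D.c₁) / 2, by linarith,
      fun p hpb => ⟨hball (ball_subset_ball (min_le_left _ _) hpb), fun s hs => ?_⟩⟩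
    have h2 := ball_subset_ball (min_le_right _ _) hpb
    rw [mem_ball, dist_eq_norm, lt_div_iff₀ (by positivity)] at h2
    have h3 : |(p - p₀).re| ≤ ‖p - p₀‖ := Complex.abs_re_le_norm _
    rw [sub_re] at h3
    have h4 := abs_sub_abs_le_abs_sub p.re p₀.re
    have h5 : |p.re| * D.c₁ ≤ (1 + |p₀.re| * D.c₁) / 2 := by nlinarith
    refine le_trans ?_ (le_norm_rt_re hs (by linarith))
    linarith

theorem rt_measurable (D : Data) (p : ℂ) : Measurable (fun y => rt p (D.c y)) := by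
  unfold rt Complex.sqrt
  have h1 : Measurable (fun y => (1 : ℂ) - p ^ 2 * (D.c y : ℂ) ^ 2) := by
    have := D.hc.measurable
    fun_prop
  exact h1.pow_const _

theorem om_measurable (D : Data) (p : ℂ) : Measurable (D.om p) := by
  unfold om
  exact (Complex.measurable_ofReal.comp D.hβ.measurable).div (D.rt_measurable p)

theorem ph_measurable (D : Data) (p : ℂ) : Measurable (D.ph p) := by
  unfold ph
  exact (measurable_const.mul (Complex.measurable_ofReal.comp D.hα.measurable)).div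
    (D.rt_measurable p)

theorem norm_om (p : ℂ) (y : ℝ) : ‖D.om p y‖ = D.β y / ‖rt p (D.c y)‖ := by
  rw [om, norm_div, norm_real, Real.norm_of_nonneg (D.β_pos y).le]

theorem norm_ph (p : ℂ) (y : ℝ) : ‖D.ph p y‖ = ‖p‖ * D.α y / ‖rt p (D.c y)‖ := by
  rw [ph, norm_div, norm_mul, norm_real, Real.norm_of_nonneg (D.α_pos y).le]

theorem ph_neg (p : ℂ) (y : ℝ) : D.ph (-p) y = -D.ph p y := by
  rw [ph, ph, rt_neg, neg_mul, neg_div]

theorem om_neg (p : ℂ) (y : ℝ) : D.om (-p) y = D.om p y := by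
  rw [om, om, rt_neg]

theorem ae_Icc {P : ℝ → Prop} (h : ∀ y ∈ Icc D.a D.b, P y) :
    ∀ᵐ s ∂(volume.restrict (Ioc D.a D.b)), P s := by
  filter_upwards [ae_restrict_mem measurableSet_Ioc] with s hs using h s (Ioc_subset_Icc_self hs)

theorem k_int {p : ℂ} (hp : p ∈ Adm D.c₁) (ξ : ℂ) :
    IntervalIntegrable (fun s => D.h ξ s * D.om p s) volume D.a D.b := by
  obtain ⟨ε, hε, η, hη, h⟩ := locbound hp
  have h1 : IntervalIntegrable (fun s => D.H * Real.exp (D.X * |ξ.im|) * (D.β s / η))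
      volume D.a D.b := by
    have : Continuous (fun s => D.H * Real.exp (D.X * |ξ.im|) * (D.β s / η)) :=
      continuous_const.mul (D.hβ.div_const _)
    exact this.intervalIntegrable _ _
  rw [intervalIntegrable_iff_integrableOn_Ioc_of_le D.hab.le] at h1 ⊢
  apply h1.mono' ((D.hm ξ).mul (D.om_measurable p)).aestronglyMeasurable
  apply ae_Icc
  intro s hs
  rw [Pi.mul_apply, norm_mul, norm_om]
  have h2 := (h p (mem_ball_self hε)).2 s hs
  have h3 := D.hb ξ s
  have h4 := D.X_bound ξ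
  have h5 := (D.β_pos s).le
  gcongr

theorem θ_int {p : ℂ} (hp : p ∈ Adm D.c₁) (ξ : ℂ) :
    IntervalIntegrable (fun s => I * ξ * D.ph p s) volume D.a D.b := by
  obtain ⟨ε, hε, η, hη, h⟩ := locbound hp
  apply IntervalIntegrable.const_mul
  have h1 : IntervalIntegrable (fun s => ‖p‖ * D.α s / η) volume D.a D.b := by
    have : Continuous (fun s => ‖p‖ * D.α s / η) := (continuous_const.mul D.hα).div_const _
    exact this.intervalIntegrable _ _
  rw [intervalIntegrable_iff_integrableOn_Ioc_of_le D.hab.le] at h1 ⊢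
  apply h1.mono' (D.ph_measurable p).aestronglyMeasurable
  apply ae_Icc
  intro s hs
  rw [norm_ph]
  have h2 := (h p (mem_ball_self hε)).2 s hs
  have h5 := (D.α_pos s).le
  gcongr

/-- holomorphy in the momentum -/
theorem u_diff {p₀ : ℂ} (hp₀ : p₀ ∈ Adm D.c₁) (ξ : ℂ) {y : ℝ} (hy : y ∈ Icc D.a D.b) :
    DifferentiableAt ℂ (fun p => D.u p ξ y) p₀ := by
  obtain ⟨ε, hε, η, hη, h⟩ := locbound hp₀
  unfold u
  apply U_differentiableAt hε D.hab.le
    (K := fun s => D.H * Real.exp (D.X * |ξ.im|) * (D.β s / η))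
    (T := fun s => ‖ξ‖ * ((‖p₀‖ + ε) * |D.α s| / η))
  · have : Continuous (fun s => D.H * Real.exp (D.X * |ξ.im|) * (D.β s / η)) :=
      continuous_const.mul (D.hβ.div_const _)
    exact this.intervalIntegrable _ _
  · have : Continuous (fun s => ‖ξ‖ * ((‖p₀‖ + ε) * |D.α s| / η)) :=
      continuous_const.mul ((continuous_const.mul D.hα.abs).div_const _)
    exact this.intervalIntegrable _ _
  · intro s; positivity
  · intro p _
    exact ((D.hm ξ).mul (D.om_measurable p)).aestronglyMeasurable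
  · intro p _
    exact ((D.ph_measurable p).const_mul _).aestronglyMeasurable
  · apply ae_Icc
    intro s hs p hp
    rw [norm_mul, norm_om]
    have h2 := (h p hp).2 s hs
    have h3 := D.hb ξ s
    have h4 := D.X_bound ξ
    have h5 := (D.β_pos s).le
    gcongr
  · apply ae_Icc
    intro s hs p hp
    rw [norm_mul, norm_mul, norm_I, one_mul, norm_ph]
    have h2 := (h p hp).2 s hs
    have h5 := (D.α_pos s).le
    rw [abs_of_nonneg h5]
    have h6 : ‖p‖ ≤ ‖p₀‖ + ε := by
      rw [mem_ball, dist_eq_norm] at hp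
      have := norm_sub_norm_le p p₀
      linarith
    gcongr
  · apply ae_Icc
    intro s hs p hp
    apply DifferentiableAt.differentiableWithinAt
    unfold om
    have h1 := adm_at (h p hp).1 hs
    apply DifferentiableAt.const_mul
    exact (differentiableAt_const _).div (differentiableAt_rt (D.c_pos s) h1)
      (rt_ne_zero (D.c_pos s) h1)
  · apply ae_Icc
    intro s hs p hp
    apply DifferentiableAt.differentiableWithinAt
    unfold ph
    have h1 := adm_at (h p hp).1 hs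
    apply DifferentiableAt.const_mul
    exact (differentiableAt_id.mul_const _).div (differentiableAt_rt (D.c_pos s) h1)
      (rt_ne_zero (D.c_pos s) h1)
  · exact hy

/-- analytic continuation of the vanishing of the data -/
theorem zero_ext {p₀ : ℝ} (hp₀ : 0 < p₀) {ξ : ℂ}
    (hz : ∀ p : ℝ, |p| < p₀ → D.u p ξ D.a = 0) {p : ℂ} (hp : p ∈ Adm D.c₁) :
    D.u p ξ D.a = 0 := by
  have han : AnalyticOnNhd ℂ (fun p => D.u p ξ D.a) (Adm D.c₁) := by
    apply DifferentiableOn.analyticOnNhd _ (isOpen_Adm _)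
    intro p hp
    exact (u_diff hp ξ (left_mem_Icc.2 D.hab.le)).differentiableWithinAt
  have h0 : (0 : ℂ) ∈ Adm D.c₁ := Or.inr (by simp)
  have hfreq : ∃ᶠ p in 𝓝[≠] (0 : ℂ), D.u p ξ D.a = 0 := by
    have h4 : Tendsto (fun n : ℕ => ((1 / (((n : ℝ) + 1)) * (p₀ / 2) : ℝ) : ℂ)) atTop (𝓝[≠] 0) := by
      apply tendsto_nhdsWithin_of_tendsto_nhds_of_eventually_within
      · have h5 := (tendsto_one_div_add_atTop_nhds_zero_nat (𝕜 := ℝ)).mul_const (p₀ / 2)
        rw [zero_mul] at h5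
        exact (Complex.continuous_ofReal.tendsto 0).comp h5
      · filter_upwards with n
        simp only [mem_compl_iff, mem_singleton_iff]
        intro h
        have h5 : (1 / (((n : ℝ) + 1)) * (p₀ / 2) : ℝ) = 0 := by exact_mod_cast h
        have h6 : 0 < (1 / (((n : ℝ) + 1)) * (p₀ / 2) : ℝ) := by positivity
        linarith
    apply h4.frequently
    apply Filter.Frequently.of_forall
    intro n
    apply hz
    rw [abs_of_pos (by positivity)]
    have : 1 / ((n : ℝ) + 1) ≤ 1 := by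
      rw [div_le_one (by positivity)]
      have := Nat.cast_nonneg (α := ℝ) n
      linarith
    nlinarith
  exact han.eqOn_zero_of_preconnected_of_frequently_eq_zero (isPreconnected_Adm D.c₁_pos) h0
    hfreq hp

/-- the complex momentum near the real axis -/
noncomputable def bp (σ τ t ε : ℝ) : ℂ := ((σ * t : ℝ) : ℂ) + ((τ * ε : ℝ) : ℂ) * I

theorem bp_re (σ τ t ε : ℝ) : (bp σ τ t ε).re = σ * t := by simp [bp]
theorem bp_im (σ τ t ε : ℝ) : (bp σ τ t ε).im = τ * ε := by simp [bp]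

/-- domination by the weight -/
theorem inv_norm_rt_le {p : ℂ} {t c : ℝ} (hp : p.re ^ 2 = t ^ 2) (htc : t ^ 2 * c ^ 2 ≠ 1) :
    ‖rt p c‖⁻¹ ≤ wt t c := by
  rw [wt, norm_rt]
  have h0 : 0 < |1 - t ^ 2 * c ^ 2| := abs_pos.2 (fun h => htc (by linarith))
  apply inv_anti₀ (Real.sqrt_pos.2 h0)
  apply Real.sqrt_le_sqrt
  have := le_norm p c
  rwa [hp] at this

theorem sq_ne {t : ℝ} (hg : D.Good t) {s : ℝ} (hs : t * D.c s ≠ 1) : t ^ 2 * D.c s ^ 2 ≠ 1 := by
  intro h
  apply hs
  have h1 : (t * D.c s - 1) * (t * D.c s + 1) = 0 := by linear_combination h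
  rcases mul_eq_zero.1 h1 with h2 | h2
  · linarith
  · have := mul_pos hg.pos (D.c_pos s); linarith

/-- convergence to the boundary values -/
theorem u_tendsto {t σ τ : ℝ} (hg : D.Good t) (hs : Sgn σ τ) (ξ : ℂ) {y : ℝ}
    (hy : y ∈ Icc D.a D.b) :
    Tendsto (fun ε : ℝ => D.u (bp σ τ t ε) ξ y) (𝓝[>] 0) (𝓝 (D.uB σ τ t ξ y)) := by
  have hre : ∀ ε, (bp σ τ t ε).re ^ 2 = t ^ 2 := by
    intro ε; rw [bp_re, mul_pow, hs.σ2, one_mul]
  unfold u uB
  apply U_tendsto D.hab.le (K := fun s => D.H * Real.exp (D.X * |ξ.im|) * D.rho t s)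
    (T := fun s => ‖ξ‖ * ((t + 1) * |D.α s| * wt t (D.c s)))
  · exact hg.rho_int.const_mul _
  · apply IntervalIntegrable.const_mul
    exact hg.int.continuousOn_mul (continuous_const.mul D.hα.abs).continuousOn
  · intro s
    have := hg.pos
    have := wt_nonneg t (D.c s)
    positivity
  · filter_upwards with ε
    exact ((D.hm ξ).mul (D.om_measurable _)).aestronglyMeasurable
  · filter_upwards with ε
    exact ((D.ph_measurable _).const_mul _).aestronglyMeasurable
  · filter_upwards with ε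
    filter_upwards [hg.ne] with s hs'
    rw [norm_mul, norm_om, rho, div_eq_mul_inv]
    have h1 := inv_norm_rt_le (hre ε) (sq_ne hg hs')
    have h3 := D.hb ξ s
    have h4 := D.X_bound ξ
    have h5 := (D.β_pos s).le
    gcongr
  · have h1 : ∀ᶠ ε : ℝ in 𝓝[>] 0, ε < 1 :=
      nhdsWithin_le_nhds (Iio_mem_nhds one_pos)
    filter_upwards [h1, self_mem_nhdsWithin] with ε hε1 hε0
    filter_upwards [hg.ne] with s hs'
    rw [norm_mul, norm_mul, norm_I, one_mul, norm_ph, div_eq_mul_inv]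
    have h1 := inv_norm_rt_le (hre ε) (sq_ne hg hs')
    have h5 := (D.α_pos s).le
    rw [abs_of_nonneg h5]
    have hε0' : (0 : ℝ) < ε := hε0
    have h6 : ‖bp σ τ t ε‖ ≤ t + 1 := by
      rw [bp]
      refine (norm_add_le _ _).trans ?_
      rw [norm_mul, norm_I, mul_one, norm_real, norm_real, Real.norm_eq_abs, Real.norm_eq_abs,
        abs_mul, abs_mul, hs.σ1, hs.τ1, one_mul, one_mul, abs_of_pos hg.pos, abs_of_pos hε0']
      linarith
    have h7 := hg.pos
    gcongr
  · filter_upwards [hg.ne] with s hs'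
    apply Tendsto.const_mul
    unfold om omB
    apply Tendsto.div tendsto_const_nhds (tendsto_rt hs.hσ hs.hτ hg.pos (D.c_pos s) hs')
    intro h
    have h1 := norm_rtB (t := t) (c := D.c s) hs.σ1 hs.τ1
    rw [h, norm_zero] at h1
    have h2 : 0 < |1 - t ^ 2 * D.c s ^ 2| :=
      abs_pos.2 (fun h => sq_ne hg hs' (by linarith))
    have := Real.sqrt_pos.2 h2
    linarith
  · filter_upwards [hg.ne] with s hs'
    apply Tendsto.const_mul
    unfold ph phB
    apply Tendsto.div _ (tendsto_rt hs.hσ hs.hτ hg.pos (D.c_pos s) hs')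
    · intro h
      have h1 := norm_rtB (t := t) (c := D.c s) hs.σ1 hs.τ1
      rw [h, norm_zero] at h1
      have h2 : 0 < |1 - t ^ 2 * D.c s ^ 2| :=
        abs_pos.2 (fun h => sq_ne hg hs' (by linarith))
      have := Real.sqrt_pos.2 h2
      linarith
    · apply Tendsto.mul_const
      apply tendsto_nhdsWithin_of_tendsto_nhds
      have h1 : Continuous (fun ε : ℝ => bp σ τ t ε) := by unfold bp; fun_prop
      have h2 := h1.tendsto 0
      have h3 : bp σ τ t 0 = σ * t := by unfold bp; push_cast; ring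
      rwa [h3] at h2
  · exact hy

end Data

end Pool.Agent.XRay
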