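import Pool.Agent.Lib_helper92.XRay.Main

/-!
# Conclusion of the one dimensional uniqueness theorem
-/

set_option autoImplicit false

namespace Pool.Agent.XRay

open Complex Filter Topology MeasureTheory Metric Set

/-- an integrable function all of whose integrals `∫_y^b` vanish is zero -/
theorem ae_zero_of_tail {a b : ℝ} (hab : a < b) {f : ℝ → ℂ} (hf : IntervalIntegrable f volume a b)
    (h : ∀ y ∈ Ioo a b, ∫ s in y..b, f s = 0) : ∀ᵐ y ∂(volume.restrict (Ioc a b)), f y = 0 := by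
  have h1 := hf.ae_hasDerivAt_integral
  rw [ae_restrict_iff' measurableSet_Ioc]
  have h2 : ∀ᵐ x : ℝ, x ≠ b := by simp [ae_iff, measure_singleton]
  filter_upwards [h1, h2] with y hy hyb hyI
  have hI : y ∈ Ioo a b := ⟨hyI.1, lt_of_le_of_ne hyI.2 hyb⟩
  have h3 := hy (by rw [uIcc_of_le hab.le]; exact Ioc_subset_Icc_self hyI) b
    (by rw [uIcc_of_le hab.le]; exact right_mem_Icc.2 hab.le)
  have h4 : HasDerivAt (fun x => ∫ t in b..x, f t) 0 y := by
    apply (hasDerivAt_const y (0 : ℂ)).congr_of_eventuallyEq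
    filter_upwards [Ioo_mem_nhds hI.1 hI.2] with x hx
    rw [intervalIntegral.integral_symm, h x hx, neg_zero]
  exact h3.unique h4

namespace Data

variable {D : Data}

/-- phase rate at `p = i` -/
noncomputable def kr (D : Data) (s : ℝ) : ℝ := D.α s / √(1 + D.c s ^ 2)

/-- weight at `p = i` -/
noncomputable def wr (D : Data) (s : ℝ) : ℝ := D.β s / √(1 + D.c s ^ 2)

theorem den_pos (D : Data) (s : ℝ) : 0 < √(1 + D.c s ^ 2) := Real.sqrt_pos.2 (by positivity)

theorem kr_cont (D : Data) : Continuous D.kr := by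
  unfold kr
  have := D.hc
  exact D.hα.div (by fun_prop) (fun s => (D.den_pos s).ne')

theorem wr_cont (D : Data) : Continuous D.wr := by
  unfold wr
  have := D.hc
  exact D.hβ.div (by fun_prop) (fun s => (D.den_pos s).ne')

theorem kr_pos (D : Data) (s : ℝ) : 0 < D.kr s := div_pos (D.α_pos s) (D.den_pos s)

theorem wr_pos (D : Data) (s : ℝ) : 0 < D.wr s := div_pos (D.β_pos s) (D.den_pos s)

theorem om_I (D : Data) (s : ℝ) : D.om I s = D.wr s := by
  rw [om, rt_I, wr]; push_cast; ring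

theorem ph_I (D : Data) (s : ℝ) : D.ph I s = I * D.kr s := by
  rw [ph, rt_I, kr]; push_cast; ring

/-- **One dimensional uniqueness theorem.** -/
theorem uniqueness (D : Data) {p₀ : ℝ} (hp₀ : 0 < p₀)
    (hz : ∀ p : ℝ, |p| < p₀ → ∀ ξ : ℂ, D.u p ξ D.a = 0) {ξ : ℝ} (hξ : 0 < ξ) :
    ∀ᵐ y ∂(volume.restrict (Ioc D.a D.b)), D.h ξ y = 0 := by
  have hz' : ∀ p ∈ Adm D.c₁, ∀ ξ, D.u p ξ D.a = 0 := fun p hp ξ =>
    zero_ext hp₀ (fun q hq => hz q hq ξ) hp
  have hab := D.hab.le
  -- primitive of the phase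
  set κ : ℝ → ℝ := fun y => ∫ s in D.a..y, ξ * D.kr s with hκ
  have hkc : Continuous (fun s => ξ * D.kr s) := continuous_const.mul D.kr_cont
  have hκd : ∀ y, HasDerivAt κ (ξ * D.kr y) y := fun y =>
    hkc.integral_hasStrictDerivAt D.a y |>.hasDerivAt
  have hκc : Continuous κ := by
    rw [continuous_iff_continuousAt]; exact fun y => (hκd y).continuousAt
  -- the function `g`
  set g : ℝ → ℂ := fun s => D.h ξ s * D.wr s with hg
  have hgi : IntervalIntegrable g volume D.a D.b := by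
    have := k_int (D := D) (p := I) (Or.inl (by simp)) ξ
    refine this.congr ?_
    intro s _
    simp only []
    rw [om_I]
  have hEc : Continuous (fun s => exp ((κ s : ℝ) : ℂ)) := by fun_prop
  have hEc' : Continuous (fun s => exp (-((κ s : ℝ) : ℂ))) := by fun_prop
  have hPi : IntervalIntegrable (fun s => g s * exp ((κ s : ℝ) : ℂ)) volume D.a D.b :=
    hgi.mul_continuousOn hEc.continuousOn
  have hQi : IntervalIntegrable (fun s => g s * exp (-((κ s : ℝ) : ℂ))) volume D.a D.b :=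
    hgi.mul_continuousOn hEc'.continuousOn
  -- the identity
  have hθ1 : ∀ s, I * ξ * D.ph I s = -((ξ * D.kr s : ℝ) : ℂ) := by
    intro s; rw [ph_I]; push_cast
    linear_combination (ξ * D.kr s : ℂ) * I_sq
  have hθ2 : ∀ s, I * ξ * D.ph (-I) s = ((ξ * D.kr s : ℝ) : ℂ) := by
    intro s; rw [ph_neg, ph_I]; push_cast
    linear_combination (-(ξ * D.kr s : ℂ)) * I_sq
  have hu1 : ∀ y ∈ Icc D.a D.b, D.u I ξ y =
      exp ((κ y : ℝ) : ℂ) * ∫ s in y..D.b, g s * exp (-((κ s : ℝ) : ℂ)) := by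
    intro y hy
    rw [u, U_eq (θ_int (Or.inl (by simp)) ξ) hab hy]
    simp only [hθ1, om_I]
    simp only [intervalIntegral.integral_neg, neg_neg, intervalIntegral.integral_ofReal]
    rfl
  have hu2 : ∀ y ∈ Icc D.a D.b, D.u (-I) ξ y =
      exp (-((κ y : ℝ) : ℂ)) * ∫ s in y..D.b, g s * exp ((κ s : ℝ) : ℂ) := by
    intro y hy
    rw [u, U_eq (θ_int (Or.inl (by simp)) ξ) hab hy]
    simp only [hθ2, om_neg, om_I]
    simp only [intervalIntegral.integral_ofReal]
    rfl
  have hid : ∀ y ∈ Icc D.a D.b, exp ((κ y : ℝ) : ℂ) * (∫ s in y..D.b, g s * exp (-((κ s : ℝ) : ℂ))) -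
      exp (-((κ y : ℝ) : ℂ)) * (∫ s in y..D.b, g s * exp ((κ s : ℝ) : ℂ)) = 0 := by
    intro y hy
    rw [← hu1 y hy, ← hu2 y hy]
    exact E_I hz' hξ hy
  -- differentiate
  have hQ0 : ∀ᵐ y ∂(volume.restrict (Ioc D.a D.b)),
      ∫ s in y..D.b, g s * exp (-((κ s : ℝ) : ℂ)) = 0 := by
    have h1 := hPi.ae_hasDerivAt_integral
    have h1' := hQi.ae_hasDerivAt_integral
    rw [ae_restrict_iff' measurableSet_Ioc]
    have h2 : ∀ᵐ x : ℝ, x ≠ D.b := by simp [ae_iff, measure_singleton]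
    filter_upwards [h1, h1', h2] with y hy hy' hyb hyI
    have hI : y ∈ Ioo D.a D.b := ⟨hyI.1, lt_of_le_of_ne hyI.2 hyb⟩
    have hyc : y ∈ uIcc D.a D.b := by rw [uIcc_of_le hab]; exact Ioc_subset_Icc_self hyI
    have hbc : D.b ∈ uIcc D.a D.b := by rw [uIcc_of_le hab]; exact right_mem_Icc.2 hab
    have dP : HasDerivAt (fun x => ∫ s in x..D.b, g s * exp ((κ s : ℝ) : ℂ))
        (-(g y * exp ((κ y : ℝ) : ℂ))) y := by
      have := (hy hyc D.b hbc).neg
      refine this.congr_of_eventuallyEq (Eventually.of_forall fun x => ?_)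
      exact intervalIntegral.integral_symm _ _
    have dQ : HasDerivAt (fun x => ∫ s in x..D.b, g s * exp (-((κ s : ℝ) : ℂ)))
        (-(g y * exp (-((κ y : ℝ) : ℂ)))) y := by
      have := (hy' hyc D.b hbc).neg
      refine this.congr_of_eventuallyEq (Eventually.of_forall fun x => ?_)
      exact intervalIntegral.integral_symm _ _
    have dκ : HasDerivAt (fun x => ((κ x : ℝ) : ℂ)) ((ξ * D.kr y : ℝ) : ℂ) y :=
      (hκd y).ofReal_comp
    have d1 := (dκ.cexp.mul dQ).sub (dκ.neg.cexp.mul dP)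
    have d0 : HasDerivAt (fun x => exp ((κ x : ℝ) : ℂ) *
        (∫ s in x..D.b, g s * exp (-((κ s : ℝ) : ℂ))) -
        exp (-((κ x : ℝ) : ℂ)) * (∫ s in x..D.b, g s * exp ((κ s : ℝ) : ℂ))) 0 y := by
      apply (hasDerivAt_const y (0 : ℂ)).congr_of_eventuallyEq
      filter_upwards [Ioo_mem_nhds hI.1 hI.2] with x hx
      exact hid x (Ioo_subset_Icc_self hx)
    have h3 := d1.unique d0
    have h4 := hid y (Ioo_subset_Icc_self hI)
    have h5 : exp ((κ y : ℝ) : ℂ) * exp (-((κ y : ℝ) : ℂ)) = 1 := by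
      rw [← exp_add, add_neg_cancel, exp_zero]
    have h6 : 2 * ((ξ * D.kr y : ℝ) : ℂ) * exp ((κ y : ℝ) : ℂ) *
        (∫ s in y..D.b, g s * exp (-((κ s : ℝ) : ℂ))) = 0 := by
      linear_combination h3 + ((ξ * D.kr y : ℝ) : ℂ) * h4
    have h7 : ((ξ * D.kr y : ℝ) : ℂ) ≠ 0 := by
      have := mul_pos hξ (D.kr_pos y)
      exact_mod_cast this.ne'
    have h8 := exp_ne_zero ((κ y : ℝ) : ℂ)
    rcases mul_eq_zero.1 h6 with h9 | h9
    · rcases mul_eq_zero.1 h9 with h10 | h10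
      · exact absurd h10 (mul_ne_zero two_ne_zero h7)
      · exact absurd h10 h8
    · exact h9
  -- continuity
  have hQc : ContinuousOn (fun y => ∫ s in y..D.b, g s * exp (-((κ s : ℝ) : ℂ))) (Icc D.a D.b) := by
    have h1 := (prim_cont hQi hab (right_mem_Icc.2 hab)).neg
    refine h1.congr fun y _ => ?_
    exact intervalIntegral.integral_symm _ _
  have hQ : ∀ y ∈ Ioo D.a D.b, ∫ s in y..D.b, g s * exp (-((κ s : ℝ) : ℂ)) = 0 := by
    have h1 : (fun y => ∫ s in y..D.b, g s * exp (-((κ s : ℝ) : ℂ))) =ᵐ[volume.restrict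
        (Ioo D.a D.b)] fun _ => (0 : ℂ) := by
      rw [restrict_Ioo_eq_restrict_Ioc]; exact hQ0
    exact Measure.eqOn_Ioo_of_ae_eq volume h1 (hQc.mono Ioo_subset_Icc_self) continuousOn_const
  have h1 := ae_zero_of_tail D.hab hQi hQ
  filter_upwards [h1] with y hy
  rcases mul_eq_zero.1 hy with h2 | h2
  · rw [hg] at h2
    rcases mul_eq_zero.1 h2 with h3 | h3
    · exact h3
    · exfalso
      have := D.wr_pos y
      have h4 : D.wr y = 0 := by exact_mod_cast h3
      linarith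
  · exact absurd h2 (exp_ne_zero _)

end Data

end Pool.Agent.XRay
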