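import Mathlib

/-!
# The Fubini step
-/

set_option autoImplicit false

namespace Pool.Agent.XRay

open Complex Set Topology MeasureTheory Filter

variable {E : Type*} [NormedAddCommGroup E] [InnerProductSpace ℝ E] [FiniteDimensional ℝ E]
  [MeasurableSpace E] [BorelSpace E]

theorem fubini_zero {φ : E × ℝ → ℝ} (hφm : Measurable φ) {C R a b : ℝ} (hφb : ∀ z, |φ z| ≤ C)
    (hφs : ∀ x y, R < ‖x‖ → φ (x, y) = 0) (hab : a ≤ b) {χ : ℝ → E} (hχ : Continuous χ)
    {w : ℝ → ℝ} (hw : Continuous w) (ω : E) (ξ : ℂ)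
    (h0 : ∀ᵐ x₀ : E, ∫ y in a..b, φ (x₀ + χ y, y) * w y = 0) :
    ∫ y in a..b, (w y : ℂ) * exp (I * ξ * ((inner ℝ ω (χ y) : ℝ) : ℂ)) *
      ∫ x : E, (φ (x, y) : ℂ) * exp (-(I * ξ * ((inner ℝ ω x : ℝ) : ℂ))) = 0 := by
  -- translate the inner integral
  have h1 : ∀ y : ℝ, (w y : ℂ) * exp (I * ξ * ((inner ℝ ω (χ y) : ℝ) : ℂ)) *
      ∫ x : E, (φ (x, y) : ℂ) * exp (-(I * ξ * ((inner ℝ ω x : ℝ) : ℂ))) =
      ∫ x : E, ((φ (x + χ y, y) * w y : ℝ) : ℂ) * exp (-(I * ξ * ((inner ℝ ω x : ℝ) : ℂ))) := by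
    intro y
    rw [← integral_add_right_eq_self (fun x : E => (φ (x, y) : ℂ) *
      exp (-(I * ξ * ((inner ℝ ω x : ℝ) : ℂ)))) (χ y), ← integral_const_mul]
    apply integral_congr_ae
    filter_upwards with x
    rw [inner_add_right]
    push_cast
    rw [mul_add, neg_add, exp_add]
    have h2 : exp (I * ξ * ((inner ℝ ω (χ y) : ℝ) : ℂ)) *
        exp (-(I * ξ * ((inner ℝ ω (χ y) : ℝ) : ℂ))) = 1 := by
      rw [← exp_add, add_neg_cancel, exp_zero]
    linear_combination ((w y : ℂ) * (φ (x + χ y, y) : ℂ) *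
      exp (-(I * ξ * ((inner ℝ ω x : ℝ) : ℂ)))) * h2
  simp only [h1]
  -- integrability
  obtain ⟨Bw, hBw⟩ := isCompact_Icc.exists_bound_of_continuousOn (s := Icc a b) hw.continuousOn
  obtain ⟨Bχ, hBχ⟩ := isCompact_Icc.exists_bound_of_continuousOn (s := Icc a b) hχ.continuousOn
  set ρ := R + |Bχ| with hρ
  have hmeas : Measurable (fun z : ℝ × E => ((φ (z.2 + χ z.1, z.1) * w z.1 : ℝ) : ℂ) *
      exp (-(I * ξ * ((inner ℝ ω z.2 : ℝ) : ℂ)))) := by
    have e1 : Measurable (fun z : ℝ × E => (z.2 + χ z.1, z.1)) := by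
      have := hχ.measurable
      fun_prop
    have e2 : Measurable (fun z : ℝ × E => φ (z.2 + χ z.1, z.1) * w z.1) :=
      (hφm.comp e1).mul (hw.measurable.comp measurable_fst)
    apply (Complex.measurable_ofReal.comp e2).mul
    have e3 : Continuous (fun z : ℝ × E => exp (-(I * ξ * ((inner ℝ ω z.2 : ℝ) : ℂ)))) := by
      fun_prop
    exact e3.measurable
  have hcompact : IsCompact (Metric.closedBall (0 : E) ρ) := isCompact_closedBall _ _
  obtain ⟨Be, hBe⟩ := hcompact.exists_bound_of_continuousOn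
    (f := fun x : E => exp (-(I * ξ * ((inner ℝ ω x : ℝ) : ℂ)))) (by fun_prop)
  have hint : Integrable (fun z : ℝ × E => ((φ (z.2 + χ z.1, z.1) * w z.1 : ℝ) : ℂ) *
      exp (-(I * ξ * ((inner ℝ ω z.2 : ℝ) : ℂ)))) ((volume.restrict (Ioc a b)).prod volume) := by
    have hfin : Integrable (fun z : ℝ × E => (univ ×ˢ Metric.closedBall (0 : E) ρ).indicator
        (fun _ => |C| * |Bw| * |Be|) z) ((volume.restrict (Ioc a b)).prod volume) := by
      apply IntegrableOn.integrable_indicator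
      · rw [integrableOn_const_iff]
        right
        rw [Measure.prod_prod, Measure.restrict_apply_univ]
        exact ENNReal.mul_lt_top measure_Ioc_lt_top hcompact.measure_lt_top
      · exact MeasurableSet.univ.prod Metric.isClosed_closedBall.measurableSet
    apply hfin.mono' hmeas.aestronglyMeasurable
    have hae : ∀ᵐ z ∂((volume.restrict (Ioc a b)).prod (volume : Measure E)), z.1 ∈ Ioc a b := by
      have : ∀ᵐ y ∂(volume.restrict (Ioc a b)), y ∈ Ioc a b := ae_restrict_mem measurableSet_Ioc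
      exact Measure.quasiMeasurePreserving_fst.ae this
    filter_upwards [hae] with z hz
    have hz' : z.1 ∈ Icc a b := Ioc_subset_Icc_self hz
    by_cases hzb : z.2 ∈ Metric.closedBall (0 : E) ρ
    · have hmem : z ∈ (univ ×ˢ Metric.closedBall (0 : E) ρ : Set (ℝ × E)) := ⟨mem_univ _, hzb⟩
      rw [indicator_of_mem hmem, norm_mul, norm_real, norm_mul, Real.norm_eq_abs]
      have b1 : |φ (z.2 + χ z.1, z.1)| ≤ |C| := (hφb _).trans (le_abs_self _)
      have b2 : ‖w z.1‖ ≤ |Bw| := (hBw _ hz').trans (le_abs_self _)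
      have b3 := (hBe _ hzb).trans (le_abs_self _)
      gcongr
    · have hzero : φ (z.2 + χ z.1, z.1) = 0 := by
        apply hφs
        rw [Metric.mem_closedBall, dist_zero_right, not_le] at hzb
        have h2 : ‖χ z.1‖ ≤ |Bχ| := (hBχ _ hz').trans (le_abs_self _)
        have h3 : ‖z.2‖ ≤ ‖z.2 + χ z.1‖ + ‖χ z.1‖ := by
          have := norm_sub_le (z.2 + χ z.1) (χ z.1)
          rwa [add_sub_cancel_right] at this
        linarith
      rw [hzero, zero_mul, ofReal_zero, zero_mul, norm_zero]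
      apply indicator_nonneg
      intro _ _; positivity
  rw [intervalIntegral.integral_of_le hab, integral_integral_swap hint]
  have h2 : ∀ᵐ x : E, ∫ y in Ioc a b, ((φ (x + χ y, y) * w y : ℝ) : ℂ) *
      exp (-(I * ξ * ((inner ℝ ω x : ℝ) : ℂ))) = 0 := by
    filter_upwards [h0] with x hx
    rw [intervalIntegral.integral_of_le hab] at hx
    rw [integral_mul_const, integral_complex_ofReal, hx, ofReal_zero, zero_mul]
  rw [integral_congr_ae (g := fun _ => (0 : ℂ)) h2, integral_zero]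

/-- a null set stays null along almost every translate of a graph -/
theorem ae_graph {N : Set (E × ℝ)} (hN : MeasurableSet N) (h : (volume : Measure (E × ℝ)) N = 0)
    {χ : ℝ → E} (hχ : Continuous χ) (a b : ℝ) :
    ∀ᵐ x₀ : E, ∀ᵐ y ∂(volume.restrict (Ioc a b)), (x₀ + χ y, y) ∉ N := by
  have hm : MeasurableSet {z : E × ℝ | (z.1 + χ z.2, z.2) ∉ N} := by
    have : Measurable (fun z : E × ℝ => (z.1 + χ z.2, z.2)) := by
      have := hχ.measurable
      fun_prop
    exact (this hN).compl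
  rw [Measure.ae_ae_comm hm]
  apply ae_restrict_of_ae
  have h1 : ∀ᵐ y : ℝ, ∀ᵐ x : E, (x, y) ∉ N := by
    rw [← Measure.ae_ae_comm hN.compl]
    have h2 : ∀ᵐ z ∂((volume : Measure E).prod (volume : Measure ℝ)), z ∉ N := by
      rw [ae_iff, ← Measure.volume_eq_prod]
      simpa using h
    exact Measure.ae_ae_of_ae_prod h2
  filter_upwards [h1] with y hy
  exact (measurePreserving_add_right (volume : Measure E) (χ y)).quasiMeasurePreserving.ae hy

end Pool.Agent.XRay
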