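import Pool.Agent.Lib_helper92.XRay.Hol

/-!
# The Fourier-Laplace transform of the slices
-/

set_option autoImplicit false
set_option linter.unusedSectionVars false

namespace Pool.Agent.XRay

open Complex Set Topology MeasureTheory Filter

theorem norm_exp_le (ξ : ℂ) (r : ℝ) : ‖exp (-(I * ξ * (r : ℂ)))‖ ≤ Real.exp (|r| * |ξ.im|) := by
  rw [norm_exp]
  apply Real.exp_le_exp.2
  have : (-(I * ξ * (r : ℂ))).re = r * ξ.im := by
    rw [neg_re, re_mul_ofReal]
    simp
    ring
  rw [this, ← abs_mul]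
  exact le_abs_self _

variable {E : Type*} [NormedAddCommGroup E] [InnerProductSpace ℝ E] [FiniteDimensional ℝ E]
  [MeasurableSpace E] [BorelSpace E]

/-- the Fourier-Laplace transform of a slice -/
noncomputable def sl (φ : E × ℝ → ℝ) (ω : E) (ξ : ℂ) (y : ℝ) : ℂ :=
  ∫ x : E, (φ (x, y) : ℂ) * exp (-(I * ξ * ((inner ℝ ω x : ℝ) : ℂ)))

variable {φ : E × ℝ → ℝ} {C R : ℝ}

theorem sl_integrand_meas (hφm : Measurable φ) (ω : E) (ξ : ℂ) :
    Measurable (fun z : E × ℝ => (φ z : ℂ) * exp (-(I * ξ * ((inner ℝ ω z.1 : ℝ) : ℂ)))) := by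
  apply (Complex.measurable_ofReal.comp hφm).mul
  have : Continuous (fun z : E × ℝ => exp (-(I * ξ * ((inner ℝ ω z.1 : ℝ) : ℂ)))) := by fun_prop
  exact this.measurable

theorem sl_measurable (hφm : Measurable φ) (ω : E) (ξ : ℂ) : Measurable (sl φ ω ξ) := by
  have h := (sl_integrand_meas hφm ω ξ).stronglyMeasurable
  exact (StronglyMeasurable.integral_prod_left' (μ := (volume : Measure E)) h).measurable

theorem sl_bound (hφb : ∀ z, |φ z| ≤ C) (hφs : ∀ x y, R < ‖x‖ → φ (x, y) = 0) (ω : E) (ξ : ℂ)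
    (x : E) (y : ℝ) : ‖(φ (x, y) : ℂ) * exp (-(I * ξ * ((inner ℝ ω x : ℝ) : ℂ)))‖ ≤
      (Metric.closedBall (0 : E) R).indicator
        (fun _ => |C| * Real.exp ((‖ω‖ * |R|) * |ξ.im|)) x := by
  by_cases hx : x ∈ Metric.closedBall (0 : E) R
  · rw [indicator_of_mem hx, norm_mul, norm_real, Real.norm_eq_abs]
    have h1 : |φ (x, y)| ≤ |C| := (hφb _).trans (le_abs_self _)
    have h2 := norm_exp_le ξ (inner ℝ ω x)
    have h3 : |inner ℝ ω x| ≤ ‖ω‖ * |R| := by
      refine (abs_real_inner_le_norm ω x).trans ?_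
      apply mul_le_mul_of_nonneg_left _ (norm_nonneg _)
      rw [Metric.mem_closedBall, dist_zero_right] at hx
      exact hx.trans (le_abs_self _)
    have h4 : Real.exp (|inner ℝ ω x| * |ξ.im|) ≤ Real.exp ((‖ω‖ * |R|) * |ξ.im|) := by
      apply Real.exp_le_exp.2
      exact mul_le_mul_of_nonneg_right h3 (abs_nonneg _)
    exact mul_le_mul h1 (h2.trans h4) (norm_nonneg _) (abs_nonneg _)
  · rw [Metric.mem_closedBall, dist_zero_right, not_le] at hx
    rw [hφs x y hx, ofReal_zero, zero_mul, norm_zero]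
    apply indicator_nonneg
    intro _ _; positivity

theorem ind_int (R c : ℝ) : Integrable ((Metric.closedBall (0 : E) R).indicator (fun _ => c)) := by
  apply IntegrableOn.integrable_indicator _ Metric.isClosed_closedBall.measurableSet
  rw [integrableOn_const_iff]
  right
  exact (isCompact_closedBall (0 : E) R).measure_lt_top

theorem sl_norm_le (hφb : ∀ z, |φ z| ≤ C) (hφs : ∀ x y, R < ‖x‖ → φ (x, y) = 0) (ω : E) (ξ : ℂ)
    (y : ℝ) : ‖sl φ ω ξ y‖ ≤ ((volume : Measure E).real (Metric.closedBall (0 : E) R) * |C|) *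
      Real.exp ((‖ω‖ * |R|) * |ξ.im|) := by
  have h1 := norm_integral_le_of_norm_le (ind_int (E := E) R _)
    (Eventually.of_forall fun x => sl_bound hφb hφs ω ξ x y)
  rw [integral_indicator Metric.isClosed_closedBall.measurableSet, setIntegral_const,
    smul_eq_mul] at h1
  rw [sl]
  linarith

theorem sl_integrable (hφm : Measurable φ) (hφb : ∀ z, |φ z| ≤ C)
    (hφs : ∀ x y, R < ‖x‖ → φ (x, y) = 0) (y : ℝ) : Integrable (fun x : E => φ (x, y)) := by
  have hm : AEStronglyMeasurable (fun x : E => φ (x, y)) volume :=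
    (hφm.comp (measurable_prodMk_right (y := y))).aestronglyMeasurable
  apply (ind_int (E := E) R |C|).mono' hm
  filter_upwards with x
  by_cases hx : x ∈ Metric.closedBall (0 : E) R
  · rw [indicator_of_mem hx]
    exact (hφb _).trans (le_abs_self _)
  · rw [Metric.mem_closedBall, dist_zero_right, not_le] at hx
    rw [hφs x y hx, norm_zero]
    apply indicator_nonneg
    intro _ _; positivity

theorem sl_diff (hφm : Measurable φ) (hφb : ∀ z, |φ z| ≤ C)
    (hφs : ∀ x y, R < ‖x‖ → φ (x, y) = 0) (ω : E) (y : ℝ) :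
    Differentiable ℂ (fun ξ => sl φ ω ξ y) := by
  intro ξ₀
  have hs : Measurable (fun x : E => (x, y)) := by fun_prop
  refine differentiableAt_integral (G := fun ξ x => (φ (x, y) : ℂ) *
    exp (-(I * ξ * ((inner ℝ ω x : ℝ) : ℂ)))) (ε := 1) one_pos ?_ ?_
    (B := (Metric.closedBall (0 : E) R).indicator
      (fun _ => |C| * Real.exp ((‖ω‖ * |R|) * (‖ξ₀‖ + 1)))) (ind_int (E := E) R _) ?_
  · intro ξ _
    exact ((sl_integrand_meas hφm ω ξ).comp hs).aestronglyMeasurable
  · filter_upwards with x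
    apply Differentiable.differentiableOn
    fun_prop
  · filter_upwards with x ξ hξ
    refine (sl_bound hφb hφs ω ξ x y).trans ?_
    apply indicator_le_indicator
    apply mul_le_mul_of_nonneg_left _ (abs_nonneg _)
    apply Real.exp_le_exp.2
    apply mul_le_mul_of_nonneg_left _ (by positivity)
    rw [Metric.mem_ball, dist_eq_norm] at hξ
    have h1 : ‖ξ‖ ≤ ‖ξ - ξ₀‖ + ‖ξ₀‖ := by
      have := norm_add_le (ξ - ξ₀) ξ₀
      rwa [sub_add_cancel] at this
    have := Complex.abs_im_le_norm ξ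
    linarith

theorem sl_zero {y : ℝ} (h : ∀ x, φ (x, y) = 0) (ω : E) (ξ : ℂ) : sl φ ω ξ y = 0 := by
  rw [sl]
  simp [h]

end Pool.Agent.XRay
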