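import Pool.Agent.Lib_helper92.XRay.Seg
import Pool.Agent.Lib_helper92.XRay.Fub
import Pool.Agent.Lib_helper92.XRay.Slice
import Pool.Agent.Lib_helper92.XRay.Final1D

/-!
# Application of the one dimensional uniqueness theorem
-/

set_option autoImplicit false

namespace Pool.Agent.XRay

open Complex Set Topology MeasureTheory Filter

variable {V : Type*} [NormedAddCommGroup V] [NormedSpace ℝ V] [MeasurableSpace V] [BorelSpace V]
variable {E : Type*} [NormedAddCommGroup E] [InnerProductSpace ℝ E] [FiniteDimensional ℝ E]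
  [MeasurableSpace E] [BorelSpace E]

namespace Frame

variable (F : Frame V E) (G : V → Form V)

/-- the phase shift produced by the cross terms -/
noncomputable def b0 (ω : E) (a y : ℝ) : ℝ := ∫ r in a..y, inner ℝ ω (F.Bv (G (r • F.e)))

variable {F G}

omit [MeasurableSpace V] [BorelSpace V] [MeasurableSpace E] [BorelSpace E] in
theorem b0_cont (hG : IsMetric G) (ω : E) (a : ℝ) : Continuous (F.b0 G ω a) := by
  have h1 : Continuous (fun r : ℝ => inner ℝ ω (F.Bv (G (r • F.e)))) :=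
    continuous_const.inner (Bv_cont hG)
  rw [continuous_iff_continuousAt]
  exact fun y => (h1.integral_hasStrictDerivAt a y).hasDerivAt.continuousAt

/-- the one dimensional data -/
noncomputable def toData (hG : IsMetric G) {ω : E} (hω : ω ≠ 0) {φ : E × ℝ → ℝ}
    (hφm : Measurable φ) {C R Y₀ : ℝ} (hφb : ∀ z, |φ z| ≤ C)
    (hφs : ∀ x y, R < ‖x‖ → φ (x, y) = 0) (hφy : ∀ x y, Y₀ < |y| → φ (x, y) = 0)
    {a b : ℝ} (hab : a < b) {B₀ : ℝ} (hB₀ : ∀ y ∈ Icc (-Y₀) Y₀, ‖F.b0 G ω a y‖ ≤ B₀) : Data where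
  a := a
  b := b
  hab := hab
  c := fun y => √(F.csq ω (G (y • F.e)))
  α := fun y => F.csq ω (G (y • F.e)) * √(F.gam (G (y • F.e)))
  β := fun y => √(F.gam (G (y • F.e)))
  hc := (csq_cont hG ω).sqrt
  hα := (csq_cont hG ω).mul (gam_cont hG).sqrt
  hβ := (gam_cont hG).sqrt
  c_pos := fun y => Real.sqrt_pos.2 (F.csq_pos (g_pos hG y) hω)
  α_pos := fun y => mul_pos (F.csq_pos (g_pos hG y) hω) (Real.sqrt_pos.2 (F.gam_pos (g_pos hG y)))
  β_pos := fun y => Real.sqrt_pos.2 (F.gam_pos (g_pos hG y))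
  h := fun ξ y => exp (-(I * ξ * ((F.b0 G ω a y : ℝ) : ℂ))) * sl φ ω ξ y
  H := (volume : Measure E).real (Metric.closedBall (0 : E) R) * |C|
  X := |B₀| + ‖ω‖ * |R|
  hm := by
    intro ξ
    apply Measurable.mul
    · have h1 := b0_cont (F := F) hG ω a
      have : Continuous (fun y => exp (-(I * ξ * ((F.b0 G ω a y : ℝ) : ℂ)))) := by fun_prop
      exact this.measurable
    · exact sl_measurable hφm ω ξ
  hd := by
    intro y
    apply Differentiable.mul
    · fun_prop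
    · exact sl_diff hφm hφb hφs ω y
  hb := by
    intro ξ y
    have hpos : 0 ≤ ((volume : Measure E).real (Metric.closedBall (0 : E) R) * |C|) := by
      positivity
    by_cases hy : y ∈ Icc (-Y₀) Y₀
    · rw [norm_mul, add_mul, Real.exp_add]
      have h1 := norm_exp_le ξ (F.b0 G ω a y)
      have h2 := sl_norm_le hφb hφs ω ξ y
      have h3 : Real.exp (|F.b0 G ω a y| * |ξ.im|) ≤ Real.exp (|B₀| * |ξ.im|) := by
        apply Real.exp_le_exp.2
        apply mul_le_mul_of_nonneg_right _ (abs_nonneg _)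
        have := hB₀ y hy
        rw [Real.norm_eq_abs] at this
        exact this.trans (le_abs_self _)
      have h4 := mul_le_mul (h1.trans h3) h2 (norm_nonneg _) (Real.exp_pos _).le
      linarith
    · have h5 : Y₀ < |y| := by
        by_contra h
        push Not at h
        exact hy (abs_le.1 h)
      rw [sl_zero (fun x => hφy x y h5), mul_zero, norm_zero]
      positivity

variable {M : Set V} {f : V → ℝ} {δ : ℝ}

omit [MeasurableSpace V] [BorelSpace V] [FiniteDimensional ℝ E] [MeasurableSpace E]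
  [BorelSpace E] in
theorem rt_real {p c : ℝ} (h : p ^ 2 * c < 1) (hc : 0 < c) :
    rt (p : ℂ) (√c) = ((√(1 - p ^ 2 * c) : ℝ) : ℂ) := by
  have h1 : (rt (p : ℂ) (√c)) ^ 2 = (((√(1 - p ^ 2 * c) : ℝ) : ℂ)) ^ 2 := by
    rw [rt_sq, ← ofReal_pow, ← ofReal_pow, ← ofReal_pow, Real.sq_sqrt hc.le,
      Real.sq_sqrt (by linarith)]
    push_cast
    ring
  rcases sq_eq_sq_iff_eq_or_eq_neg.1 h1 with h2 | h2
  · exact h2
  · exfalso
    have h3 := rt_re_nonneg (p : ℂ) (√c)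
    rw [h2, neg_re, ofReal_re] at h3
    have h4 : 0 < √(1 - p ^ 2 * c) := Real.sqrt_pos.2 (by linarith)
    linarith

omit [MeasurableSpace V] [BorelSpace V] [MeasurableSpace E] [BorelSpace E] in
theorem inner_X (hG : IsMetric G) {ω : E} {p a' b' a : ℝ} (S : F.Steep G ω p a' b')
    (hW : Continuous S.W)
    (hX : ∀ y, S.X y = ∫ r in a..y, ((p * S.W r) • F.ev ω (G (r • F.e)) - F.Bv (G (r • F.e))))
    (y : ℝ) : inner ℝ ω (S.X y) + F.b0 G ω a y =
      ∫ r in a..y, p * S.W r * F.csq ω (G (r • F.e)) := by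
  have c1 : Continuous (fun r : ℝ => (p * S.W r) • F.ev ω (G (r • F.e))) :=
    (continuous_const.mul hW).smul (ev_cont hG ω)
  have c2 : Continuous (fun r : ℝ => F.Bv (G (r • F.e))) := Bv_cont hG
  have h1 : inner ℝ ω (S.X y) = ∫ r in a..y,
      inner ℝ ω ((p * S.W r) • F.ev ω (G (r • F.e)) - F.Bv (G (r • F.e))) := by
    rw [hX]
    exact ((innerSL ℝ ω).intervalIntegral_comp_comm ((c1.sub c2).intervalIntegrable _ _)).symm
  have c3 : Continuous (fun r : ℝ => inner ℝ ω (F.Bv (G (r • F.e)))) :=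
    continuous_const.inner c2
  have c4 : Continuous (fun r : ℝ => inner ℝ ω ((p * S.W r) • F.ev ω (G (r • F.e)) -
      F.Bv (G (r • F.e)))) := continuous_const.inner (c1.sub c2)
  rw [h1, b0, ← intervalIntegral.integral_add (c4.intervalIntegrable _ _)
    (c3.intervalIntegrable _ _)]
  apply intervalIntegral.integral_congr
  intro r _
  simp only []
  rw [inner_sub_right, inner_smul_right, csq]
  ring

theorem toData_u_zero (hG : IsMetric G) (hinv : ∀ (x : E) (z : V), G (z + F.ι x) = G z)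
    (hM : IsCompact M) (hf : ContinuousOn f M) (h0 : ZeroData F G M f δ)
    (hN : (volume : Measure (E × ℝ))
      ((fun z : E × ℝ => F.ι z.1 + z.2 • F.e) ⁻¹' frontier M) = 0)
    {ω : E} (hω : ω ≠ 0) {φ : E × ℝ → ℝ}
    (hφ : ∀ z, φ z = M.indicator f (F.ι z.1 + z.2 • F.e))
    (hφm : Measurable φ) {C R Y₀ : ℝ} (hφb : ∀ z, |φ z| ≤ C)
    (hφs : ∀ x y, R < ‖x‖ → φ (x, y) = 0) (hφy : ∀ x y, Y₀ < |y| → φ (x, y) = 0)
    {a b : ℝ} (hab : a < b) {B₀ : ℝ} (hB₀ : ∀ y ∈ Icc (-Y₀) Y₀, ‖F.b0 G ω a y‖ ≤ B₀)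
    {a' b' p : ℝ} (haa : a' ≤ a) (hbb : b ≤ b')
    (hMa : ∀ v ∈ M, F.ℓ v ≠ a) (hMb : ∀ v ∈ M, F.ℓ v ≠ b) (hp : |p| * ‖ω‖ ≤ δ)
    (hpc : ∀ y ∈ Icc a' b', p ^ 2 * F.csq ω (G (y • F.e)) < 1) (ξ : ℂ) :
    (toData hG hω hφm hφb hφs hφy hab hB₀).u p ξ a = 0 := by
  obtain ⟨S, T, hW, hX, hT, hTd, hYT, hTY⟩ := exists_steep (F := F) hG ω
    (haa.trans (hab.le.trans hbb)) hpc a
  have hXc : Continuous S.X := by
    rw [continuous_iff_continuousAt]; exact fun y => (S.hX y).continuousAt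
  have hNm : MeasurableSet ((fun z : E × ℝ => F.ι z.1 + z.2 • F.e) ⁻¹' frontier M) := by
    apply IsClosed.measurableSet
    apply isClosed_frontier.preimage
    fun_prop
  have h1 : ∀ᵐ x₀ : E, ∫ y in a..b, φ (x₀ + S.X y, y) * S.W y = 0 := by
    filter_upwards [ae_graph hNm hN hXc a b] with x₀ hx₀
    simp only [hφ]
    exact steep_integral hG hinv hM hf h0 haa hab.le hbb hMa hMb hp S hW hT hTd hYT hTY x₀ hx₀
  have h2 := fubini_zero hφm hφb hφs hab.le hXc hW ω ξ h1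
  rw [Data.u, U, ← h2]
  change ∫ s in a..b, _ = _
  apply intervalIntegral.integral_congr
  intro s hs
  rw [uIcc_of_le hab.le] at hs
  -- the weight
  have hrt : ∀ r ∈ Icc a b, rt (p : ℂ) (√(F.csq ω (G (r • F.e)))) =
      ((√(1 - p ^ 2 * F.csq ω (G (r • F.e))) : ℝ) : ℂ) := by
    intro r hr
    exact rt_real (hpc r ⟨haa.trans hr.1, hr.2.trans hbb⟩) (F.csq_pos (g_pos hG r) hω)
  have hWe : ∀ r ∈ Icc a b, S.W r = √(F.gam (G (r • F.e))) /
      √(1 - p ^ 2 * F.csq ω (G (r • F.e))) := by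
    intro r hr
    exact S.W_eq r ⟨haa.trans hr.1, hr.2.trans hbb⟩
  have hom : (toData hG hω hφm hφb hφs hφy hab hB₀).om p s = (S.W s : ℂ) := by
    change ((√(F.gam (G (s • F.e))) : ℝ) : ℂ) / rt (p : ℂ) (√(F.csq ω (G (s • F.e)))) = _
    rw [hrt s hs, hWe s hs]
    push_cast
    rfl
  have hph : ∫ r in a..s, I * ξ * (toData hG hω hφm hφb hφs hφy hab hB₀).ph p r =
      I * ξ * ((inner ℝ ω (S.X s) + F.b0 G ω a s : ℝ) : ℂ) := by
    rw [inner_X hG S hW hX s, ← intervalIntegral.integral_ofReal,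
      ← intervalIntegral.integral_const_mul]
    apply intervalIntegral.integral_congr
    intro r hr
    rw [uIcc_of_le hs.1] at hr
    have hr' : r ∈ Icc a b := ⟨hr.1, hr.2.trans hs.2⟩
    change I * ξ * ((p : ℂ) * ((F.csq ω (G (r • F.e)) * √(F.gam (G (r • F.e))) : ℝ) : ℂ) /
      rt (p : ℂ) (√(F.csq ω (G (r • F.e))))) = _
    simp only []
    rw [hrt r hr', hWe r hr']
    push_cast
    ring
  have hhh : (toData hG hω hφm hφb hφs hφy hab hB₀).h ξ s =
      exp (-(I * ξ * ((F.b0 G ω a s : ℝ) : ℂ))) * sl φ ω ξ s := rfl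
  simp only []
  rw [hom, hph, hhh]
  have h3 : exp (I * ξ * ((inner ℝ ω (S.X s) + F.b0 G ω a s : ℝ) : ℂ)) =
      exp (I * ξ * ((inner ℝ ω (S.X s) : ℝ) : ℂ)) * exp (I * ξ * ((F.b0 G ω a s : ℝ) : ℂ)) := by
    rw [← exp_add]
    congr 1
    push_cast
    ring
  have h4 : exp (-(I * ξ * ((F.b0 G ω a s : ℝ) : ℂ))) * exp (I * ξ * ((F.b0 G ω a s : ℝ) : ℂ)) =
      1 := by
    rw [← exp_add, neg_add_cancel, exp_zero]
  rw [h3, sl]
  linear_combination (S.W s * exp (I * ξ * ((inner ℝ ω (S.X s) : ℝ) : ℂ)) *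
    ∫ x : E, (φ (x, s) : ℂ) * exp (-(I * ξ * ((inner ℝ ω x : ℝ) : ℂ)))) * h4

end Frame

end Pool.Agent.XRay
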