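import Mathlib

/-!
# The square root `√(1 - p² c²)` and its boundary values
-/

set_option autoImplicit false

namespace Pool.Agent.XRay

open Complex Filter Topology

/-- `√(1 - p² c²)`, principal branch -/
noncomputable def rt (p : ℂ) (c : ℝ) : ℂ := Complex.sqrt (1 - p ^ 2 * (c : ℂ) ^ 2)

theorem sqrt_sq' (z : ℂ) : Complex.sqrt z ^ 2 = z := by
  rw [Complex.sqrt]
  exact_mod_cast Complex.cpow_nat_inv_pow z (n := 2) (by norm_num)

theorem sqrt_re_nonneg (z : ℂ) : 0 ≤ (Complex.sqrt z).re := by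
  rw [Complex.sqrt, Complex.cpow_inv_two_re]
  exact Real.sqrt_nonneg _

theorem rt_sq (p : ℂ) (c : ℝ) : rt p c ^ 2 = 1 - p ^ 2 * (c : ℂ) ^ 2 := sqrt_sq' _

theorem rt_re_nonneg (p : ℂ) (c : ℝ) : 0 ≤ (rt p c).re := sqrt_re_nonneg _

theorem norm_rt_sq (p : ℂ) (c : ℝ) : ‖rt p c‖ ^ 2 = ‖1 - p ^ 2 * (c : ℂ) ^ 2‖ := by
  rw [← rt_sq, norm_pow]

theorem norm_rt (p : ℂ) (c : ℝ) : ‖rt p c‖ = √‖1 - p ^ 2 * (c : ℂ) ^ 2‖ := by
  rw [← norm_rt_sq, Real.sqrt_sq (norm_nonneg _)]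

theorem rt_neg (p : ℂ) (c : ℝ) : rt (-p) c = rt p c := by
  rw [rt, rt, neg_sq]

theorem factor (p : ℂ) (c : ℝ) : 1 - p ^ 2 * (c : ℂ) ^ 2 = (1 - p * c) * (1 + p * c) := by ring

theorem le_norm_one_sub (p : ℂ) (c : ℝ) : |1 - p.re * c| ≤ ‖1 - p * c‖ := by
  have : 1 - p.re * c = (1 - p * c).re := by simp
  rw [this]; exact Complex.abs_re_le_norm _

theorem le_norm_one_add (p : ℂ) (c : ℝ) : |1 + p.re * c| ≤ ‖1 + p * c‖ := by
  have : 1 + p.re * c = (1 + p * c).re := by simp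
  rw [this]; exact Complex.abs_re_le_norm _

/-- the real part is the worst case -/
theorem le_norm (p : ℂ) (c : ℝ) : |1 - p.re ^ 2 * c ^ 2| ≤ ‖1 - p ^ 2 * (c : ℂ) ^ 2‖ := by
  rw [factor, norm_mul]
  calc |1 - p.re ^ 2 * c ^ 2| = |1 - p.re * c| * |1 + p.re * c| := by
        rw [← abs_mul]; congr 1; ring
    _ ≤ _ := mul_le_mul (le_norm_one_sub p c) (le_norm_one_add p c) (abs_nonneg _) (norm_nonneg _)

theorem le_norm_im (p : ℂ) (c : ℝ) : (p.im * c) ^ 2 ≤ ‖1 - p ^ 2 * (c : ℂ) ^ 2‖ := by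
  rw [factor, norm_mul]
  have h1 : |p.im * c| ≤ ‖1 - p * c‖ := by
    have : p.im * c = -(1 - p * c).im := by simp
    rw [this, abs_neg]; exact Complex.abs_im_le_norm _
  have h2 : |p.im * c| ≤ ‖1 + p * c‖ := by
    have : p.im * c = (1 + p * c).im := by simp
    rw [this]; exact Complex.abs_im_le_norm _
  calc (p.im * c) ^ 2 = |p.im * c| * |p.im * c| := by rw [← sq, sq_abs]
    _ ≤ _ := mul_le_mul h1 h2 (abs_nonneg _) (norm_nonneg _)

theorem le_norm_re {p : ℂ} {c : ℝ} (hc : 0 ≤ c) (h : |p.re| * c ≤ 1) :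
    (1 - |p.re| * c) ^ 2 ≤ ‖1 - p ^ 2 * (c : ℂ) ^ 2‖ := by
  rw [factor, norm_mul, sq]
  have h1 := abs_le.1 (le_refl |p.re|)
  have h3 : p.re * c ≤ |p.re| * c := mul_le_mul_of_nonneg_right (le_abs_self _) hc
  have h4 : -(|p.re| * c) ≤ p.re * c := by
    have := mul_le_mul_of_nonneg_right (neg_abs_le p.re) hc
    linarith
  have h5 : 1 - |p.re| * c ≤ ‖1 - p * c‖ :=
    (by linarith : 1 - |p.re| * c ≤ 1 - p.re * c).trans
      ((le_abs_self _).trans (le_norm_one_sub p c))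
  have h6 : 1 - |p.re| * c ≤ ‖1 + p * c‖ :=
    (by linarith : 1 - |p.re| * c ≤ 1 + p.re * c).trans
      ((le_abs_self _).trans (le_norm_one_add p c))
  exact mul_le_mul h5 h6 (by linarith) (norm_nonneg _)

theorem im_one_sub (p : ℂ) (c : ℝ) :
    (1 - p ^ 2 * (c : ℂ) ^ 2).im = -(2 * p.re * p.im) * c ^ 2 := by
  have h : (p ^ 2).im = 2 * p.re * p.im := by rw [sq, mul_im]; ring
  rw [← ofReal_pow, sub_im, one_im, im_mul_ofReal, h]
  ring

theorem re_one_sub (p : ℂ) (c : ℝ) :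
    (1 - p ^ 2 * (c : ℂ) ^ 2).re = 1 - (p.re ^ 2 - p.im ^ 2) * c ^ 2 := by
  have h : (p ^ 2).re = p.re ^ 2 - p.im ^ 2 := by rw [sq, mul_re]; ring
  rw [← ofReal_pow, sub_re, one_re, re_mul_ofReal, h]

theorem mem_slitPlane {p : ℂ} {c : ℝ} (hc : 0 < c) (h : p.im ≠ 0 ∨ |p.re| * c < 1) :
    1 - p ^ 2 * (c : ℂ) ^ 2 ∈ slitPlane := by
  rw [mem_slitPlane_iff, re_one_sub, im_one_sub]
  by_cases h1 : p.im = 0
  · left
    have h2 : |p.re| * c < 1 := by
      rcases h with h | h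
      · exact absurd h1 h
      · exact h
    have h3 : (|p.re| * c) ^ 2 < 1 := by
      have : 0 ≤ |p.re| * c := by positivity
      nlinarith
    rw [mul_pow, sq_abs] at h3
    rw [h1]; nlinarith
  · by_cases h2 : p.re = 0
    · left
      rw [h2]
      have : 0 < p.im ^ 2 * c ^ 2 := by positivity
      nlinarith
    · right
      have := pow_pos hc 2
      simp only [neg_mul, ne_eq, neg_eq_zero, mul_eq_zero, OfNat.ofNat_ne_zero, false_or, not_or]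
      exact ⟨⟨h2, h1⟩, this.ne'⟩

theorem rt_ne_zero {p : ℂ} {c : ℝ} (hc : 0 < c) (h : p.im ≠ 0 ∨ |p.re| * c < 1) : rt p c ≠ 0 := by
  intro h0
  have h1 := rt_sq p c
  rw [h0, zero_pow (by norm_num)] at h1
  exact slitPlane_ne_zero (mem_slitPlane hc h) h1.symm

theorem rt_re_pos {p : ℂ} {c : ℝ} (hc : 0 < c) (h : p.im ≠ 0 ∨ |p.re| * c < 1) :
    0 < (rt p c).re := by
  rcases (rt_re_nonneg p c).lt_or_eq with h1 | h1
  · exact h1
  · exfalso
    -- then the square is real and nonpositive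
    have h2 := rt_sq p c
    have h3 : rt p c ^ 2 = ((-(rt p c).im ^ 2 : ℝ) : ℂ) := by
      apply Complex.ext
      · simp [sq, ← h1]
      · simp [sq, ← h1]
    have h4 := mem_slitPlane hc h
    rw [← h2, h3, mem_slitPlane_iff] at h4
    simp only [ofReal_re, ofReal_im, ne_eq, not_true_eq_false, or_false] at h4
    nlinarith [sq_nonneg (rt p c).im]

theorem differentiableAt_rt {p : ℂ} {c : ℝ} (hc : 0 < c) (h : p.im ≠ 0 ∨ |p.re| * c < 1) :
    DifferentiableAt ℂ (fun p => rt p c) p := by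
  have h1 : DifferentiableAt ℂ (fun p : ℂ => 1 - p ^ 2 * (c : ℂ) ^ 2) p := by fun_prop
  exact DifferentiableAt.comp p (Complex.differentiableAt_sqrt (mem_slitPlane hc h)) h1

/-- `Im (p / √(1 - p² c²)) ≥ 0` in the upper half plane -/
theorem im_div_rt_nonneg {p : ℂ} {c : ℝ} (hc : 0 < c) (h : 0 < p.im) : 0 ≤ (p / rt p c).im := by
  have hu := rt_re_pos hc (Or.inl h.ne')
  have h1 : 2 * ((rt p c).re * (rt p c).im) = -(2 * p.re * p.im) * c ^ 2 := by
    have h2 := congrArg Complex.im (rt_sq p c)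
    rw [im_one_sub] at h2
    rw [← h2]
    simp [sq]; ring
  rw [div_im]
  rw [← sub_div]
  apply div_nonneg _ (normSq_nonneg _)
  set u := (rt p c).re
  set v := (rt p c).im
  have h3 : u * (p.im * u - p.re * v) = p.im * (u ^ 2 + c ^ 2 * p.re ^ 2) := by
    linear_combination (-(p.re / 2)) * h1
  have h4 : 0 ≤ u * (p.im * u - p.re * v) := by
    rw [h3]; positivity
  exact nonneg_of_mul_nonneg_right (by linarith) hu

/-- the boundary value of `√(1 - p² c²)` at `p = σ t + i τ 0` -/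
noncomputable def rtB (σ τ t c : ℝ) : ℂ :=
  if t * c < 1 then (√|1 - t ^ 2 * c ^ 2| : ℝ) else -I * ((σ * τ * √|1 - t ^ 2 * c ^ 2| : ℝ) : ℂ)

theorem sq_rtB {σ τ t c : ℝ} (hσ : σ ^ 2 = 1) (hτ : τ ^ 2 = 1) (ht : 0 < t) (hc : 0 < c) :
    rtB σ τ t c ^ 2 = 1 - (t : ℂ) ^ 2 * (c : ℂ) ^ 2 := by
  rw [rtB]
  split_ifs with h
  · have h1 : 0 ≤ 1 - t ^ 2 * c ^ 2 := by
      have : 0 < t * c := by positivity
      nlinarith
    rw [← ofReal_pow, Real.sq_sqrt (abs_nonneg _), abs_of_nonneg h1]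
    push_cast; ring
  · have h1 : 1 - t ^ 2 * c ^ 2 ≤ 0 := by
      push Not at h
      nlinarith
    rw [mul_pow, ← ofReal_pow, mul_pow, mul_pow, hσ, hτ, Real.sq_sqrt (abs_nonneg _),
      abs_of_nonpos h1, neg_sq, I_sq]
    push_cast; ring

theorem norm_rtB {σ τ t c : ℝ} (hσ : |σ| = 1) (hτ : |τ| = 1) :
    ‖rtB σ τ t c‖ = √|1 - t ^ 2 * c ^ 2| := by
  rw [rtB]
  split_ifs with h
  · rw [norm_real, Real.norm_of_nonneg (Real.sqrt_nonneg _)]
  · rw [norm_mul, norm_neg, norm_I, one_mul, norm_real, Real.norm_eq_abs, abs_mul, abs_mul, hσ, hτ,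
      one_mul, one_mul, abs_of_nonneg (Real.sqrt_nonneg _)]

theorem rtB_re_nonneg (σ τ t c : ℝ) : 0 ≤ (rtB σ τ t c).re := by
  rw [rtB]
  split_ifs with h
  · rw [ofReal_re]; exact Real.sqrt_nonneg _
  · simp

/-- boundary values of the square root -/
theorem tendsto_rt {σ τ t c : ℝ} (hσ : σ = 1 ∨ σ = -1) (hτ : τ = 1 ∨ τ = -1) (ht : 0 < t)
    (hc : 0 < c) (htc : t * c ≠ 1) :
    Tendsto (fun ε : ℝ => rt (((σ * t : ℝ) : ℂ) + ((τ * ε : ℝ) : ℂ) * I) c) (𝓝[>] 0)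
      (𝓝 (rtB σ τ t c)) := by
  have hσ2 : σ ^ 2 = 1 := by rcases hσ with rfl | rfl <;> norm_num
  have hτ2 : τ ^ 2 = 1 := by rcases hτ with rfl | rfl <;> norm_num
  have hσ1 : |σ| = 1 := by rcases hσ with rfl | rfl <;> norm_num
  have hτ1 : |τ| = 1 := by rcases hτ with rfl | rfl <;> norm_num
  have hne : 1 - t ^ 2 * c ^ 2 ≠ 0 := by
    intro h
    apply htc
    have h1 : (t * c - 1) * (t * c + 1) = 0 := by nlinarith
    rcases mul_eq_zero.1 h1 with h2 | h2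
    · linarith
    · have : 0 < t * c := by positivity
      linarith
  have he : 0 < √|1 - t ^ 2 * c ^ 2| := Real.sqrt_pos.2 (abs_pos.2 hne)
  have hB : 0 < ‖rtB σ τ t c‖ := by rw [norm_rtB hσ1 hτ1]; exact he
  set P : ℝ → ℂ := fun ε => ((σ * t : ℝ) : ℂ) + ((τ * ε : ℝ) : ℂ) * I with hP
  have hPre : ∀ ε, (P ε).re = σ * t := by intro ε; simp [hP]
  have hPim : ∀ ε, (P ε).im = τ * ε := by intro ε; simp [hP]
  -- the squares converge
  have hsq : Tendsto (fun ε : ℝ => rt (P ε) c ^ 2) (𝓝[>] 0) (𝓝 (rtB σ τ t c ^ 2)) := by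
    simp only [rt_sq]
    rw [sq_rtB hσ2 hτ2 ht hc]
    apply tendsto_nhdsWithin_of_tendsto_nhds
    have h1 : Continuous (fun ε : ℝ => 1 - P ε ^ 2 * (c : ℂ) ^ 2) := by
      rw [hP]; fun_prop
    have h2 := h1.tendsto 0
    have h3 : 1 - P 0 ^ 2 * (c : ℂ) ^ 2 = 1 - (t : ℂ) ^ 2 * (c : ℂ) ^ 2 := by
      rw [hP]
      have : ((σ : ℂ)) ^ 2 = 1 := by exact_mod_cast hσ2
      simp only [mul_zero, ofReal_zero, zero_mul, add_zero, ofReal_mul, mul_pow, this, one_mul]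
    rwa [h3] at h2
  -- sign condition
  have hsign : ∀ ε : ℝ, 0 < ε → 0 ≤ (rt (P ε) c).im * (rtB σ τ t c).im := by
    intro ε hε
    by_cases h : t * c < 1
    · rw [rtB, if_pos h]; simp
    · have h1 : (rtB σ τ t c).im = -(σ * τ * √|1 - t ^ 2 * c ^ 2|) := by
        rw [rtB, if_neg h]; simp
      have h2 : 2 * ((rt (P ε) c).re * (rt (P ε) c).im) = -(2 * (σ * t) * (τ * ε)) * c ^ 2 := by
        have h2 := congrArg Complex.im (rt_sq (P ε) c)
        rw [im_one_sub, hPre, hPim] at h2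
        rw [← h2]
        simp [sq]; ring
      have h3 : 0 < (rt (P ε) c).re := by
        apply rt_re_pos hc
        left
        rw [hPim]
        rcases hτ with rfl | rfl
        · linarith
        · intro h; linarith
      have h4 : 0 ≤ (rt (P ε) c).re * ((rt (P ε) c).im * (rtB σ τ t c).im) := by
        rw [h1]
        have h5 : (rt (P ε) c).re * ((rt (P ε) c).im * -(σ * τ * √|1 - t ^ 2 * c ^ 2|)) =
            (σ ^ 2 * τ ^ 2) * (t * ε * c ^ 2 * √|1 - t ^ 2 * c ^ 2|) := by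
          linear_combination (-(σ * τ * √|1 - t ^ 2 * c ^ 2|) / 2) * h2
        rw [h5, hσ2, hτ2]
        positivity
      exact nonneg_of_mul_nonneg_right (by linarith) h3
  -- conclusion
  rw [tendsto_iff_norm_sub_tendsto_zero] at hsq ⊢
  have hsq' : Tendsto (fun ε => ‖rt (P ε) c ^ 2 - rtB σ τ t c ^ 2‖ / ‖rtB σ τ t c‖) (𝓝[>] 0)
      (𝓝 0) := by
    have := hsq.div_const ‖rtB σ τ t c‖
    rwa [zero_div] at this
  apply squeeze_zero' (Eventually.of_forall fun _ => norm_nonneg _) _ hsq'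
  filter_upwards [self_mem_nhdsWithin] with ε hε
  rw [le_div_iff₀ hB]
  have h1 : ‖rtB σ τ t c‖ ≤ ‖rt (P ε) c + rtB σ τ t c‖ := by
    rw [Complex.norm_def, Complex.norm_def]
    apply Real.sqrt_le_sqrt
    rw [normSq_add]
    have h2 : 0 ≤ (rt (P ε) c * (starRingEnd ℂ) (rtB σ τ t c)).re := by
      rw [mul_re, conj_re, conj_im]
      have h3 := hsign ε hε
      have h4 := mul_nonneg (rt_re_nonneg (P ε) c) (rtB_re_nonneg σ τ t c)
      linarith
    have h3 := normSq_nonneg (rt (P ε) c)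
    linarith
  calc ‖rt (P ε) c - rtB σ τ t c‖ * ‖rtB σ τ t c‖ ≤
      ‖rt (P ε) c - rtB σ τ t c‖ * ‖rt (P ε) c + rtB σ τ t c‖ := by gcongr
    _ = ‖rt (P ε) c ^ 2 - rtB σ τ t c ^ 2‖ := by
      rw [← norm_mul]; congr 1; ring

theorem rt_I {c : ℝ} : rt I c = ((√(1 + c ^ 2) : ℝ) : ℂ) := by
  have h1 : (1 : ℂ) - I ^ 2 * (c : ℂ) ^ 2 = ((1 + c ^ 2 : ℝ) : ℂ) := by
    rw [I_sq]; push_cast; ring
  rw [rt, h1, Complex.sqrt_of_nonneg]
  · rw [ofReal_re]
  · have : (0 : ℝ) ≤ 1 + c ^ 2 := by positivity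
    exact_mod_cast this

end Pool.Agent.XRay
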