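import Mathlib

/-!
# A Carlson type uniqueness lemma
-/

set_option autoImplicit false

namespace Pool.Agent.XRay

open Complex Filter Topology Asymptotics Bornology

/-- norm of `log (1 + u)` in the right half plane -/
theorem norm_log_one_add_le {u : ℂ} (hu : 0 ≤ u.re) : ‖Complex.log (1 + u)‖ ≤ ‖u‖ := by
  have hslit : ∀ s ∈ Set.Icc (0 : ℝ) 1, (1 + (s : ℂ) * u) ∈ Complex.slitPlane := by
    intro s hs
    left
    simp only [add_re, one_re, mul_re, ofReal_re, ofReal_im, zero_mul, sub_zero]
    have := mul_nonneg hs.1 hu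
    linarith
  have hderiv : ∀ s ∈ Set.Icc (0 : ℝ) 1,
      HasDerivWithinAt (fun s : ℝ => Complex.log (1 + (s : ℂ) * u)) (u / (1 + (s : ℂ) * u))
        (Set.Icc 0 1) s := by
    intro s hs
    have h1 : HasDerivAt (fun s : ℝ => (1 + (s : ℂ) * u)) u s := by
      have h0 : HasDerivAt (fun s : ℝ => (s : ℂ)) 1 s := Complex.ofRealCLM.hasDerivAt
      simpa using (h0.mul_const u).const_add 1
    exact (h1.clog_real (hslit s hs)).hasDerivWithinAt
  have hbound : ∀ s ∈ Set.Ico (0 : ℝ) 1, ‖u / (1 + (s : ℂ) * u)‖ ≤ ‖u‖ := by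
    intro s hs
    rw [norm_div]
    apply div_le_self (norm_nonneg _)
    have : (1 : ℝ) ≤ (1 + (s : ℂ) * u).re := by
      simp only [add_re, one_re, mul_re, ofReal_re, ofReal_im, zero_mul, sub_zero]
      have := mul_nonneg hs.1 hu
      linarith
    exact this.trans (Complex.re_le_norm _)
  have := norm_image_sub_le_of_norm_deriv_le_segment' hderiv hbound 1 (by simp)
  simpa using this

/-- the auxiliary function -/
noncomputable def aux (b T : ℝ) (z : ℂ) : ℂ := exp (b * ((z + 1) * log (1 + T / (z + 1))))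

theorem re_div_nonneg {T : ℝ} (hT : 0 ≤ T) {z : ℂ} (hz : 0 ≤ z.re) :
    0 ≤ ((T : ℂ) / (z + 1)).re := by
  rw [div_re]
  simp only [ofReal_re, add_re, one_re, ofReal_im, zero_mul, zero_div, add_zero]
  have : 0 ≤ normSq (z + 1) := normSq_nonneg _
  positivity

theorem norm_aux_le {b T : ℝ} (hb : 0 ≤ b) (hT : 0 ≤ T) {z : ℂ} (hz : 0 ≤ z.re) :
    ‖aux b T z‖ ≤ Real.exp (b * T) := by
  rw [aux, Complex.norm_exp]
  apply Real.exp_le_exp.2
  have h1 : z + 1 ≠ 0 := by
    intro h
    have := congrArg Complex.re h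
    simp at this
    linarith
  have h2 : ‖(z + 1) * log (1 + T / (z + 1))‖ ≤ T := by
    rw [norm_mul]
    have := norm_log_one_add_le (re_div_nonneg hT hz)
    calc ‖z + 1‖ * ‖log (1 + T / (z + 1))‖ ≤ ‖z + 1‖ * ‖(T : ℂ) / (z + 1)‖ := by gcongr
      _ = T := by
        rw [← norm_mul, mul_div_cancel₀ _ h1, norm_real, Real.norm_of_nonneg hT]
  rw [re_ofReal_mul]
  exact mul_le_mul_of_nonneg_left ((Complex.re_le_norm _).trans h2) hb

theorem norm_aux_im_le {b T : ℝ} (hb : 0 ≤ b) (hT : 0 ≤ T) (y : ℝ) :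
    ‖aux b T (y * I)‖ ≤ Real.exp (b * (Real.log (1 + T) + |y| * (Real.pi / 2))) := by
  rw [aux, Complex.norm_exp]
  apply Real.exp_le_exp.2
  rw [re_ofReal_mul]
  apply mul_le_mul_of_nonneg_left _ hb
  set u : ℂ := 1 + T / (y * I + 1) with hu
  have hz : (0 : ℝ) ≤ ((y : ℂ) * I).re := by simp
  have hre : 0 ≤ ((T : ℂ) / (y * I + 1)).re := re_div_nonneg hT hz
  have hure : 0 ≤ u.re := by
    rw [hu, add_re, one_re]; linarith
  have h1 : ((y * I + 1) * log u).re = Real.log ‖u‖ - y * arg u := by
    simp only [mul_re, add_re, ofReal_re, I_re, mul_zero, ofReal_im, I_im, mul_one, sub_self,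
      one_re, zero_add, one_mul, add_im, mul_im, one_im, add_zero, log_re, log_im]
  rw [h1]
  have h2 : Real.log ‖u‖ ≤ Real.log (1 + T) := by
    apply Real.log_le_log
    · rw [norm_pos_iff]
      intro h
      rw [h] at hu
      have := congrArg Complex.re hu
      simp only [zero_re, add_re, one_re] at this
      linarith
    · calc ‖u‖ ≤ ‖(1 : ℂ)‖ + ‖(T : ℂ) / (y * I + 1)‖ := norm_add_le _ _
        _ ≤ 1 + T := by
          rw [norm_one, norm_div, norm_real, Real.norm_of_nonneg hT]
          gcongr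
          apply div_le_self hT
          have : (1 : ℝ) ≤ ((y : ℂ) * I + 1).re := by simp
          exact this.trans (Complex.re_le_norm _)
  have h3 : |arg u| ≤ Real.pi / 2 := Complex.abs_arg_le_pi_div_two_iff.2 hure
  have h4 : -(y * arg u) ≤ |y| * (Real.pi / 2) := by
    calc -(y * arg u) ≤ |y * arg u| := neg_le_abs _
      _ = |y| * |arg u| := abs_mul _ _
      _ ≤ _ := by gcongr
  linarith

theorem norm_aux_real {b T x : ℝ} (hT : 0 ≤ T) (hx : 0 ≤ x) :
    ‖aux b T x‖ = (1 + T / (x + 1)) ^ (b * (x + 1)) := by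
  have h0 : 0 < 1 + T / (x + 1) := by positivity
  have h1 : aux b T x = ((Real.exp (b * ((x + 1) * Real.log (1 + T / (x + 1)))) : ℝ) : ℂ) := by
    rw [aux, ofReal_exp]
    congr 1
    push_cast
    rw [Complex.ofReal_log h0.le]
    push_cast
    ring
  rw [h1, norm_real, Real.norm_of_nonneg (Real.exp_pos _).le, Real.rpow_def_of_pos h0]
  congr 1; ring

theorem differentiableAt_aux {b T : ℝ} (hT : 0 ≤ T) {z : ℂ} (hz : 0 ≤ z.re) :
    DifferentiableAt ℂ (aux b T) z := by
  have h1 : z + 1 ≠ 0 := by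
    intro h
    have := congrArg Complex.re h
    simp at this
    linarith
  have h2 : 1 + (T : ℂ) / (z + 1) ∈ slitPlane := by
    left
    rw [add_re, one_re]
    have := re_div_nonneg hT hz
    linarith
  unfold aux
  fun_prop (disch := assumption)

/-- **Carlson type lemma**: an entire function bounded by `C e^{τ |Im ξ|}` which remains so after
multiplication by `e^{Kξ}`, `K > 0`, vanishes. -/
theorem carlson {F : ℂ → ℂ} (hF : Differentiable ℂ F) {C τ K : ℝ} (hK : 0 < K)
    (h1 : ∀ ξ, ‖F ξ‖ ≤ C * Real.exp (τ * |ξ.im|))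
    (h2 : ∀ ξ, ‖exp (K * ξ) * F ξ‖ ≤ C * Real.exp (τ * |ξ.im|)) : F = 0 := by
  have hC : 0 ≤ C := by
    have := (norm_nonneg _).trans (h1 0)
    simpa using this
  -- the rotated function
  set f : ℂ → ℂ := fun z => F (I * z) * exp (((K / 2 : ℝ) : ℂ) * (I * z) - (τ : ℂ) * z) with hf
  have hfd : Differentiable ℂ f := by
    intro z
    rw [hf]
    have : Differentiable ℂ (fun z => F (I * z)) := hF.comp (by fun_prop)
    fun_prop
  have hnorm : ∀ z : ℂ, ‖f z‖ = ‖F (I * z)‖ * Real.exp (-(K / 2 * z.im) - τ * z.re) := by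
    intro z
    rw [hf]
    simp only [norm_mul, Complex.norm_exp]
    congr 2
    simp
  have hbd : ∀ z : ℂ, 0 ≤ z.re → ‖f z‖ ≤ C * Real.exp (-(K / 2 * |z.im|)) := by
    intro z hz
    rw [hnorm]
    rcases le_total 0 z.im with him | him
    · have h3 := h1 (I * z)
      have h4 : (I * z).im = z.re := by simp
      rw [h4, abs_of_nonneg hz] at h3
      calc ‖F (I * z)‖ * Real.exp (-(K / 2 * z.im) - τ * z.re) ≤
          C * Real.exp (τ * z.re) * Real.exp (-(K / 2 * z.im) - τ * z.re) := by gcongr
        _ = C * Real.exp (-(K / 2 * |z.im|)) := by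
          rw [mul_assoc, ← Real.exp_add, abs_of_nonneg him]
          congr 2; ring
    · have h3 := h2 (I * z)
      have h4 : (I * z).im = z.re := by simp
      have h5 : ‖exp (K * (I * z))‖ = Real.exp (-(K * z.im)) := by
        rw [Complex.norm_exp]; simp
      rw [h4, abs_of_nonneg hz, norm_mul, h5] at h3
      have h6 : ‖F (I * z)‖ ≤ C * Real.exp (τ * z.re + K * z.im) := by
        calc ‖F (I * z)‖ = (Real.exp (-(K * z.im)) * ‖F (I * z)‖) * Real.exp (K * z.im) := by
              rw [mul_comm (Real.exp _), mul_assoc, ← Real.exp_add]; simp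
          _ ≤ (C * Real.exp (τ * z.re)) * Real.exp (K * z.im) := by gcongr
          _ = _ := by rw [mul_assoc, ← Real.exp_add]
      calc ‖F (I * z)‖ * Real.exp (-(K / 2 * z.im) - τ * z.re) ≤
          C * Real.exp (τ * z.re + K * z.im) * Real.exp (-(K / 2 * z.im) - τ * z.re) := by gcongr
        _ = C * Real.exp (-(K / 2 * |z.im|)) := by
          rw [mul_assoc, ← Real.exp_add, abs_of_nonpos him]
          congr 2; ring
  -- Phragmén–Lindelöf
  set b : ℝ := K / Real.pi with hb
  have hbpos : 0 < b := by positivity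
  have key : ∀ T : ℝ, 0 ≤ T → ∀ x : ℝ, 0 ≤ x → ‖f x * aux b T x‖ ≤ C * (1 + T) ^ b := by
    intro T hT x hx
    have hdiff : ∀ z : ℂ, 0 ≤ z.re → DifferentiableAt ℂ (fun z => f z * aux b T z) z :=
      fun z hz => (hfd z).mul (differentiableAt_aux hT hz)
    have hbound : ∀ z : ℂ, 0 ≤ z.re → ‖f z * aux b T z‖ ≤ C * Real.exp (b * T) := by
      intro z hz
      rw [norm_mul]
      have h3 : ‖f z‖ ≤ C := by
        refine (hbd z hz).trans ?_
        apply mul_le_of_le_one_right hC
        apply Real.exp_le_one_iff.2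
        have := mul_nonneg (half_pos hK).le (abs_nonneg z.im)
        linarith
      exact mul_le_mul h3 (norm_aux_le hbpos.le hT hz) (norm_nonneg _) hC
    refine PhragmenLindelof.right_half_plane_of_bounded_on_real (f := fun z => f z * aux b T z)
      ?_ ?_ ?_ ?_ (z := (x : ℂ)) (by simpa using hx)
    · apply DifferentiableOn.diffContOnCl
      intro z hz
      have hz' : 0 ≤ z.re := by
        have : closure {z : ℂ | 0 < z.re} ⊆ {z : ℂ | 0 ≤ z.re} :=
          closure_minimal (fun z (hz : 0 < z.re) => hz.le) (isClosed_le continuous_const continuous_re)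
        exact this hz
      exact (hdiff z hz').differentiableWithinAt
    · refine ⟨1, by norm_num, 0, ?_⟩
      apply IsBigO.of_bound (C * Real.exp (b * T))
      filter_upwards [mem_inf_of_right (mem_principal_self {z : ℂ | 0 < z.re})] with z hz
      have := hbound z (le_of_lt hz)
      simpa using this
    · refine ⟨C * Real.exp (b * T), ?_⟩
      rw [eventually_map]
      filter_upwards [eventually_ge_atTop (0 : ℝ)] with t ht
      exact hbound t (by simpa using ht)
    · intro y
      rw [norm_mul]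
      have h3 := hbd (y * I) (by simp)
      have h4 := norm_aux_im_le hbpos.le hT y
      have h5 : ((y : ℂ) * I).im = y := by simp
      rw [h5] at h3
      calc ‖f (y * I)‖ * ‖aux b T (y * I)‖ ≤ (C * Real.exp (-(K / 2 * |y|))) *
            Real.exp (b * (Real.log (1 + T) + |y| * (Real.pi / 2))) := by gcongr
        _ = C * (1 + T) ^ b := by
          rw [Real.rpow_def_of_pos (by linarith), mul_assoc, ← Real.exp_add]
          congr 2
          rw [hb]
          field_simp
          ring
  -- the function vanishes on the positive reals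
  have hzero : ∀ x : ℝ, 0 < x → f x = 0 := by
    intro x hx
    have h3 : ∀ T : ℝ, 0 ≤ T → ‖f x‖ ≤ C * (x + 1) ^ (b * (x + 1)) * (1 + T) ^ (-(b * x)) := by
      intro T hT
      have h4 := key T hT x hx.le
      rw [norm_mul, norm_aux_real hT hx.le] at h4
      have h5 : ((1 + T) / (x + 1)) ^ (b * (x + 1)) ≤ (1 + T / (x + 1)) ^ (b * (x + 1)) := by
        apply Real.rpow_le_rpow (by positivity) _ (by positivity)
        rw [div_le_iff₀ (by positivity), add_mul, div_mul_cancel₀ _ (by positivity)]
        linarith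
      have h6 : ‖f x‖ * ((1 + T) / (x + 1)) ^ (b * (x + 1)) ≤ C * (1 + T) ^ b :=
        (mul_le_mul_of_nonneg_left h5 (norm_nonneg _)).trans h4
      rw [Real.div_rpow (by positivity) (by positivity)] at h6
      have h7 : 0 < (1 + T) ^ (b * (x + 1)) := by positivity
      have h8 : 0 < (x + 1) ^ (b * (x + 1)) := by positivity
      have h9 : (1 + T) ^ (-(b * x)) = (1 + T) ^ b / (1 + T) ^ (b * (x + 1)) := by
        rw [← Real.rpow_sub (by positivity)]
        congr 1; ring
      rw [h9]
      rw [mul_div_assoc', div_le_iff₀ h8] at h6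
      rw [mul_div_assoc', le_div_iff₀ h7]
      linarith
    have hlim : Tendsto (fun T : ℝ => C * (x + 1) ^ (b * (x + 1)) * (1 + T) ^ (-(b * x))) atTop
        (𝓝 (C * (x + 1) ^ (b * (x + 1)) * 0)) := by
      apply Tendsto.const_mul
      have h4 : Tendsto (fun T : ℝ => T ^ (-(b * x))) atTop (𝓝 0) :=
        tendsto_rpow_neg_atTop (by positivity)
      exact h4.comp (tendsto_atTop_add_const_left _ _ tendsto_id)
    rw [mul_zero] at hlim
    have h4 : ‖f x‖ ≤ 0 := by
      apply ge_of_tendsto hlim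
      filter_upwards [eventually_ge_atTop (0 : ℝ)] with T hT using h3 T hT
    exact norm_le_zero_iff.1 h4
  -- identity theorem
  have hf0 : f = 0 := by
    have h3 : AnalyticOnNhd ℂ f Set.univ :=
      hfd.differentiableOn.analyticOnNhd isOpen_univ
    apply h3.eq_of_frequently_eq (g := 0) (z₀ := 1) (fun z _ => analyticAt_const)
    have h4 : Tendsto (fun n : ℕ => (((1 : ℝ) + 1 / ((n : ℝ) + 1) : ℝ) : ℂ)) atTop (𝓝[≠] 1) := by
      apply tendsto_nhdsWithin_of_tendsto_nhds_of_eventually_within
      · have h5 : Tendsto (fun n : ℕ => (1 : ℝ) + 1 / ((n : ℝ) + 1)) atTop (𝓝 (1 + 0)) :=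
          tendsto_one_div_add_atTop_nhds_zero_nat.const_add 1
        rw [add_zero] at h5
        exact ((Complex.continuous_ofReal.tendsto 1).comp h5).congr (fun n => rfl)
      · filter_upwards with n
        simp only [Set.mem_compl_iff, Set.mem_singleton_iff]
        intro h
        have h5 : (1 : ℝ) + 1 / ((n : ℝ) + 1) = 1 := by exact_mod_cast h
        have h6 : 0 < 1 / ((n : ℝ) + 1) := by positivity
        linarith
    apply h4.frequently
    apply Filter.Frequently.of_forall
    intro n
    simp only [Pi.zero_apply]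
    exact hzero _ (by positivity)
  funext ξ
  have h3 := congrFun hf0 (-I * ξ)
  rw [hf] at h3
  simp only [Pi.zero_apply, mul_eq_zero, exp_ne_zero, or_false] at h3
  have h4 : I * (-I * ξ) = ξ := by
    rw [← mul_assoc, mul_neg, I_mul_I]; ring
  rw [h4] at h3
  exact h3

end Pool.Agent.XRay
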