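import Pool.Agent.Lib_helper92.XRay.Transport
import Pool.Agent.Lib_helper92.XRay.Kernel
import Pool.Agent.Lib_helper92.XRay.Level
import Pool.Agent.Lib_helper92.XRay.PL

/-!
# Boundary values of the transport integrals and their cancellation
-/

set_option autoImplicit false

namespace Pool.Agent.XRay

open Complex Filter Topology MeasureTheory Metric Set

/-- the data of the one dimensional problem -/
structure Data where
  a : ℝ
  b : ℝ
  hab : a < b
  c : ℝ → ℝ
  α : ℝ → ℝ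
  β : ℝ → ℝ
  hc : Continuous c
  hα : Continuous α
  hβ : Continuous β
  c_pos : ∀ y, 0 < c y
  α_pos : ∀ y, 0 < α y
  β_pos : ∀ y, 0 < β y
  h : ℂ → ℝ → ℂ
  H : ℝ
  X : ℝ
  hm : ∀ ξ, Measurable (h ξ)
  hd : ∀ y, Differentiable ℂ (fun ξ => h ξ y)
  hb : ∀ ξ y, ‖h ξ y‖ ≤ H * Real.exp (X * |ξ.im|)

namespace Data

variable (D : Data)

theorem H_nonneg : 0 ≤ D.H := by
  have h1 := (norm_nonneg _).trans (D.hb 0 0)
  simpa using h1

theorem X_bound (ξ : ℂ) : 0 ≤ D.H * Real.exp (D.X * |ξ.im|) :=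
  mul_nonneg D.H_nonneg (Real.exp_pos _).le

/-- phase derivative -/
noncomputable def ph (p : ℂ) (y : ℝ) : ℂ := p * D.α y / rt p (D.c y)

/-- weight -/
noncomputable def om (p : ℂ) (y : ℝ) : ℂ := D.β y / rt p (D.c y)

/-- boundary phase derivative -/
noncomputable def phB (σ τ t : ℝ) (y : ℝ) : ℂ := σ * t * D.α y / rtB σ τ t (D.c y)

/-- boundary weight -/
noncomputable def omB (σ τ t : ℝ) (y : ℝ) : ℂ := D.β y / rtB σ τ t (D.c y)

/-- the transport integral -/
noncomputable def u (p ξ : ℂ) (y : ℝ) : ℂ :=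
  U D.b (fun s => D.h ξ s * D.om p s) (fun s => I * ξ * D.ph p s) y

/-- its boundary value -/
noncomputable def uB (σ τ t : ℝ) (ξ : ℂ) (y : ℝ) : ℂ :=
  U D.b (fun s => D.h ξ s * D.omB σ τ t s) (fun s => I * ξ * D.phB σ τ t s) y

/-- `κ` -/
noncomputable def kap (t : ℝ) (y : ℝ) : ℝ := t * D.α y * wt t (D.c y)

/-- `ρ` -/
noncomputable def rho (t : ℝ) (y : ℝ) : ℝ := D.β y * wt t (D.c y)

theorem kap_nonneg {t : ℝ} (ht : 0 < t) (y : ℝ) : 0 ≤ D.kap t y :=
  mul_nonneg (mul_nonneg ht.le (D.α_pos y).le) (wt_nonneg _ _)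

theorem rho_nonneg (t : ℝ) (y : ℝ) : 0 ≤ D.rho t y :=
  mul_nonneg (D.β_pos y).le (wt_nonneg _ _)

theorem phB_lt {σ τ t y : ℝ} (h : t * D.c y < 1) : D.phB σ τ t y = σ * D.kap t y := by
  rw [phB, rtB, if_pos h, kap, wt]
  push_cast
  ring

theorem phB_ge {σ τ t y : ℝ} (hσ : σ ^ 2 = 1) (hτ : τ ^ 2 = 1) (h : ¬ t * D.c y < 1) :
    D.phB σ τ t y = I * τ * D.kap t y := by
  rw [phB, rtB, if_neg h, kap, wt]
  have hσ' : (σ : ℂ) ^ 2 = 1 := by exact_mod_cast hσ
  have hτ' : (τ : ℂ) ^ 2 = 1 := by exact_mod_cast hτ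
  push_cast
  rw [div_eq_mul_inv, mul_inv, mul_inv, mul_inv, inv_neg, Complex.inv_I, neg_neg]
  have e1 : (σ : ℂ)⁻¹ = σ := by
    exact inv_eq_of_mul_eq_one_left (by rw [← sq]; exact hσ')
  have e2 : (τ : ℂ)⁻¹ = τ := by
    exact inv_eq_of_mul_eq_one_left (by rw [← sq]; exact hτ')
  rw [e1, e2]
  linear_combination (t * D.α y * I * τ * ((√|1 - t ^ 2 * D.c y ^ 2| : ℝ) : ℂ)⁻¹) * hσ'

theorem omB_lt {σ τ t y : ℝ} (h : t * D.c y < 1) : D.omB σ τ t y = D.rho t y := by
  rw [omB, rtB, if_pos h, rho, wt]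
  push_cast
  ring

theorem omB_ge {σ τ t y : ℝ} (hσ : σ ^ 2 = 1) (hτ : τ ^ 2 = 1) (h : ¬ t * D.c y < 1) :
    D.omB σ τ t y = I * σ * τ * D.rho t y := by
  rw [omB, rtB, if_neg h, rho, wt]
  have hσ' : (σ : ℂ) ^ 2 = 1 := by exact_mod_cast hσ
  have hτ' : (τ : ℂ) ^ 2 = 1 := by exact_mod_cast hτ
  push_cast
  rw [div_eq_mul_inv, mul_inv, mul_inv, mul_inv, inv_neg, Complex.inv_I, neg_neg]
  have e1 : (σ : ℂ)⁻¹ = σ := by
    exact inv_eq_of_mul_eq_one_left (by rw [← sq]; exact hσ')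
  have e2 : (τ : ℂ)⁻¹ = τ := by
    exact inv_eq_of_mul_eq_one_left (by rw [← sq]; exact hτ')
  rw [e1, e2]
  ring

theorem norm_phB {σ τ t : ℝ} (hσ : |σ| = 1) (hτ : |τ| = 1) (ht : 0 < t) (y : ℝ) :
    ‖D.phB σ τ t y‖ = D.kap t y := by
  rw [phB, norm_div, norm_rtB hσ hτ, kap, wt, norm_mul, norm_mul, norm_real, norm_real, norm_real,
    Real.norm_eq_abs, hσ, one_mul, Real.norm_of_nonneg ht.le, Real.norm_of_nonneg (D.α_pos y).le,
    div_eq_mul_inv]

theorem norm_omB {σ τ t : ℝ} (hσ : |σ| = 1) (hτ : |τ| = 1) (y : ℝ) :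
    ‖D.omB σ τ t y‖ = D.rho t y := by
  rw [omB, norm_div, norm_rtB hσ hτ, rho, wt, norm_real, Real.norm_of_nonneg (D.β_pos y).le,
    div_eq_mul_inv]

/-- a good parameter -/
structure Good (t : ℝ) : Prop where
  pos : 0 < t
  int : IntervalIntegrable (fun y => wt t (D.c y)) volume D.a D.b
  ne : ∀ᵐ y ∂(volume.restrict (Ioc D.a D.b)), t * D.c y ≠ 1

variable {D}

theorem Good.kap_int {t : ℝ} (hg : D.Good t) : IntervalIntegrable (D.kap t) volume D.a D.b := by
  have : Continuous (fun y => t * D.α y) := continuous_const.mul D.hα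
  exact hg.int.continuousOn_mul this.continuousOn

theorem Good.rho_int {t : ℝ} (hg : D.Good t) : IntervalIntegrable (D.rho t) volume D.a D.b :=
  hg.int.continuousOn_mul D.hβ.continuousOn

variable (D)

theorem rtB_measurable (σ τ t : ℝ) : Measurable (fun y => rtB σ τ t (D.c y)) := by
  unfold rtB
  have h1 : Measurable (fun y => √|1 - t ^ 2 * D.c y ^ 2|) := by
    have := D.hc.measurable
    fun_prop
  apply Measurable.ite
  · exact measurableSet_lt (by have := D.hc.measurable; fun_prop) measurable_const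
  · exact Complex.measurable_ofReal.comp h1
  · exact measurable_const.mul (Complex.measurable_ofReal.comp (measurable_const.mul h1))

theorem phB_measurable (σ τ t : ℝ) : Measurable (D.phB σ τ t) := by
  unfold phB
  exact (measurable_const.mul (Complex.measurable_ofReal.comp D.hα.measurable)).div
    (D.rtB_measurable σ τ t)

theorem omB_measurable (σ τ t : ℝ) : Measurable (D.omB σ τ t) := by
  unfold omB
  exact (Complex.measurable_ofReal.comp D.hβ.measurable).div (D.rtB_measurable σ τ t)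

variable {D}

/-- signs -/
structure Sgn (σ τ : ℝ) : Prop where
  hσ : σ = 1 ∨ σ = -1
  hτ : τ = 1 ∨ τ = -1

theorem Sgn.σ2 {σ τ : ℝ} (h : Sgn σ τ) : σ ^ 2 = 1 := by
  rcases h.hσ with rfl | rfl <;> norm_num
theorem Sgn.τ2 {σ τ : ℝ} (h : Sgn σ τ) : τ ^ 2 = 1 := by
  rcases h.hτ with rfl | rfl <;> norm_num
theorem Sgn.σ1 {σ τ : ℝ} (h : Sgn σ τ) : |σ| = 1 := by
  rcases h.hσ with rfl | rfl <;> norm_num
theorem Sgn.τ1 {σ τ : ℝ} (h : Sgn σ τ) : |τ| = 1 := by
  rcases h.hτ with rfl | rfl <;> norm_num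

variable {σ τ t : ℝ}

theorem Good.kB_int (hg : D.Good t) (hs : Sgn σ τ) (ξ : ℂ) :
    IntervalIntegrable (fun s => D.h ξ s * D.omB σ τ t s) volume D.a D.b := by
  have h1 := hg.rho_int
  rw [intervalIntegrable_iff_integrableOn_Ioc_of_le D.hab.le] at h1 ⊢
  apply (h1.const_mul (D.H * Real.exp (D.X * |ξ.im|))).mono'
  · exact ((D.hm ξ).mul (D.omB_measurable σ τ t)).aestronglyMeasurable
  · filter_upwards with s
    rw [norm_mul, D.norm_omB hs.σ1 hs.τ1]
    exact mul_le_mul_of_nonneg_right (D.hb ξ s) (D.rho_nonneg t s)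

theorem Good.θB_int (hg : D.Good t) (hs : Sgn σ τ) (ξ : ℂ) :
    IntervalIntegrable (fun s => I * ξ * D.phB σ τ t s) volume D.a D.b := by
  apply IntervalIntegrable.const_mul
  have h1 := hg.kap_int
  rw [intervalIntegrable_iff_integrableOn_Ioc_of_le D.hab.le] at h1 ⊢
  apply h1.mono' (D.phB_measurable σ τ t).aestronglyMeasurable
  filter_upwards with s
  rw [D.norm_phB hs.σ1 hs.τ1 hg.pos]

/-- continuity in `y` -/
theorem Good.uB_cont (hg : D.Good t) (hs : Sgn σ τ) (ξ : ℂ) :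
    ContinuousOn (D.uB σ τ t ξ) (Icc D.a D.b) :=
  U_continuousOn (hg.kB_int hs ξ) (hg.θB_int hs ξ) D.hab.le

/-- the transport integral is entire in `ξ` -/
theorem Good.uB_entire (hg : D.Good t) (hs : Sgn σ τ) {y : ℝ} (hy : y ∈ Icc D.a D.b) :
    Differentiable ℂ (fun ξ => D.uB σ τ t ξ y) := by
  intro ξ₀
  unfold uB
  apply U_differentiableAt (ε := 1) one_pos D.hab.le
    (K := fun s => D.H * Real.exp (|D.X| * (|ξ₀.im| + 1)) * D.rho t s)
    (T := fun s => (‖ξ₀‖ + 1) * D.kap t s)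
  · exact hg.rho_int.const_mul _
  · exact hg.kap_int.const_mul _
  · intro s
    exact mul_nonneg (by positivity) (D.kap_nonneg hg.pos s)
  · intro z _
    exact ((D.hm z).mul (D.omB_measurable σ τ t)).aestronglyMeasurable
  · intro z _
    exact ((D.phB_measurable σ τ t).const_mul _).aestronglyMeasurable
  · filter_upwards with s z hz
    rw [norm_mul, D.norm_omB hs.σ1 hs.τ1]
    apply mul_le_mul_of_nonneg_right _ (D.rho_nonneg t s)
    refine (D.hb z s).trans ?_
    have hH := D.H_nonneg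
    apply mul_le_mul_of_nonneg_left _ hH
    apply Real.exp_le_exp.2
    have h1 : |z.im| ≤ |ξ₀.im| + 1 := by
      have h2 : |(z - ξ₀).im| ≤ ‖z - ξ₀‖ := Complex.abs_im_le_norm _
      rw [mem_ball, dist_eq_norm] at hz
      rw [sub_im] at h2
      have h3 := abs_sub_abs_le_abs_sub z.im ξ₀.im
      linarith
    calc D.X * |z.im| ≤ |D.X| * |z.im| := by gcongr; exact le_abs_self _
      _ ≤ _ := by gcongr
  · filter_upwards with s z hz
    rw [norm_mul, norm_mul, norm_I, one_mul, D.norm_phB hs.σ1 hs.τ1 hg.pos]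
    apply mul_le_mul_of_nonneg_right _ (D.kap_nonneg hg.pos s)
    rw [mem_ball, dist_eq_norm] at hz
    have := norm_sub_norm_le z ξ₀
    linarith
  · filter_upwards with s
    exact ((D.hd s).mul_const _).differentiableOn
  · filter_upwards with s
    apply Differentiable.differentiableOn
    fun_prop
  · exact hy

theorem re_integral {θ : ℝ → ℂ} {x y : ℝ} (hθ : IntervalIntegrable θ volume x y) :
    (∫ r in x..y, θ r).re = ∫ r in x..y, (θ r).re :=
  (Complex.reCLM.intervalIntegral_comp_comm hθ).symm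

theorem IntervalIntegrable.re' {θ : ℝ → ℂ} {x y : ℝ} (hθ : IntervalIntegrable θ volume x y) :
    IntervalIntegrable (fun r => (θ r).re) volume x y :=
  ⟨hθ.1.re, hθ.2.re⟩

/-- exponential bound -/
theorem Good.norm_uB_le (hg : D.Good t) (hs : Sgn σ τ) (h0 : ∀ ξ, D.uB σ τ t ξ D.a = 0)
    (ξ : ℂ) {y : ℝ} (hy : y ∈ Icc D.a D.b) :
    ‖D.uB σ τ t ξ y‖ ≤ (D.H * ∫ s in D.a..D.b, D.rho t s) *
      Real.exp ((D.X + ∫ s in D.a..D.b, D.kap t s) * |ξ.im|) := by
  have hk := hg.kB_int hs ξ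
  have hθ := hg.θB_int hs ξ
  set R := ∫ s in D.a..D.b, D.kap t s with hR
  -- the norm of `k`
  have hkn : ∫ s in D.a..D.b, ‖D.h ξ s * D.omB σ τ t s‖ ≤
      (D.H * ∫ s in D.a..D.b, D.rho t s) * Real.exp (D.X * |ξ.im|) := by
    calc ∫ s in D.a..D.b, ‖D.h ξ s * D.omB σ τ t s‖ ≤
          ∫ s in D.a..D.b, (D.H * Real.exp (D.X * |ξ.im|)) * D.rho t s := by
          apply intervalIntegral.integral_mono_on D.hab.le hk.norm (hg.rho_int.const_mul _)
          intro s _
          rw [norm_mul, D.norm_omB hs.σ1 hs.τ1]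
          exact mul_le_mul_of_nonneg_right (D.hb ξ s) (D.rho_nonneg t s)
      _ = _ := by rw [intervalIntegral.integral_const_mul]; ring
  have hkap : ∀ {x z : ℝ}, x ∈ Icc D.a D.b → z ∈ Icc D.a D.b → x ≤ z →
      ∫ r in x..z, D.kap t r * |ξ.im| ≤ R * |ξ.im| := by
    intro x z hx hz hxz
    rw [intervalIntegral.integral_mul_const]
    apply mul_le_mul_of_nonneg_right _ (abs_nonneg _)
    apply intervalIntegral.integral_mono_interval hx.1 hxz hz.2
    · filter_upwards with s using D.kap_nonneg hg.pos s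
    · exact hg.kap_int
  have hre : ∀ s, (I * ξ * D.phB σ τ t s).re =
      if t * D.c s < 1 then -(σ * D.kap t s * ξ.im) else -(τ * D.kap t s * ξ.re) := by
    intro s
    split_ifs with h
    · rw [D.phB_lt h, ← ofReal_mul, re_mul_ofReal, I_mul_re]; ring
    · rw [D.phB_ge hs.σ2 hs.τ2 h]
      have : I * ξ * (I * τ * D.kap t s) = ξ * ((-(τ * D.kap t s) : ℝ) : ℂ) := by
        push_cast
        linear_combination (ξ * τ * D.kap t s) * I_sq
      rw [this, re_mul_ofReal]; ring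
  have hfin : ‖D.uB σ τ t ξ y‖ ≤ (∫ s in D.a..D.b, ‖D.h ξ s * D.omB σ τ t s‖) *
      Real.exp (R * |ξ.im|) := by
    rcases le_total 0 (τ * ξ.re) with hpos | hneg
    · apply norm_U_le hk hθ D.hab.le hy
      intro s hs'
      have hsI : s ∈ Icc D.a D.b := ⟨hy.1.trans hs'.1, hs'.2⟩
      have hi := sub_int hθ hy hsI
      rw [re_integral hi]
      refine le_trans ?_ (hkap hy hsI hs'.1)
      apply intervalIntegral.integral_mono_on hs'.1 (IntervalIntegrable.re' hi)
        ((sub_int hg.kap_int hy hsI).mul_const _)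
      intro r _
      rw [hre r]
      have hkr := D.kap_nonneg hg.pos r
      split_ifs with h
      · have h1 : -(σ * ξ.im) ≤ |ξ.im| := by
          rcases hs.hσ with rfl | rfl
          · rw [one_mul]; exact neg_le_abs _
          · rw [neg_mul, neg_neg, one_mul]; exact le_abs_self _
        nlinarith
      · have h1 : 0 ≤ D.kap t r * (τ * ξ.re) := mul_nonneg hkr hpos
        have h2 : 0 ≤ D.kap t r * |ξ.im| := mul_nonneg hkr (abs_nonneg _)
        linarith
    · apply norm_U_le' hk hθ D.hab.le (h0 ξ) hy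
      intro s hs'
      have hsI : s ∈ Icc D.a D.b := ⟨hs'.1, hs'.2.trans hy.2⟩
      have hi := sub_int hθ hsI hy
      rw [re_integral hi]
      have h3 : -∫ r in s..y, D.kap t r * |ξ.im| ≤ ∫ r in s..y, (I * ξ * D.phB σ τ t r).re := by
        rw [← intervalIntegral.integral_neg]
        apply intervalIntegral.integral_mono_on hs'.2
          ((sub_int hg.kap_int hsI hy).mul_const _).neg (IntervalIntegrable.re' hi)
        intro r _
        change -(D.kap t r * |ξ.im|) ≤ _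
        rw [hre r]
        have hkr := D.kap_nonneg hg.pos r
        split_ifs with h
        · have h1 : σ * ξ.im ≤ |ξ.im| := by
            rcases hs.hσ with rfl | rfl
            · rw [one_mul]; exact le_abs_self _
            · rw [neg_mul, one_mul]; exact neg_le_abs _
          nlinarith
        · have h1 : D.kap t r * (τ * ξ.re) ≤ 0 := mul_nonpos_of_nonneg_of_nonpos hkr hneg
          have h2 : 0 ≤ D.kap t r * |ξ.im| := mul_nonneg hkr (abs_nonneg _)
          linarith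
      have := hkap hsI hy hs'.2
      linarith
  calc ‖D.uB σ τ t ξ y‖ ≤ _ := hfin
    _ ≤ ((D.H * ∫ s in D.a..D.b, D.rho t s) * Real.exp (D.X * |ξ.im|)) *
        Real.exp (R * |ξ.im|) := by gcongr
    _ = _ := by rw [mul_assoc, ← Real.exp_add]; congr 2; ring

end Data

end Pool.Agent.XRay
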