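import Pool.Agent.Lib_helper92.XRay.Lin
import Pool.Agent.Lib_helper92.XRay.GeoDefs

/-!
# Geodesics of a metric which only depends on the height
-/

set_option autoImplicit false

namespace Pool.Agent.XRay

open Set Topology MeasureTheory Filter

variable {V : Type*} [NormedAddCommGroup V] [NormedSpace ℝ V]
variable {E : Type*} [NormedAddCommGroup E] [InnerProductSpace ℝ E] [FiniteDimensional ℝ E]

/-- Leibniz rule -/
theorem hasDerivAt_form {g : ℝ → Form V} {g' : Form V} {v w : ℝ → V} {v' w' : V} {y : ℝ}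
    (hg : HasDerivAt g g' y) (hv : HasDerivAt v v' y) (hw : HasDerivAt w w' y) :
    HasDerivAt (fun y => g y (v y) (w y)) (g' (v y) (w y) + g y v' (w y) + g y (v y) w') y := by
  have h1 : HasDerivAt (fun y => g y (v y)) (g' (v y) + g y v') y :=
    HasDerivAt.clm_apply (𝕜 := ℝ) (F := V) (G := V →L[ℝ] ℝ) hg hv
  exact HasDerivAt.clm_apply (𝕜 := ℝ) (F := V) (G := ℝ) h1 hw

namespace Frame

variable (F : Frame V E)

/-- the weight `dt/dy` -/
noncomputable def wgt (g : ℝ → Form V) (ω : E) (p : ℝ) (y : ℝ) : ℝ :=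
  √(F.gam (g y)) / √(1 - p ^ 2 * F.csq ω (g y))

/-- the velocity as a function of the height -/
noncomputable def Vf (g : ℝ → Form V) (ω : E) (p : ℝ) (W : ℝ → ℝ) (y : ℝ) : V :=
  F.ι (p • F.ev ω (g y) - (W y)⁻¹ • F.Bv (g y)) + (W y)⁻¹ • F.e

variable {g : ℝ → Form V} {ω : E} {p : ℝ} {W : ℝ → ℝ} {y : ℝ}

omit [FiniteDimensional ℝ E] in
theorem Vf_apply (w : V) : g y (F.Vf g ω p W y) w =
    p * g y (F.ι (F.ev ω (g y))) w - (W y)⁻¹ * g y (F.ι (F.Bv (g y))) w +
      (W y)⁻¹ * g y F.e w := by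
  rw [Vf, map_sub, map_smul, map_smul, map_add, map_sub, map_smul, map_smul, map_smul]
  rfl

omit [FiniteDimensional ℝ E] in
theorem π_Vf : F.π (F.Vf g ω p W y) = p • F.ev ω (g y) - (W y)⁻¹ • F.Bv (g y) := by
  rw [Vf, map_add, F.πι, map_smul, F.πe, smul_zero, add_zero]

omit [FiniteDimensional ℝ E] in
theorem ℓ_Vf : F.ℓ (F.Vf g ω p W y) = (W y)⁻¹ := by
  rw [Vf, map_add, F.ℓι, map_smul, F.ℓe, smul_eq_mul, mul_one, zero_add]

/-- the horizontal momentum is `p ω` -/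
theorem Vf_mom (hg : (g y).Pos) (x : E) : g y (F.Vf g ω p W y) (F.ι x) = p * inner ℝ ω x := by
  rw [Vf_apply, F.Amap_ev hg, F.Amap_Bv hg]
  ring

/-- unit speed -/
theorem Vf_energy (hg : (g y).Pos) (hp : p ^ 2 * F.csq ω (g y) < 1) (hW : W y = F.wgt g ω p y) :
    g y (F.Vf g ω p W y) (F.Vf g ω p W y) = 1 := by
  have h1 : 0 < F.gam (g y) := F.gam_pos hg
  have h2 : 0 < 1 - p ^ 2 * F.csq ω (g y) := by linarith
  have hw : (W y)⁻¹ ^ 2 * F.gam (g y) = 1 - p ^ 2 * F.csq ω (g y) := by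
    rw [hW, wgt, inv_div, div_pow, Real.sq_sqrt h2.le, Real.sq_sqrt h1.le]
    field_simp
  rw [F.expand, F.Vf_mom hg, Vf_apply, F.π_Vf, F.ℓ_Vf, inner_sub_right, inner_smul_right,
    inner_smul_right]
  have e4 : g y (F.ι (F.ev ω (g y))) F.e = inner ℝ ω (F.Bv (g y)) := by
    rw [hg.symm, ← F.Amap_Bv hg, hg.symm, F.Amap_ev hg]
  rw [e4, hg.symm (F.ι (F.Bv (g y))) F.e]
  rw [gam] at hw
  rw [csq] at hw
  linear_combination hw

/-- the vertical Euler–Lagrange equation, in the height variable -/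
theorem Vf_vert {g' : Form V} {v' : V} (hpos : ∀ y, (g y).Pos) (hg : HasDerivAt g g' y)
    (hV : HasDerivAt (F.Vf g ω p W) v' y)
    (hen : ∀ᶠ z in 𝓝 y, g z (F.Vf g ω p W z) (F.Vf g ω p W z) = 1) :
    (W y)⁻¹ * (g' (F.Vf g ω p W y) F.e + g y v' F.e) =
      2⁻¹ * g' (F.Vf g ω p W y) (F.Vf g ω p W y) := by
  -- energy
  have h1 : g' (F.Vf g ω p W y) (F.Vf g ω p W y) + g y v' (F.Vf g ω p W y) +
      g y (F.Vf g ω p W y) v' = 0 := by
    have := hasDerivAt_form hg hV hV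
    exact this.unique ((hasDerivAt_const y (1 : ℝ)).congr_of_eventuallyEq hen)
  -- momentum
  have h2 : ∀ x : E, g' (F.Vf g ω p W y) (F.ι x) + g y v' (F.ι x) = 0 := by
    intro x
    have h3 := hasDerivAt_form hg hV (hasDerivAt_const y (F.ι x))
    have h4 : HasDerivAt (fun z => g z (F.Vf g ω p W z) (F.ι x)) 0 y := by
      apply (hasDerivAt_const y (p * inner ℝ ω x)).congr_of_eventuallyEq
      filter_upwards with z
      exact F.Vf_mom (hpos z) x
    have h5 := h3.unique h4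
    rw [map_zero, add_zero] at h5
    exact h5
  have h4 := h2 (F.π (F.Vf g ω p W y))
  have h5 := F.expand (g' (F.Vf g ω p W y)) (F.Vf g ω p W y)
  have h6 := F.expand (g y v') (F.Vf g ω p W y)
  rw [F.ℓ_Vf] at h5 h6
  have h7 := (hpos y).symm (F.Vf g ω p W y) v'
  linear_combination (1 / 2 : ℝ) * h1 - h4 - h5 - h6 - (1 / 2 : ℝ) * h7

omit [FiniteDimensional ℝ E] in
/-- a metric which only depends on the height -/
theorem hasFDerivAt_of_inv {G : V → Form V} (hinv : ∀ (x : E) (z : V), G (z + F.ι x) = G z)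
    (hG : Differentiable ℝ G) (z : V) :
    HasDerivAt (fun y : ℝ => G (y • F.e)) (fderiv ℝ G z F.e) (F.ℓ z) ∧
      ∀ w : V, fderiv ℝ G z w = F.ℓ w • fderiv ℝ G z F.e := by
  have hGz : ∀ z : V, G z = G (F.ℓ z • F.e) := by
    intro z
    have := hinv (F.π z) (F.ℓ z • F.e)
    rw [← this]
    congr 1
    rw [add_comm]; exact (F.eq z).symm
  have hd : HasFDerivAt G (fderiv ℝ G z) z := (hG z).hasFDerivAt
  have h1 : HasDerivAt (fun y : ℝ => G (F.ι (F.π z) + y • F.e)) (fderiv ℝ G z F.e) (F.ℓ z) := by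
    have h2 : HasDerivAt (fun y : ℝ => F.ι (F.π z) + y • F.e) F.e (F.ℓ z) := by
      have := ((hasDerivAt_id (F.ℓ z)).smul_const F.e).const_add (F.ι (F.π z))
      simpa using this
    have hd' : HasFDerivAt G (fderiv ℝ G z) (F.ι (F.π z) + F.ℓ z • F.e) := by
      rw [F.eq]; exact hd
    exact HasFDerivAt.comp_hasDerivAt (𝕜 := ℝ) (F := V) (E := Form V) (F.ℓ z) hd' h2
  have h2 : (fun y : ℝ => G (F.ι (F.π z) + y • F.e)) = fun y : ℝ => G (y • F.e) := by
    funext y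
    rw [add_comm]; exact hinv _ _
  rw [h2] at h1
  refine ⟨h1, fun w => ?_⟩
  -- derivative of `G` as a function of the height
  have h3 : HasFDerivAt G ((ContinuousLinearMap.toSpanSingleton ℝ (fderiv ℝ G z F.e)).comp F.ℓ)
      z := by
    have h4 : G = (fun y : ℝ => G (y • F.e)) ∘ F.ℓ := by
      funext z; exact hGz z
    have h5 : HasFDerivAt (fun y : ℝ => G (y • F.e))
      (ContinuousLinearMap.toSpanSingleton ℝ (fderiv ℝ G z F.e)) (F.ℓ z) := h1.hasFDerivAt
    have h6 := HasFDerivAt.comp (𝕜 := ℝ) (E := V) (F := ℝ) (G := Form V) z h5 F.ℓ.hasFDerivAt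
    rw [← h4] at h6
    exact h6
  have h4 := hd.unique h3
  have h5 := congrArg (fun L => L w) h4
  simpa using h5

end Frame

end Pool.Agent.XRay
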