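import Pool.Agent.Lib_helper92.XRay.Uniq
import Pool.Agent.Lib_helper92.XRay.Dom

/-!
# The case of Euclidean coordinates
-/

set_option autoImplicit false

namespace Pool.Agent.XRay

open Set Topology MeasureTheory Filter

/-- the splitting of `ℝ^{n+1}` along the last coordinate -/
noncomputable def eucFrame (n : ℕ) :
    Frame (EuclideanSpace ℝ (Fin (n + 1))) (EuclideanSpace ℝ (Fin n)) where
  ι := LinearMap.toContinuousLinearMap
    { toFun := fun x => WithLp.toLp 2 (Fin.snoc (α := fun _ => ℝ) (fun i => x i) 0)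
      map_add' := by
        intro x y
        ext i
        refine Fin.lastCases ?_ (fun j => ?_) i
        · simp
        · simp
      map_smul' := by
        intro c x
        ext i
        refine Fin.lastCases ?_ (fun j => ?_) i
        · simp
        · simp }
  e := EuclideanSpace.single (Fin.last n) 1
  π := LinearMap.toContinuousLinearMap
    { toFun := fun v => WithLp.toLp 2 (fun i => v (Fin.castSucc i))
      map_add' := by
        intro x y
        ext i
        simp
      map_smul' := by
        intro c x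
        ext i
        simp }
  ℓ := EuclideanSpace.proj (Fin.last n)
  πι := by
    intro x
    ext i
    simp
  ℓι := by
    intro x
    simp
  πe := by
    ext i
    simp [Fin.castSucc_ne_last]
  ℓe := by simp
  eq := by
    intro v
    ext i
    refine Fin.lastCases ?_ (fun j => ?_) i
    · simp
    · simp [Fin.castSucc_ne_last]

theorem eucFrame_π_apply {n : ℕ} (v : EuclideanSpace ℝ (Fin (n + 1))) (i : Fin n) :
    (eucFrame n).π v i = v (Fin.castSucc i) := rfl

theorem eucFrame_ℓ_apply {n : ℕ} (v : EuclideanSpace ℝ (Fin (n + 1))) :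
    (eucFrame n).ℓ v = v (Fin.last n) := rfl

theorem eucFrame_norm_π {n : ℕ} (v : EuclideanSpace ℝ (Fin (n + 1))) :
    ‖(eucFrame n).π v‖ ≤ ‖v‖ := by
  rw [EuclideanSpace.norm_eq, EuclideanSpace.norm_eq, Fin.sum_univ_castSucc]
  apply Real.sqrt_le_sqrt
  have : 0 ≤ ‖v (Fin.last n)‖ ^ 2 := by positivity
  simp only [eucFrame_π_apply]
  linarith

/-- a horizontal vector is in the range of `ι` -/
theorem eucFrame_eq {n : ℕ} {v : EuclideanSpace ℝ (Fin (n + 1))} (hv : v (Fin.last n) = 0) :
    (eucFrame n).ι ((eucFrame n).π v) = v := by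
  have h1 := (eucFrame n).eq v
  rw [eucFrame_ℓ_apply, hv, zero_smul, add_zero] at h1
  exact h1

theorem eucFrame_ι_last {n : ℕ} (x : EuclideanSpace ℝ (Fin n)) :
    (eucFrame n).ι x (Fin.last n) = 0 := (eucFrame n).ℓι x

/-- the splitting as an equivalence -/
noncomputable def Frame.equiv {V E : Type*} [NormedAddCommGroup V] [NormedSpace ℝ V]
    [NormedAddCommGroup E] [InnerProductSpace ℝ E] (F : Frame V E) : (E × ℝ) ≃L[ℝ] V :=
  ContinuousLinearEquiv.equivOfInverse
    (F.ι.comp (ContinuousLinearMap.fst ℝ E ℝ) +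
      (ContinuousLinearMap.snd ℝ E ℝ).smulRight F.e)
    (F.π.prod F.ℓ)
    (by
      intro z
      ext
      · simp [F.πι, F.πe]
      · simp [F.ℓι, F.ℓe])
    (by
      intro v
      simp [F.eq])

theorem Frame.null {V E : Type*} [NormedAddCommGroup V] [NormedSpace ℝ V]
    [FiniteDimensional ℝ V] [MeasurableSpace V] [BorelSpace V]
    [NormedAddCommGroup E] [InnerProductSpace ℝ E] [FiniteDimensional ℝ E] [MeasurableSpace E]
    [BorelSpace E] (F : Frame V E) (μ : Measure V) [μ.IsAddHaarMeasure] {S : Set V}
    (hS : μ S = 0) : (volume : Measure (E × ℝ)) ((fun z : E × ℝ => F.ι z.1 + z.2 • F.e) ⁻¹' S)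
      = 0 := by
  have h0 : (volume : Measure (E × ℝ)).IsAddHaarMeasure := by
    rw [Measure.volume_eq_prod]; infer_instance
  have h1 : (Measure.map F.equiv (volume : Measure (E × ℝ))).IsAddHaarMeasure :=
    F.equiv.isAddHaarMeasure_map volume
  have h2 : Measure.map F.equiv (volume : Measure (E × ℝ)) ≪ μ :=
    Measure.absolutelyContinuous_isAddHaarMeasure _ _
  have h3 := h2 hS
  rw [← nonpos_iff_eq_zero, ← h3]
  exact Measure.le_map_apply F.equiv.continuous.aemeasurable S

end Pool.Agent.XRay
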