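import Pool.Agent.Lib_helper92.XRay.Geodesic

/-!
# Existence of the steep geodesics
-/

set_option autoImplicit false

namespace Pool.Agent.XRay

open Set Topology MeasureTheory Filter

/-- inverse function of a primitive of a positive function bounded below -/
theorem exists_time {W : ℝ → ℝ} (hW : Continuous W) {m : ℝ} (hm : 0 < m) (hWm : ∀ y, m ≤ W y)
    (a : ℝ) : ∃ T Y : ℝ → ℝ, StrictMono T ∧ (∀ y, HasDerivAt T (W y) y) ∧ (∀ y, Y (T y) = y) ∧
      (∀ t, T (Y t) = t) ∧ (∀ t, HasDerivAt Y (W (Y t))⁻¹ t) ∧ T a = 0 := by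
  set T : ℝ → ℝ := fun y => ∫ s in a..y, W s with hT
  have hTd : ∀ y, HasDerivAt T (W y) y := fun y =>
    (hW.integral_hasStrictDerivAt a y).hasDerivAt
  have hTmono : StrictMono T := by
    apply strictMono_of_deriv_pos
    intro y
    rw [(hTd y).deriv]
    exact lt_of_lt_of_le hm (hWm y)
  have hTc : Continuous T := by
    rw [continuous_iff_continuousAt]; exact fun y => (hTd y).continuousAt
  have hlin : Monotone (fun y => T y - m * y) := by
    apply monotone_of_deriv_nonneg
    · intro y
      exact ((hTd y).sub ((hasDerivAt_id y).const_mul m)).differentiableAt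
    · intro y
      have h1 : HasDerivAt (fun y => T y - m * y) (W y - m * 1) y :=
        (hTd y).sub ((hasDerivAt_id y).const_mul m)
      rw [h1.deriv]
      have := hWm y
      linarith
  have hsurj : Function.Surjective T := by
    apply hTc.surjective
    · apply tendsto_atTop_mono' atTop (f₁ := fun y => T a + m * (y - a))
      · filter_upwards [eventually_ge_atTop a] with y hy
        have := hlin hy
        simp only at this
        linarith
      · apply tendsto_atTop_add_const_left
        apply Tendsto.const_mul_atTop hm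
        exact tendsto_atTop_add_const_right _ _ tendsto_id
    · apply tendsto_atBot_mono' atBot (f₂ := T) (f₁ := fun y => T a + m * (y - a))
      · filter_upwards [eventually_le_atBot a] with y hy
        have := hlin hy
        simp only at this
        linarith
      · apply tendsto_atBot_add_const_left
        apply Tendsto.const_mul_atBot hm
        exact tendsto_atBot_add_const_right _ _ tendsto_id
  set e := hTmono.orderIsoOfSurjective T hsurj with he
  refine ⟨T, e.symm, hTmono, hTd, fun y => ?_, fun t => ?_, fun t => ?_, ?_⟩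
  · exact e.symm_apply_apply y
  · exact e.apply_symm_apply t
  · apply HasDerivAt.of_local_left_inverse (f := T) e.symm.continuous.continuousAt (hTd _)
    · exact (lt_of_lt_of_le hm (hWm _)).ne'
    · filter_upwards with y
      exact e.apply_symm_apply y
  · rw [hT]; simp

variable {V : Type*} [NormedAddCommGroup V] [NormedSpace ℝ V]
variable {E : Type*} [NormedAddCommGroup E] [InnerProductSpace ℝ E] [FiniteDimensional ℝ E]

namespace Frame

variable {F : Frame V E} {G : V → Form V}

omit [FiniteDimensional ℝ E] in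
theorem g_diff (hG : IsMetric G) (y : ℝ) : DifferentiableAt ℝ (fun y : ℝ => G (y • F.e)) y := by
  have h1 : DifferentiableAt ℝ (fun y : ℝ => y • F.e) y := by fun_prop
  exact DifferentiableAt.comp (𝕜 := ℝ) (E := ℝ) (F := V) (G := Form V) y (hG.diff _) h1

omit [FiniteDimensional ℝ E] in
theorem g_pos (hG : IsMetric G) (y : ℝ) : (G (y • F.e)).Pos := ⟨hG.symm _, hG.pos _⟩

theorem csq_cont (hG : IsMetric G) (ω : E) : Continuous (fun y : ℝ => F.csq ω (G (y • F.e))) := by
  rw [continuous_iff_continuousAt]
  exact fun y => (F.csq_diff ω (g_diff hG y) (g_pos hG y)).continuousAt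

theorem gam_cont (hG : IsMetric G) : Continuous (fun y : ℝ => F.gam (G (y • F.e))) := by
  rw [continuous_iff_continuousAt]
  exact fun y => (F.gam_diff (g_diff hG y) (g_pos hG y)).continuousAt

theorem ev_cont (hG : IsMetric G) (ω : E) : Continuous (fun y : ℝ => F.ev ω (G (y • F.e))) := by
  rw [continuous_iff_continuousAt]
  exact fun y => (F.ev_diff ω (g_diff hG y) (g_pos hG y)).continuousAt

theorem Bv_cont (hG : IsMetric G) : Continuous (fun y : ℝ => F.Bv (G (y • F.e))) := by
  rw [continuous_iff_continuousAt]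
  exact fun y => (F.Bv_diff (g_diff hG y) (g_pos hG y)).continuousAt

/-- existence of steep geodesics -/
theorem exists_steep (hG : IsMetric G) (ω : E) {p a' b' : ℝ} (hab : a' ≤ b')
    (hp : ∀ y ∈ Icc a' b', p ^ 2 * F.csq ω (G (y • F.e)) < 1) (a : ℝ) :
    ∃ (S : F.Steep G ω p a' b') (T : ℝ → ℝ), Continuous S.W ∧
      (∀ y, S.X y = ∫ r in a..y, ((p * S.W r) • F.ev ω (G (r • F.e)) - F.Bv (G (r • F.e)))) ∧
      StrictMono T ∧ (∀ y, HasDerivAt T (S.W y) y) ∧ (∀ y, S.Y (T y) = y) ∧
      (∀ t, T (S.Y t) = t) := by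
  -- the weight, frozen outside `[a', b']`
  set cl : ℝ → ℝ := fun y => max a' (min b' y) with hcl
  have hclI : ∀ y, cl y ∈ Icc a' b' := fun y =>
    ⟨le_max_left _ _, max_le hab (min_le_left _ _)⟩
  have hclc : Continuous cl := by fun_prop
  have hcl_eq : ∀ y ∈ Icc a' b', cl y = y := by
    intro y hy
    rw [hcl]
    simp only []
    rw [min_eq_right hy.2, max_eq_right hy.1]
  set w := F.wgt (fun y => G (y • F.e)) ω p with hw
  have hwc : ContinuousOn w (Icc a' b') := by
    rw [hw]
    unfold Frame.wgt
    apply ContinuousOn.div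
    · exact (gam_cont hG).sqrt.continuousOn
    · exact ((continuous_const.sub ((csq_cont hG ω).const_mul _)).sqrt).continuousOn
    · intro y hy
      have := hp y hy
      exact (Real.sqrt_pos.2 (by linarith)).ne'
  have hwpos : ∀ y ∈ Icc a' b', 0 < w y := by
    intro y hy
    rw [hw, Frame.wgt]
    have h1 := hp y hy
    exact div_pos (Real.sqrt_pos.2 (F.gam_pos (g_pos hG y))) (Real.sqrt_pos.2 (by linarith))
  obtain ⟨y₀, hy₀, hmin⟩ := isCompact_Icc.exists_isMinOn (nonempty_Icc.2 hab) hwc
  have hWc : Continuous (fun y => w (cl y)) :=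
    hwc.comp_continuous hclc hclI
  obtain ⟨T, Y, hT1, hT2, hT3, hT4, hT5, _⟩ := exists_time hWc (hwpos y₀ hy₀)
    (fun y => hmin (hclI y)) a
  set X : ℝ → E := fun y => ∫ r in a..y,
    ((p * w (cl r)) • F.ev ω (G (r • F.e)) - F.Bv (G (r • F.e))) with hX
  have hXc : Continuous (fun r : ℝ => (p * w (cl r)) • F.ev ω (G (r • F.e)) - F.Bv (G (r • F.e))) :=
    ((continuous_const.mul hWc).smul (ev_cont hG ω)).sub (Bv_cont hG)
  refine ⟨{ W := fun y => w (cl y), W_pos := fun y => hwpos _ (hclI y), W_eq := ?_, p_lt := hp,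
            X := X, hX := ?_, Y := Y, hY := hT5 }, T, hWc, fun y => rfl, hT1, hT2, hT3, hT4⟩
  · intro y hy
    rw [hcl_eq y hy]
  · intro y
    exact (hXc.integral_hasStrictDerivAt a y).hasDerivAt

end Frame

end Pool.Agent.XRay
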