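import Pool.Agent.Lib_helper92.XRay.Curve

/-!
# The steep geodesics
-/

set_option autoImplicit false

namespace Pool.Agent.XRay

open Set Topology MeasureTheory Filter

variable {V : Type*} [NormedAddCommGroup V] [NormedSpace ℝ V]
variable {E : Type*} [NormedAddCommGroup E] [InnerProductSpace ℝ E] [FiniteDimensional ℝ E]

namespace Frame

variable (F : Frame V E)

/-- data of a steep geodesic -/
structure Steep (G : V → Form V) (ω : E) (p : ℝ) (a' b' : ℝ) where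
  W : ℝ → ℝ
  W_pos : ∀ y, 0 < W y
  W_eq : ∀ y ∈ Icc a' b', W y = F.wgt (fun y => G (y • F.e)) ω p y
  p_lt : ∀ y ∈ Icc a' b', p ^ 2 * F.csq ω (G (y • F.e)) < 1
  X : ℝ → E
  hX : ∀ y, HasDerivAt X ((p * W y) • F.ev ω (G (y • F.e)) - F.Bv (G (y • F.e))) y
  Y : ℝ → ℝ
  hY : ∀ t, HasDerivAt Y (W (Y t))⁻¹ t

variable {F} {G : V → Form V} {ω : E} {p a' b' : ℝ}

/-- the curve -/
noncomputable def Steep.γ (S : F.Steep G ω p a' b') (x₀ : E) (t : ℝ) : V :=
  F.ι (x₀ + S.X (S.Y t)) + S.Y t • F.e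

omit [FiniteDimensional ℝ E] in
theorem G_eq (hinv : ∀ (x : E) (z : V), G (z + F.ι x) = G z) (z : V) : G z = G (F.ℓ z • F.e) := by
  have := hinv (F.π z) (F.ℓ z • F.e)
  rw [← this]
  congr 1
  rw [add_comm]; exact (F.eq z).symm

omit [FiniteDimensional ℝ E] in
theorem Steep.ℓγ (S : F.Steep G ω p a' b') (x₀ : E) (t : ℝ) : F.ℓ (S.γ x₀ t) = S.Y t := by
  rw [γ, map_add, F.ℓι, map_smul, F.ℓe, smul_eq_mul, mul_one, zero_add]

omit [FiniteDimensional ℝ E] in
theorem Steep.hγ (S : F.Steep G ω p a' b') (x₀ : E) (t : ℝ) :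
    HasDerivAt (S.γ x₀) (F.Vf (fun y => G (y • F.e)) ω p S.W (S.Y t)) t := by
  have h1 : HasDerivAt (fun t => x₀ + S.X (S.Y t)) ((S.W (S.Y t))⁻¹ •
      ((p * S.W (S.Y t)) • F.ev ω (G (S.Y t • F.e)) - F.Bv (G (S.Y t • F.e)))) t :=
    ((S.hX (S.Y t)).scomp t (S.hY t)).const_add x₀
  have h2 : HasDerivAt (fun t => F.ι (x₀ + S.X (S.Y t))) (F.ι ((S.W (S.Y t))⁻¹ •
      ((p * S.W (S.Y t)) • F.ev ω (G (S.Y t • F.e)) - F.Bv (G (S.Y t • F.e))))) t :=
    F.ι.hasFDerivAt.comp_hasDerivAt t h1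
  have h3 := h2.add ((S.hY t).smul_const F.e)
  have h4 : (S.W (S.Y t))⁻¹ • ((p * S.W (S.Y t)) • F.ev ω (G (S.Y t • F.e)) -
      F.Bv (G (S.Y t • F.e))) =
      p • F.ev ω (G (S.Y t • F.e)) - (S.W (S.Y t))⁻¹ • F.Bv (G (S.Y t • F.e)) := by
    rw [smul_sub, smul_smul]
    congr 2
    have := (S.W_pos (S.Y t)).ne'
    field_simp
  rw [h4] at h3
  exact h3

omit [FiniteDimensional ℝ E] in
theorem Steep.deriv_γ (S : F.Steep G ω p a' b') (x₀ : E) :
    deriv (S.γ x₀) = fun t => F.Vf (fun y => G (y • F.e)) ω p S.W (S.Y t) := by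
  funext t; exact (S.hγ x₀ t).deriv

theorem Steep.mom (S : F.Steep G ω p a' b') (hG : IsMetric G)
    (hinv : ∀ (x : E) (z : V), G (z + F.ι x) = G z) (x₀ : E) (t : ℝ) (x : E) :
    G (S.γ x₀ t) (deriv (S.γ x₀) t) (F.ι x) = p * inner ℝ ω x := by
  rw [S.deriv_γ, G_eq hinv, S.ℓγ]
  exact F.Vf_mom (g := fun y => G (y • F.e)) (y := S.Y t) ⟨hG.symm _, hG.pos _⟩ x

theorem Steep.geodesic (S : F.Steep G ω p a' b') (hG : IsMetric G)
    (hinv : ∀ (x : E) (z : V), G (z + F.ι x) = G z) (x₀ : E) {J : Set ℝ}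
    (hJ : ∀ t ∈ J, S.Y t ∈ Ioo a' b') : UnitGeodesicOn G (S.γ x₀) J := by
  set g : ℝ → Form V := fun y => G (y • F.e) with hg
  have hpos : ∀ y, (g y).Pos := fun y => ⟨hG.symm _, hG.pos _⟩
  have hGγ : ∀ t, G (S.γ x₀ t) = g (S.Y t) := by
    intro t; rw [G_eq hinv, S.ℓγ]
  have hen : ∀ y ∈ Icc a' b', g y (F.Vf g ω p S.W y) (F.Vf g ω p S.W y) = 1 := by
    intro y hy
    exact F.Vf_energy (hpos y) (S.p_lt y hy) (S.W_eq y hy)
  have hgd : ∀ y, HasDerivAt g (fderiv ℝ G (y • F.e) F.e) y := by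
    intro y
    have h1 := (F.hasFDerivAt_of_inv hinv hG.diff (y • F.e)).1
    rw [map_smul, F.ℓe, smul_eq_mul, mul_one] at h1
    exact h1
  refine ⟨fun t _ => (S.hγ x₀ t).differentiableAt, ?_, ?_⟩
  · intro t ht w
    have hy := hJ t ht
    set y := S.Y t with hyd
    have hgdd : DifferentiableAt ℝ g y :=
      HasDerivAt.differentiableAt (𝕜 := ℝ) (F := Form V) (hgd y)
    -- differentiability of the velocity
    have hWd : DifferentiableAt ℝ S.W y := by
      have h1 : DifferentiableAt ℝ (F.wgt g ω p) y := by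
        unfold Frame.wgt
        have h2 := F.gam_diff hgdd (hpos y)
        have h3 := F.csq_diff ω hgdd (hpos y)
        have h4 := F.gam_pos (hpos y)
        have h5 : 0 < 1 - p ^ 2 * F.csq ω (g y) := by
          have := S.p_lt y (Ioo_subset_Icc_self hy)
          have e : F.csq ω (g y) = F.csq ω (G (y • F.e)) := rfl
          rw [e]; linarith
        apply DifferentiableAt.div
        · exact h2.sqrt h4.ne'
        · exact ((differentiableAt_const _).sub (h3.const_mul _)).sqrt h5.ne'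
        · exact (Real.sqrt_pos.2 h5).ne'
      apply h1.congr_of_eventuallyEq
      filter_upwards [Ioo_mem_nhds hy.1 hy.2] with z hz
      exact S.W_eq z (Ioo_subset_Icc_self hz)
    have hVd : DifferentiableAt ℝ (F.Vf g ω p S.W) y := by
      unfold Frame.Vf
      have h2 := F.ev_diff ω hgdd (hpos y)
      have h3 := F.Bv_diff hgdd (hpos y)
      have h4 : DifferentiableAt ℝ (fun y => (S.W y)⁻¹) y := hWd.inv (S.W_pos y).ne'
      apply DifferentiableAt.add
      · exact F.ι.differentiableAt.comp y ((h2.const_smul p).sub (h4.smul h3))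
      · exact h4.smul_const _
    have hV := hVd.hasDerivAt
    have hvert := F.Vf_vert hpos (hgd y) hV (by
      filter_upwards [Ioo_mem_nhds hy.1 hy.2] with z hz
      exact hen z (Ioo_subset_Icc_self hz))
    -- the derivative
    have h1 : (fun s => G (S.γ x₀ s) (deriv (S.γ x₀) s) w) =
        fun s => p * inner ℝ ω (F.π w) + F.ℓ w * g (S.Y s) (F.Vf g ω p S.W (S.Y s)) F.e := by
      funext s
      rw [F.expand, S.mom hG hinv, hGγ, S.deriv_γ]
    have h2 : HasDerivAt (fun y => g y (F.Vf g ω p S.W y) F.e)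
        (fderiv ℝ G (y • F.e) F.e (F.Vf g ω p S.W y) F.e +
          g y (deriv (F.Vf g ω p S.W) y) F.e) y := by
      have := hasDerivAt_form (hgd y) hV (hasDerivAt_const y F.e)
      rw [map_zero, add_zero] at this
      exact this
    have h3 : HasDerivAt (fun s => g (S.Y s) (F.Vf g ω p S.W (S.Y s)) F.e)
        ((fderiv ℝ G (y • F.e) F.e (F.Vf g ω p S.W y) F.e +
          g y (deriv (F.Vf g ω p S.W) y) F.e) * (S.W y)⁻¹) t :=
      HasDerivAt.comp t h2 (S.hY t)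
    rw [h1]
    have h4 := (h3.const_mul (F.ℓ w)).const_add (p * inner ℝ ω (F.π w))
    refine h4.congr_deriv ?_
    have h5 := (F.hasFDerivAt_of_inv hinv hG.diff (S.γ x₀ t)).2 w
    have h6 : fderiv ℝ G (S.γ x₀ t) F.e = fderiv ℝ G (y • F.e) F.e := by
      have e1 := (F.hasFDerivAt_of_inv hinv hG.diff (S.γ x₀ t)).1
      rw [S.ℓγ] at e1
      exact HasDerivAt.unique (𝕜 := ℝ) (F := Form V) e1 (hgd y)
    rw [h5, h6, S.deriv_γ]
    change F.ℓ w * ((fderiv ℝ G (y • F.e) F.e (F.Vf g ω p S.W y) F.e +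
          g y (deriv (F.Vf g ω p S.W) y) F.e) * (S.W y)⁻¹) = 2⁻¹ * (F.ℓ w *
        fderiv ℝ G (y • F.e) F.e (F.Vf g ω p S.W y) (F.Vf g ω p S.W y))
    linear_combination F.ℓ w * hvert
  · intro t ht
    rw [hGγ, S.deriv_γ]
    exact hen _ (Ioo_subset_Icc_self (hJ t ht))

end Frame

end Pool.Agent.XRay
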