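import Mathlib

/-!
# Linear algebra of a positive definite form on a space with a hyperplane
-/

set_option autoImplicit false

namespace Pool.Agent.XRay

open Set Topology

/-- a splitting `V = E ⊕ ℝ` -/
structure Frame (V E : Type*) [NormedAddCommGroup V] [NormedSpace ℝ V] [NormedAddCommGroup E]
    [InnerProductSpace ℝ E] where
  ι : E →L[ℝ] V
  e : V
  π : V →L[ℝ] E
  ℓ : V →L[ℝ] ℝ
  πι : ∀ x, π (ι x) = x
  ℓι : ∀ x, ℓ (ι x) = 0
  πe : π e = 0
  ℓe : ℓ e = 1
  eq : ∀ v, ι (π v) + ℓ v • e = v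

/-- bilinear forms on `V` -/
abbrev Form (V : Type*) [NormedAddCommGroup V] [NormedSpace ℝ V] := V →L[ℝ] V →L[ℝ] ℝ

/-- symmetric and positive definite -/
structure Form.Pos {V : Type*} [NormedAddCommGroup V] [NormedSpace ℝ V] (g : Form V) : Prop where
  symm : ∀ v w, g v w = g w v
  pos : ∀ v, v ≠ 0 → 0 < g v v

variable {V : Type*} [NormedAddCommGroup V] [NormedSpace ℝ V]
variable {E : Type*} [NormedAddCommGroup E] [InnerProductSpace ℝ E] [FiniteDimensional ℝ E]

namespace Frame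

variable (F : Frame V E)

omit [FiniteDimensional ℝ E] in
theorem e_ne : F.e ≠ 0 := by
  intro h
  have := F.ℓe
  rw [h, map_zero] at this
  exact zero_ne_one this

omit [FiniteDimensional ℝ E] in
theorem ι_inj {x : E} (h : F.ι x = 0) : x = 0 := by
  rw [← F.πι x, h, map_zero]

/-- restriction of a functional to `E` -/
noncomputable def resE : (V →L[ℝ] ℝ) →L[ℝ] E →L[ℝ] ℝ :=
  (ContinuousLinearMap.compL ℝ E V ℝ).flip F.ι

omit [FiniteDimensional ℝ E] in
theorem resE_apply (φ : V →L[ℝ] ℝ) (z : E) : F.resE φ z = φ (F.ι z) := rfl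

/-- restriction of the form to `E` -/
noncomputable def Amap (g : Form V) : E →L[ℝ] E →L[ℝ] ℝ := F.resE.comp (g.comp F.ι)

omit [FiniteDimensional ℝ E] in
theorem Amap_apply (g : Form V) (x z : E) : F.Amap g x z = g (F.ι x) (F.ι z) := rfl

/-- the cross term -/
noncomputable def bmap (g : Form V) : E →L[ℝ] ℝ := F.resE (g F.e)

omit [FiniteDimensional ℝ E] in
theorem bmap_apply (g : Form V) (z : E) : F.bmap g z = g F.e (F.ι z) := rfl

theorem exists_equiv {g : Form V} (hg : g.Pos) :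
    ∃ e : E ≃L[ℝ] (E →L[ℝ] ℝ), (e : E →L[ℝ] E →L[ℝ] ℝ) = F.Amap g := by
  have hinj : Function.Injective (F.Amap g).toLinearMap := by
    rw [← LinearMap.ker_eq_bot, LinearMap.ker_eq_bot']
    intro x hx
    by_contra hne
    have h1 : 0 < g (F.ι x) (F.ι x) := hg.pos _ (fun h => hne (F.ι_inj h))
    have h2 : F.Amap g x x = 0 := by
      have : F.Amap g x = 0 := hx
      rw [this]; rfl
    rw [Amap_apply] at h2
    linarith
  have hdim : Module.finrank ℝ E = Module.finrank ℝ (E →L[ℝ] ℝ) := by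
    rw [← (LinearMap.toContinuousLinearMap (𝕜 := ℝ) (E := E) (F' := ℝ)).finrank_eq]
    exact (Subspace.dual_finrank_eq (K := ℝ) (V := E)).symm
  let e := ((F.Amap g).toLinearMap.linearEquivOfInjective hinj hdim).toContinuousLinearEquiv
  refine ⟨e, ?_⟩
  ext x
  rfl

/-- `A⁻¹ ω` -/
noncomputable def ev (ω : E) (g : Form V) : E := (F.Amap g).inverse (innerSL ℝ ω)

/-- `A⁻¹ b` -/
noncomputable def Bv (g : Form V) : E := (F.Amap g).inverse (F.bmap g)

theorem Amap_ev {g : Form V} (hg : g.Pos) (ω z : E) :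
    g (F.ι (F.ev ω g)) (F.ι z) = inner ℝ ω z := by
  obtain ⟨e, he⟩ := F.exists_equiv hg
  rw [← Amap_apply, ev, ← he, ContinuousLinearMap.inverse_equiv]
  simp

theorem Amap_Bv {g : Form V} (hg : g.Pos) (z : E) : g (F.ι (F.Bv g)) (F.ι z) = g F.e (F.ι z) := by
  obtain ⟨e, he⟩ := F.exists_equiv hg
  rw [← Amap_apply, ← bmap_apply, Bv, ← he, ContinuousLinearMap.inverse_equiv]
  simp

/-- `⟨ω, A⁻¹ ω⟩` -/
noncomputable def csq (ω : E) (g : Form V) : ℝ := inner ℝ ω (F.ev ω g)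

/-- the Schur complement -/
noncomputable def gam (g : Form V) : ℝ := g F.e F.e - g F.e (F.ι (F.Bv g))

theorem ev_ne_zero {g : Form V} (hg : g.Pos) {ω : E} (hω : ω ≠ 0) : F.ev ω g ≠ 0 := by
  intro h
  have h1 := F.Amap_ev hg ω ω
  rw [h, map_zero, map_zero] at h1
  have h3 : inner ℝ ω ω = 0 := h1.symm
  exact hω (inner_self_eq_zero.1 h3)

theorem csq_pos {g : Form V} (hg : g.Pos) {ω : E} (hω : ω ≠ 0) : 0 < F.csq ω g := by
  rw [csq, ← F.Amap_ev hg]
  apply hg.pos
  intro h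
  exact F.ev_ne_zero hg hω (F.ι_inj h)

omit [FiniteDimensional ℝ E] in
/-- expansion of a functional -/
theorem expand (φ : V →L[ℝ] ℝ) (v : V) : φ v = φ (F.ι (F.π v)) + F.ℓ v * φ F.e := by
  conv_lhs => rw [← F.eq v]
  rw [map_add, map_smul, smul_eq_mul]

theorem gam_pos {g : Form V} (hg : g.Pos) : 0 < F.gam g := by
  have h1 : 0 < g (F.e - F.ι (F.Bv g)) (F.e - F.ι (F.Bv g)) := hg.pos _ (by
    intro h
    have h2 := congrArg F.ℓ h
    rw [map_sub, F.ℓe, F.ℓι, map_zero] at h2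
    norm_num at h2)
  have h2 : g (F.e - F.ι (F.Bv g)) (F.e - F.ι (F.Bv g)) = F.gam g := by
    have e1 : ∀ w, g (F.e - F.ι (F.Bv g)) w = g F.e w - g (F.ι (F.Bv g)) w := by
      intro w; rw [map_sub]; rfl
    rw [e1, map_sub, map_sub, F.Amap_Bv hg, hg.symm (F.ι (F.Bv g)) F.e, gam]
    ring
  rwa [h2] at h1

/-! ### differentiability -/

section diff

omit [FiniteDimensional ℝ E] in
/-- differentiability of an evaluation -/
theorem form_apply_diff {W : Type*} [NormedAddCommGroup W] [NormedSpace ℝ W]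
    {g : W → Form V} {z : W} (hd : DifferentiableAt ℝ g z) {v w : W → V}
    (hv : DifferentiableAt ℝ v z) (hw : DifferentiableAt ℝ w z) :
    DifferentiableAt ℝ (fun y => g y (v y) (w y)) z := by
  have h1 : DifferentiableAt ℝ (fun y => g y (v y)) z :=
    DifferentiableAt.clm_apply (𝕜 := ℝ) (E := W) (G := V) (H := V →L[ℝ] ℝ) (c := g)
      (u := v) hd hv
  exact DifferentiableAt.clm_apply (𝕜 := ℝ) (E := W) (G := V) (H := ℝ)
    (c := fun y => g y (v y)) (u := w) h1 hw

variable {g : ℝ → Form V} {y : ℝ}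

omit [FiniteDimensional ℝ E] in
theorem Amap_diff (hd : DifferentiableAt ℝ g y) :
    DifferentiableAt ℝ (fun y => F.Amap (g y)) y := by
  unfold Amap
  have h1 := DifferentiableAt.clm_comp (𝕜 := ℝ) (E := ℝ) (F := E) (G := V)
    (H := V →L[ℝ] ℝ) (c := g) (d := fun _ => F.ι) hd
    (differentiableAt_const _)
  exact DifferentiableAt.clm_comp (𝕜 := ℝ) (E := ℝ) (F := E) (G := V →L[ℝ] ℝ)
    (H := E →L[ℝ] ℝ) (c := fun _ => F.resE) (differentiableAt_const _) h1

omit [FiniteDimensional ℝ E] in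
theorem bmap_diff (hd : DifferentiableAt ℝ g y) :
    DifferentiableAt ℝ (fun y => F.bmap (g y)) y := by
  unfold bmap
  have h1 := DifferentiableAt.clm_apply (𝕜 := ℝ) (E := ℝ) (G := V) (H := V →L[ℝ] ℝ)
    (c := g) (u := fun _ => F.e) hd (differentiableAt_const _)
  exact DifferentiableAt.clm_apply (𝕜 := ℝ) (E := ℝ) (G := V →L[ℝ] ℝ) (H := E →L[ℝ] ℝ)
    (c := fun _ => F.resE) (differentiableAt_const _) h1

theorem inverse_diff (hd : DifferentiableAt ℝ g y) (hg : (g y).Pos) :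
    DifferentiableAt ℝ (fun y => (F.Amap (g y)).inverse) y := by
  obtain ⟨e, he⟩ := F.exists_equiv hg
  have h1 : ContDiffAt ℝ 1 ContinuousLinearMap.inverse (e : E →L[ℝ] E →L[ℝ] ℝ) :=
    contDiffAt_map_inverse e
  rw [he] at h1
  have h2 := h1.differentiableAt one_ne_zero
  exact DifferentiableAt.comp (𝕜 := ℝ) (E := ℝ) (F := E →L[ℝ] E →L[ℝ] ℝ)
    (G := (E →L[ℝ] ℝ) →L[ℝ] E) (f := fun y => F.Amap (g y)) (g := ContinuousLinearMap.inverse)
    y h2 (F.Amap_diff hd)

theorem ev_diff (ω : E) (hd : DifferentiableAt ℝ g y) (hg : (g y).Pos) :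
    DifferentiableAt ℝ (fun y => F.ev ω (g y)) y := by
  unfold ev
  exact DifferentiableAt.clm_apply (𝕜 := ℝ) (E := ℝ) (G := E →L[ℝ] ℝ) (H := E)
    (F.inverse_diff hd hg) (differentiableAt_const _)

theorem Bv_diff (hd : DifferentiableAt ℝ g y) (hg : (g y).Pos) :
    DifferentiableAt ℝ (fun y => F.Bv (g y)) y := by
  unfold Bv
  exact DifferentiableAt.clm_apply (𝕜 := ℝ) (E := ℝ) (G := E →L[ℝ] ℝ) (H := E)
    (F.inverse_diff hd hg) (F.bmap_diff hd)

theorem csq_diff (ω : E) (hd : DifferentiableAt ℝ g y) (hg : (g y).Pos) :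
    DifferentiableAt ℝ (fun y => F.csq ω (g y)) y := by
  unfold csq
  exact (differentiableAt_const _).inner ℝ (F.ev_diff ω hd hg)

theorem gam_diff (hd : DifferentiableAt ℝ g y) (hg : (g y).Pos) :
    DifferentiableAt ℝ (fun y => F.gam (g y)) y := by
  unfold gam
  apply DifferentiableAt.sub
  · exact form_apply_diff hd (differentiableAt_const _) (differentiableAt_const _)
  · exact form_apply_diff hd (differentiableAt_const _)
      (F.ι.differentiableAt.comp y (F.Bv_diff hd hg))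

end diff

end Frame

end Pool.Agent.XRay
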