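import Pool.Agent.Lib_helper92.XRay.Analytic

/-!
# The uniqueness theorem for the one dimensional problem
-/

set_option autoImplicit false

namespace Pool.Agent.XRay

open Complex Filter Topology MeasureTheory Metric Set

namespace Data

variable {D : Data}

/-- bound in the upper half plane -/
theorem norm_u_up {p : ℂ} (hp : 0 < p.im) {ξ : ℝ} (hξ : 0 < ξ) {y : ℝ} (hy : y ∈ Icc D.a D.b) :
    ‖D.u p ξ y‖ ≤ ∫ s in D.a..D.b, ‖D.h ξ s * D.om p s‖ := by
  have hA : p ∈ Adm D.c₁ := Or.inl hp.ne'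
  have h := norm_U_le (k_int hA ξ) (θ_int hA ξ) D.hab.le (L := 0) hy (by
    intro s hs
    have hsI : s ∈ Icc D.a D.b := ⟨hy.1.trans hs.1, hs.2⟩
    rw [re_integral (sub_int (θ_int hA ξ) hy hsI)]
    suffices h0 : 0 ≤ ∫ r in y..s, -(I * ξ * D.ph p r).re by
      rw [intervalIntegral.integral_neg] at h0
      linarith
    apply intervalIntegral.integral_nonneg hs.1
    intro r _
    have h1 := im_div_rt_nonneg (D.c_pos r) hp
    have h2 : (I * ξ * D.ph p r).re = -(ξ * (D.α r * (p / rt p (D.c r)).im)) := by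
      have : I * ξ * D.ph p r = ((ξ * D.α r : ℝ) : ℂ) * (I * (p / rt p (D.c r))) := by
        rw [ph]; push_cast; ring
      rw [this, re_ofReal_mul, I_mul_re]; ring
    rw [h2]
    have := D.α_pos r
    have : 0 ≤ ξ * (D.α r * (p / rt p (D.c r)).im) := by positivity
    linarith)
  rw [Real.exp_zero, mul_one] at h
  exact h

theorem norm_u_down (hz : ∀ p ∈ Adm D.c₁, ∀ ξ, D.u p ξ D.a = 0) {p : ℂ} (hp : 0 < p.im) {ξ : ℝ}
    (hξ : 0 < ξ) {y : ℝ} (hy : y ∈ Icc D.a D.b) :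
    ‖D.u (-p) ξ y‖ ≤ ∫ s in D.a..D.b, ‖D.h ξ s * D.om p s‖ := by
  have hA : -p ∈ Adm D.c₁ := Or.inl (by rw [neg_im]; simpa using hp.ne')
  have h := norm_U_le' (k_int hA ξ) (θ_int hA ξ) D.hab.le (L := 0) (hz _ hA ξ) hy (by
    intro s hs
    have hsI : s ∈ Icc D.a D.b := ⟨hs.1, hs.2.trans hy.2⟩
    rw [re_integral (sub_int (θ_int hA ξ) hsI hy), neg_zero]
    apply intervalIntegral.integral_nonneg hs.2
    intro r _
    have h1 := im_div_rt_nonneg (D.c_pos r) hp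
    have h2 : (I * ξ * D.ph (-p) r).re = ξ * (D.α r * (p / rt p (D.c r)).im) := by
      have : I * ξ * D.ph (-p) r = ((-(ξ * D.α r) : ℝ) : ℂ) * (I * (p / rt p (D.c r))) := by
        rw [ph_neg, ph]; push_cast; ring
      rw [this, re_ofReal_mul, I_mul_re]; ring
    rw [h2]
    have := D.α_pos r
    positivity)
  rw [Real.exp_zero, mul_one] at h
  unfold u
  simp only [om_neg] at h ⊢
  exact h

/-- the odd part in the momentum -/
noncomputable def E (D : Data) (ξ : ℝ) (y : ℝ) (p : ℂ) : ℂ := D.u p ξ y - D.u (-p) ξ y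

theorem E_diff {p : ℂ} (hp : 0 < p.im) (ξ : ℝ) {y : ℝ} (hy : y ∈ Icc D.a D.b) :
    DifferentiableAt ℂ (D.E ξ y) p := by
  have hA : p ∈ Adm D.c₁ := Or.inl hp.ne'
  have hA' : -p ∈ Adm D.c₁ := Or.inl (by rw [neg_im]; simpa using hp.ne')
  unfold E
  apply (u_diff hA ξ hy).sub
  have h1 := u_diff hA' ξ hy
  exact h1.comp p differentiableAt_id.neg

theorem norm_E_le (hz : ∀ p ∈ Adm D.c₁, ∀ ξ, D.u p ξ D.a = 0) {p : ℂ} (hp : 0 < p.im) {ξ : ℝ}
    (hξ : 0 < ξ) {y : ℝ} (hy : y ∈ Icc D.a D.b) :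
    ‖D.E ξ y p‖ ≤ 2 * ∫ s in D.a..D.b, ‖D.h ξ s * D.om p s‖ := by
  have h1 := norm_u_up hp hξ hy
  have h2 := norm_u_down hz hp hξ hy
  have h3 := norm_sub_le (D.u p ξ y) (D.u (-p) ξ y)
  unfold E
  linarith

theorem exists_β_bound (D : Data) : ∃ B : ℝ, 0 ≤ B ∧ ∀ s ∈ Icc D.a D.b, D.β s ≤ B := by
  obtain ⟨y, _, h⟩ := isCompact_Icc.exists_isMaxOn (nonempty_Icc.2 D.hab.le) D.hβ.continuousOn
  exact ⟨D.β y, (D.β_pos y).le, fun s hs => h hs⟩

theorem hb_real (D : Data) (ξ s : ℝ) : ‖D.h ξ s‖ ≤ D.H := by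
  have := D.hb ξ s
  simpa using this

/-- uniform bound on `Im p ≥ ε` -/
theorem exists_E_bound (hz : ∀ p ∈ Adm D.c₁, ∀ ξ, D.u p ξ D.a = 0) {ξ : ℝ}
    (hξ : 0 < ξ) {y : ℝ} (hy : y ∈ Icc D.a D.b) {ε : ℝ} (hε : 0 < ε) :
    ∃ B : ℝ, ∀ p : ℂ, ε ≤ p.im → ‖D.E ξ y p‖ ≤ B := by
  obtain ⟨B, hB0, hB⟩ := D.exists_β_bound
  refine ⟨2 * ∫ _ in D.a..D.b, D.H * (B / (ε * D.c₀)), fun p hp => ?_⟩
  have hpos : 0 < p.im := lt_of_lt_of_le hε hp
  refine (norm_E_le hz hpos hξ hy).trans ?_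
  gcongr
  apply intervalIntegral.integral_mono_on D.hab.le
    (k_int (Or.inl hpos.ne') ξ).norm intervalIntegrable_const
  intro s hs
  rw [norm_mul, norm_om]
  have h1 := hb_real D ξ s
  have h2 := hB s hs
  have h3 : ε * D.c₀ ≤ ‖rt p (D.c s)‖ := by
    refine le_trans ?_ (le_norm_rt_im hs)
    rw [abs_of_pos hpos]
    have := D.c₀_pos
    gcongr
  have h4 := D.H_nonneg
  have h5 := D.c₀_pos
  have h6 := (D.β_pos s).le
  have h7 : D.β s / ‖rt p (D.c s)‖ ≤ B / (ε * D.c₀) := by gcongr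
  gcongr

/-- domination near the real axis -/
theorem norm_E_le_wt (hz : ∀ p ∈ Adm D.c₁, ∀ ξ, D.u p ξ D.a = 0) {ξ : ℝ}
    (hξ : 0 < ξ) {y : ℝ} (hy : y ∈ Icc D.a D.b) {B : ℝ} (hB0 : 0 ≤ B)
    (hB : ∀ s ∈ Icc D.a D.b, D.β s ≤ B) {t : ℝ} (hg : D.Good |t|)
    {p : ℂ} (hp : 0 < p.im) (hpt : p.re ^ 2 = t ^ 2) :
    ‖D.E ξ y p‖ ≤ 2 * (D.H * B) * ∫ s in D.a..D.b, wt t (D.c s) := by
  have hwt : ∀ s, wt |t| (D.c s) = wt t (D.c s) := by
    intro s; rw [wt, wt, sq_abs]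
  have hint : IntervalIntegrable (fun s => wt t (D.c s)) volume D.a D.b := by
    have := hg.int
    simpa only [hwt] using this
  refine (norm_E_le hz hp hξ hy).trans ?_
  have e0 : 2 * (D.H * B) * ∫ s in D.a..D.b, wt t (D.c s) =
      2 * ∫ s in D.a..D.b, (D.H * B) * wt t (D.c s) := by
    rw [intervalIntegral.integral_const_mul]; ring
  rw [e0]
  gcongr
  apply intervalIntegral.integral_mono_ae_restrict D.hab.le (k_int (Or.inl hp.ne') ξ).norm
    (hint.const_mul _)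
  have h0 : ∀ᵐ s ∂(volume.restrict (Icc D.a D.b)), |t| * D.c s ≠ 1 := by
    rw [← Measure.restrict_congr_set Ioc_ae_eq_Icc]; exact hg.ne
  filter_upwards [h0, ae_restrict_mem measurableSet_Icc] with s hs hsI
  rw [norm_mul, norm_om, div_eq_mul_inv]
  have h1 := hb_real D ξ s
  have h2 := hB s hsI
  have h3 : ‖rt p (D.c s)‖⁻¹ ≤ wt t (D.c s) := by
    rw [← hwt]
    apply inv_norm_rt_le
    · rw [sq_abs]; exact hpt
    · exact sq_ne hg hs
  have h4 := D.H_nonneg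
  have h5 := (D.β_pos s).le
  calc ‖D.h ξ s‖ * (D.β s * ‖rt p (D.c s)‖⁻¹) ≤ D.H * (B * wt t (D.c s)) := by gcongr
    _ = _ := by ring

/-- almost every real number is good -/
theorem ae_good (D : Data) : ∀ᵐ t : ℝ, D.Good |t| := by
  obtain ⟨h1, _, h3⟩ := level D.hab.le D.hc D.c₀_pos (fun y hy => D.c_bd hy)
  have h3' := (Measure.measurePreserving_neg (volume : Measure ℝ)).quasiMeasurePreserving.ae h3
  have h4 : ∀ᵐ t : ℝ, t ≠ 0 := by simp [ae_iff, measure_singleton]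
  filter_upwards [h1, h3, h3', h4] with t ht1 ht3 ht3' ht4
  have hwt : ∀ s, wt |t| (D.c s) = wt t (D.c s) := by
    intro s; rw [wt, wt, sq_abs]
  refine ⟨abs_pos.2 ht4, by simpa only [hwt] using ht1, ?_⟩
  rcases abs_choice t with h | h
  · rw [h]; exact ht3
  · rw [h]; exact ht3'

theorem uB_left_zero (hz : ∀ p ∈ Adm D.c₁, ∀ ξ, D.u p ξ D.a = 0) {t : ℝ} (hg : D.Good t)
    (σ τ : ℝ) (hs : Sgn σ τ) (ξ : ℂ) : D.uB σ τ t ξ D.a = 0 := by
  have h1 := u_tendsto hg hs ξ (left_mem_Icc.2 D.hab.le)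
  apply tendsto_nhds_unique h1
  apply tendsto_const_nhds.congr'
  filter_upwards [self_mem_nhdsWithin] with ε hε
  rw [hz]
  left
  rw [bp_im]
  have hε' : (0 : ℝ) < ε := hε
  rcases hs.hτ with rfl | rfl
  · linarith
  · intro h; linarith

/-- the boundary values of the odd part cancel -/
theorem E_boundary (hz : ∀ p ∈ Adm D.c₁, ∀ ξ, D.u p ξ D.a = 0) {t : ℝ} (hg : D.Good |t|)
    (ξ : ℝ) {y : ℝ} (hy : y ∈ Icc D.a D.b) :
    Tendsto (fun ε : ℝ => D.E ξ y ((t : ℂ) + ε * I) + D.E ξ y (((-t : ℝ) : ℂ) + ε * I)) (𝓝[>] 0)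
      (𝓝 0) := by
  -- reduction to `t > 0`
  have key : ∀ t : ℝ, D.Good t → Tendsto (fun ε : ℝ => D.E ξ y ((t : ℂ) + ε * I) +
      D.E ξ y (((-t : ℝ) : ℂ) + ε * I)) (𝓝[>] 0) (𝓝 0) := by
    intro t hg
    have s1 : Sgn 1 1 := ⟨Or.inl rfl, Or.inl rfl⟩
    have s2 : Sgn 1 (-1) := ⟨Or.inl rfl, Or.inr rfl⟩
    have s3 : Sgn (-1) 1 := ⟨Or.inr rfl, Or.inl rfl⟩
    have s4 : Sgn (-1) (-1) := ⟨Or.inr rfl, Or.inr rfl⟩
    have l1 := u_tendsto hg s1 ξ hy
    have l2 := u_tendsto hg s2 ξ hy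
    have l3 := u_tendsto hg s3 ξ hy
    have l4 := u_tendsto hg s4 ξ hy
    have hc := cancel hg (uB_left_zero hz hg) ξ hy
    have l5 := (l1.sub l4).add (l3.sub l2)
    have e1 : D.uB 1 1 t ξ y - D.uB (-1) (-1) t ξ y + (D.uB (-1) 1 t ξ y - D.uB 1 (-1) t ξ y) =
        0 := by
      unfold Df at hc
      linear_combination hc
    rw [e1] at l5
    refine l5.congr fun ε => ?_
    unfold E
    have f1 : bp 1 1 t ε = (t : ℂ) + ε * I := by rw [bp]; push_cast; ring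
    have f2 : bp (-1) (-1) t ε = -((t : ℂ) + ε * I) := by rw [bp]; push_cast; ring
    have f3 : bp (-1) 1 t ε = ((-t : ℝ) : ℂ) + ε * I := by rw [bp]; push_cast; ring
    have f4 : bp 1 (-1) t ε = -(((-t : ℝ) : ℂ) + ε * I) := by rw [bp]; push_cast; ring
    rw [f1, f2, f3, f4]
  rcases abs_choice t with h | h
  · rw [h] at hg; exact key t hg
  · rw [h] at hg
    have := key (-t) hg
    rw [neg_neg] at this
    refine this.congr fun ε => ?_
    rw [add_comm]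

/-- **the odd part vanishes at `p = i`** -/
theorem E_I (hz : ∀ p ∈ Adm D.c₁, ∀ ξ, D.u p ξ D.a = 0) {ξ : ℝ}
    (hξ : 0 < ξ) {y : ℝ} (hy : y ∈ Icc D.a D.b) : D.E ξ y I = 0 := by
  obtain ⟨B, hB0, hB⟩ := D.exists_β_bound
  have hlev := (level D.hab.le D.hc D.c₀_pos (fun y hy => D.c_bd hy)).2.1
  -- the Poisson formula at level `ε`
  set J : ℝ → ℝ → ℂ := fun ε t => (((1 + t ^ 2)⁻¹ : ℝ) : ℂ) *
    (D.E ξ y ((t : ℂ) + ε * I) + D.E ξ y (((-t : ℝ) : ℂ) + ε * I)) with hJ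
  have hcontE : ∀ ε : ℝ, 0 < ε → Continuous (fun t : ℝ => D.E ξ y ((t : ℂ) + ε * I)) := by
    intro ε hε
    rw [continuous_iff_continuousAt]
    intro t
    have h1 : DifferentiableAt ℂ (D.E ξ y) ((t : ℂ) + ε * I) := E_diff (by simpa using hε) ξ hy
    apply ContinuousAt.comp (f := fun t : ℝ => ((t : ℂ) + ε * I)) (g := D.E ξ y) h1.continuousAt
    fun_prop
  have hkcont : Continuous (fun t : ℝ => (((1 + t ^ 2)⁻¹ : ℝ) : ℂ)) := by
    apply Complex.continuous_ofReal.comp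
    apply Continuous.inv₀ (by fun_prop)
    intro t; positivity
  have hpois : ∀ ε : ℝ, 0 < ε → ∫ t : ℝ, J ε t = 2 * (Real.pi * D.E ξ y (I + ε * I)) := by
    intro ε hε
    obtain ⟨Bε, hBε⟩ := exists_E_bound hz hξ hy hε
    have h1 := poisson (F := fun z => D.E ξ y (z + ε * I)) (δ := ε / 2) (B := Bε) (by positivity)
      (by
        intro z hz
        have h2 : DifferentiableAt ℂ (D.E ξ y) (z + ε * I) := by
          apply E_diff _ ξ hy
          simp only [add_im, mul_im, ofReal_re, I_im, mul_one, ofReal_im, I_re, mul_zero, add_zero]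
          linarith
        exact DifferentiableAt.comp (f := fun z => z + (ε : ℂ) * I) z h2 (by fun_prop))
      (by
        intro z hz
        apply hBε
        simp only [add_im, mul_im, ofReal_re, I_im, mul_one, ofReal_im, I_re, mul_zero, add_zero]
        linarith)
    have hi : Integrable (fun t : ℝ => (((1 + t ^ 2)⁻¹ : ℝ) : ℂ) * D.E ξ y ((t : ℂ) + ε * I)) := by
      apply (integrable_inv_one_add_sq.mul_const Bε).mono'
      · exact (hkcont.mul (hcontE ε hε)).aestronglyMeasurable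
      · filter_upwards with t
        rw [norm_mul, norm_real, Real.norm_of_nonneg (by positivity)]
        gcongr
        apply hBε
        simp
    have h2 : ∫ t : ℝ, (((1 + t ^ 2)⁻¹ : ℝ) : ℂ) * D.E ξ y (((-t : ℝ) : ℂ) + ε * I) =
        ∫ t : ℝ, (((1 + t ^ 2)⁻¹ : ℝ) : ℂ) * D.E ξ y ((t : ℂ) + ε * I) := by
      rw [← integral_neg_eq_self (fun t : ℝ => (((1 + t ^ 2)⁻¹ : ℝ) : ℂ) *
        D.E ξ y ((t : ℂ) + ε * I)) volume]
      simp only [neg_sq]
    have hi2 : Integrable (fun t : ℝ => (((1 + t ^ 2)⁻¹ : ℝ) : ℂ) *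
        D.E ξ y (((-t : ℝ) : ℂ) + ε * I)) := by
      have := hi.comp_neg
      simpa only [neg_sq] using this
    rw [hJ]
    simp only [mul_add]
    rw [integral_add hi hi2, h2, h1]
    ring
  -- the left hand side tends to zero
  have hlim1 : Tendsto (fun ε : ℝ => ∫ t : ℝ, J ε t) (𝓝[>] 0) (𝓝 (∫ _ : ℝ, (0 : ℂ))) := by
    apply tendsto_integral_filter_of_dominated_convergence
      (fun t => 4 * (D.H * B) * ((1 + t ^ 2)⁻¹ * ∫ s in D.a..D.b, wt t (D.c s)))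
    · filter_upwards [self_mem_nhdsWithin] with ε hε
      have h1 := hcontE ε hε
      have h2 : Continuous (fun t : ℝ => D.E ξ y (((-t : ℝ) : ℂ) + ε * I)) :=
        h1.comp continuous_neg
      exact (hkcont.mul (h1.add h2)).aestronglyMeasurable
    · filter_upwards [self_mem_nhdsWithin] with ε hε
      have hε' : (0 : ℝ) < ε := hε
      filter_upwards [D.ae_good] with t ht
      rw [hJ]
      simp only []
      rw [norm_mul, norm_real, Real.norm_of_nonneg (by positivity)]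
      have b1 := norm_E_le_wt hz hξ hy hB0 hB ht (p := (t : ℂ) + ε * I) (by simpa using hε')
        (by simp)
      have b2 := norm_E_le_wt hz hξ hy hB0 hB ht (p := ((-t : ℝ) : ℂ) + ε * I)
        (by simpa using hε') (by simp)
      have b3 := norm_add_le (D.E ξ y ((t : ℂ) + ε * I)) (D.E ξ y (((-t : ℝ) : ℂ) + ε * I))
      have b4 : (0 : ℝ) < (1 + t ^ 2)⁻¹ := by positivity
      calc (1 + t ^ 2)⁻¹ * ‖D.E ξ y ((t : ℂ) + ε * I) + D.E ξ y (((-t : ℝ) : ℂ) + ε * I)‖ ≤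
          (1 + t ^ 2)⁻¹ * (4 * (D.H * B) * ∫ s in D.a..D.b, wt t (D.c s)) := by
            gcongr
            linarith
        _ = _ := by ring
    · exact hlev.const_mul _
    · filter_upwards [D.ae_good] with t ht
      have h1 := E_boundary hz ht ξ hy
      have h2 := h1.const_mul (((1 + t ^ 2)⁻¹ : ℝ) : ℂ)
      rw [mul_zero] at h2
      exact h2
  rw [integral_zero] at hlim1
  have hlim2 : Tendsto (fun ε : ℝ => 2 * (Real.pi * D.E ξ y (I + ε * I))) (𝓝[>] 0)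
      (𝓝 (2 * (Real.pi * D.E ξ y I))) := by
    apply Tendsto.const_mul
    apply Tendsto.const_mul
    have h1 : ContinuousAt (D.E ξ y) I := (E_diff (by simp) ξ hy).continuousAt
    have h2 : Tendsto (fun ε : ℝ => I + ε * I) (𝓝[>] 0) (𝓝 I) := by
      apply tendsto_nhdsWithin_of_tendsto_nhds
      have h3 : Continuous (fun ε : ℝ => I + (ε : ℂ) * I) := by fun_prop
      have h4 := h3.tendsto 0
      simpa using h4
    exact h1.tendsto.comp h2
  have hlim3 : Tendsto (fun ε : ℝ => 2 * (Real.pi * D.E ξ y (I + ε * I))) (𝓝[>] 0) (𝓝 0) := by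
    apply hlim1.congr'
    filter_upwards [self_mem_nhdsWithin] with ε hε using hpois ε hε
  have h1 := tendsto_nhds_unique hlim2 hlim3
  have h2 : (Real.pi : ℂ) ≠ 0 := by exact_mod_cast Real.pi_ne_zero
  simpa [h2] using h1

end Data

end Pool.Agent.XRay
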