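import Pool.Agent.Lib_helper92.XRay.Exist
import Pool.Agent.Lib_helper92.XRay.Comp

/-!
# Vanishing of the integrals along the steep curves
-/

set_option autoImplicit false

namespace Pool.Agent.XRay

open Set Topology MeasureTheory Filter

variable {V : Type*} [NormedAddCommGroup V] [NormedSpace ℝ V] [MeasurableSpace V] [BorelSpace V]
variable {E : Type*} [NormedAddCommGroup E] [InnerProductSpace ℝ E] [FiniteDimensional ℝ E]

/-- the integrals of `f` vanish along the maximal segments in `M` of the unit speed geodesics with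
horizontal momentum at most `δ` -/
def ZeroData (F : Frame V E) (G : V → Form V) (M : Set V) (f : V → ℝ) (δ : ℝ) : Prop :=
  ∀ (γ : ℝ → V) (u v s t : ℝ), u < s → s < t → t < v → UnitGeodesicOn G γ (Ioo u v) →
    (∀ τ ∈ Ioo u v, ∀ x : E, |G (γ τ) (deriv γ τ) (F.ι x)| ≤ δ * ‖x‖) →
    MaximalSegment M γ s t → ∫ τ in s..t, f (γ τ) = 0

namespace Frame

variable {F : Frame V E} {G : V → Form V} {M : Set V} {f : V → ℝ} {δ : ℝ}

omit [MeasurableSpace V] [BorelSpace V] [FiniteDimensional ℝ E] in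
theorem Steep.σ_cont {ω : E} {p a' b' : ℝ} (S : F.Steep G ω p a' b') (x₀ : E) :
    Continuous (fun y => F.ι (x₀ + S.X y) + y • F.e) := by
  have h1 : Continuous S.X := by
    rw [continuous_iff_continuousAt]
    exact fun y => (S.hX y).continuousAt
  fun_prop

theorem steep_integral (hG : IsMetric G) (hinv : ∀ (x : E) (z : V), G (z + F.ι x) = G z)
    (hM : IsCompact M) (hf : ContinuousOn f M) (h0 : ZeroData F G M f δ)
    {ω : E} {p a' b' a b : ℝ} (haa : a' ≤ a) (hab : a ≤ b) (hbb : b ≤ b')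
    (hMa : ∀ v ∈ M, F.ℓ v ≠ a) (hMb : ∀ v ∈ M, F.ℓ v ≠ b) (hp : |p| * ‖ω‖ ≤ δ)
    (S : F.Steep G ω p a' b') (hW : Continuous S.W) {T : ℝ → ℝ} (hT : StrictMono T)
    (hTd : ∀ y, HasDerivAt T (S.W y) y) (hYT : ∀ y, S.Y (T y) = y) (hTY : ∀ t, T (S.Y t) = t)
    (x₀ : E) (hfr : ∀ᵐ y ∂(volume.restrict (Ioc a b)),
      F.ι (x₀ + S.X y) + y • F.e ∉ frontier M) :
    ∫ y in a..b, M.indicator f (F.ι (x₀ + S.X y) + y • F.e) * S.W y = 0 := by
  obtain ⟨Cf, hCf⟩ := hM.exists_bound_of_continuousOn hf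
  have hℓ : ∀ y, F.ℓ (F.ι (x₀ + S.X y) + y • F.e) = y := by
    intro y
    rw [map_add, F.ℓι, map_smul, F.ℓe, smul_eq_mul, mul_one, zero_add]
  apply integral_eq_zero_of_segments hM.isClosed hf (Cf := Cf) hCf hab (S.σ_cont x₀)
    (fun h => hMa _ h (hℓ a)) (fun h => hMb _ h (hℓ b)) hW hfr
  intro y₁ y₂ h1 h12 h2 hmem hl hr
  have hTc : Continuous T := by
    rw [continuous_iff_continuousAt]; exact fun y => (hTd y).continuousAt
  have hγT : ∀ y, S.γ x₀ (T y) = F.ι (x₀ + S.X y) + y • F.e := by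
    intro y; rw [Steep.γ, hYT]
  have hgeo : UnitGeodesicOn G (S.γ x₀) (Ioo (T a) (T b)) := by
    apply S.geodesic hG hinv
    intro t ht
    rw [← hTY t] at ht
    have h3 := hT.lt_iff_lt.1 ht.1
    have h4 := hT.lt_iff_lt.1 ht.2
    exact ⟨lt_of_le_of_lt haa h3, lt_of_lt_of_le h4 hbb⟩
  have hmax : MaximalSegment M (S.γ x₀) (T y₁) (T y₂) := by
    refine ⟨?_, ?_, ?_⟩
    · intro τ hτ
      rw [← hTY τ] at hτ
      have h3 := hT.le_iff_le.1 hτ.1
      have h4 := hT.le_iff_le.1 hτ.2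
      exact hmem _ ⟨h3, h4⟩
    · intro ε hε
      obtain ⟨ε', hε', hc⟩ := Metric.continuous_iff.1 hTc y₁ ε hε
      obtain ⟨y, hy, hyM⟩ := hl ε' hε'
      refine ⟨T y, ⟨?_, hT hy.2⟩, by rw [hγT]; exact hyM⟩
      have h3 := hc y (by rw [Real.dist_eq, abs_sub_lt_iff]; constructor <;> linarith [hy.1, hy.2])
      rw [Real.dist_eq, abs_sub_lt_iff] at h3
      linarith [h3.2]
    · intro ε hε
      obtain ⟨ε', hε', hc⟩ := Metric.continuous_iff.1 hTc y₂ ε hε
      obtain ⟨y, hy, hyM⟩ := hr ε' hε'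
      refine ⟨T y, ⟨hT hy.1, ?_⟩, by rw [hγT]; exact hyM⟩
      have h3 := hc y (by rw [Real.dist_eq, abs_sub_lt_iff]; constructor <;> linarith [hy.1, hy.2])
      rw [Real.dist_eq, abs_sub_lt_iff] at h3
      linarith [h3.1]
  have hz := h0 (S.γ x₀) (T a) (T b) (T y₁) (T y₂) (hT h1) (hT h12) (hT h2) hgeo (by
    intro τ _ x
    rw [S.mom hG hinv, abs_mul]
    calc |p| * |inner ℝ ω x| ≤ |p| * (‖ω‖ * ‖x‖) := by
          apply mul_le_mul_of_nonneg_left (abs_real_inner_le_norm ω x) (abs_nonneg _)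
      _ = (|p| * ‖ω‖) * ‖x‖ := by ring
      _ ≤ δ * ‖x‖ := mul_le_mul_of_nonneg_right hp (norm_nonneg _)) hmax
  rw [← hz]
  have hcv := intervalIntegral.integral_comp_mul_deriv'' (a := y₁) (b := y₂) (f := T) (f' := S.W)
    (g := fun τ => f (S.γ x₀ τ)) hTc.continuousOn (fun y _ => (hTd y).hasDerivWithinAt)
    hW.continuousOn (by
      apply hf.comp
      · have : Continuous (S.γ x₀) := by
          rw [continuous_iff_continuousAt]
          exact fun t => (S.hγ x₀ t).continuousAt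
        exact this.continuousOn
      · rintro _ ⟨y, hy, rfl⟩
        rw [uIcc_of_le h12.le] at hy
        rw [hγT]
        exact hmem y hy)
  rw [← hcv]
  apply intervalIntegral.integral_congr
  intro y _
  simp only [Function.comp]
  rw [hγT]

end Frame

end Pool.Agent.XRay
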