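import Pool.Agent.Lib_helper92.XRay.Hol

/-!
# The transport integral `U b k θ y = ∫_y^b k(s) exp(∫_y^s θ) ds`
-/

set_option autoImplicit false

namespace Pool.Agent.XRay

open Complex Filter Topology MeasureTheory Metric Set

/-- `∫_y^b k(s) exp(∫_y^s θ) ds` -/
noncomputable def U (b : ℝ) (k θ : ℝ → ℂ) (y : ℝ) : ℂ :=
  ∫ s in y..b, k s * exp (∫ r in y..s, θ r)

variable {a b : ℝ} {k θ : ℝ → ℂ}

theorem sub_int {E : Type*} [NormedAddCommGroup E] {f : ℝ → E} (hf : IntervalIntegrable f volume a b)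
    {x y : ℝ} (hx : x ∈ Icc a b) (hy : y ∈ Icc a b) : IntervalIntegrable f volume x y := by
  apply hf.mono_set
  have hab : a ≤ b := hx.1.trans hx.2
  rw [uIcc_of_le hab]
  exact uIcc_subset_Icc hx hy

theorem prim_cont (hθ : IntervalIntegrable θ volume a b) (hab : a ≤ b) {y : ℝ} (hy : y ∈ Icc a b) :
    ContinuousOn (fun s => ∫ r in y..s, θ r) (Icc a b) := by
  have h1 : ContinuousOn (fun s => ∫ r in a..s, θ r) (Icc a b) := by
    rw [← uIcc_of_le hab]
    apply intervalIntegral.continuousOn_primitive_interval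
    rw [uIcc_of_le hab, integrableOn_Icc_iff_integrableOn_Ioc,
      ← intervalIntegrable_iff_integrableOn_Ioc_of_le hab]
    exact hθ
  have h2 : ContinuousOn (fun s => (∫ r in a..s, θ r) - ∫ r in a..y, θ r) (Icc a b) :=
    h1.sub continuousOn_const
  refine h2.congr fun s hs => ?_
  have := intervalIntegral.integral_add_adjacent_intervals (sub_int hθ (left_mem_Icc.2 hab) hy)
    (sub_int hθ hy hs)
  simp only []
  rw [← this]
  ring

theorem integrand_int (hk : IntervalIntegrable k volume a b) (hθ : IntervalIntegrable θ volume a b)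
    (hab : a ≤ b) {y : ℝ} (hy : y ∈ Icc a b) :
    IntervalIntegrable (fun s => k s * exp (∫ r in y..s, θ r)) volume a b := by
  apply hk.mul_continuousOn
  rw [uIcc_of_le hab]
  exact (prim_cont hθ hab hy).cexp

/-- representation with a fixed base point -/
theorem U_eq (hθ : IntervalIntegrable θ volume a b)
    (hab : a ≤ b) {y : ℝ} (hy : y ∈ Icc a b) :
    U b k θ y = exp (-∫ r in a..y, θ r) * ∫ s in y..b, k s * exp (∫ r in a..s, θ r) := by
  rw [U, ← intervalIntegral.integral_const_mul]
  apply intervalIntegral.integral_congr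
  intro s hs
  have hs' : s ∈ Icc a b := by
    rw [uIcc_of_le hy.2] at hs
    exact ⟨hy.1.trans hs.1, hs.2⟩
  have h1 := intervalIntegral.integral_add_adjacent_intervals
    (sub_int hθ (left_mem_Icc.2 hab) hy) (sub_int hθ hy hs')
  simp only []
  rw [← h1, exp_add]
  have h2 : exp (-∫ r in a..y, θ r) * exp (∫ r in a..y, θ r) = 1 := by
    rw [← exp_add, neg_add_cancel, exp_zero]
  linear_combination (-(k s * exp (∫ r in y..s, θ r))) * h2

theorem U_continuousOn (hk : IntervalIntegrable k volume a b)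
    (hθ : IntervalIntegrable θ volume a b) (hab : a ≤ b) : ContinuousOn (U b k θ) (Icc a b) := by
  have h1 : ContinuousOn (fun y => exp (-∫ r in a..y, θ r) *
      ((∫ s in a..b, k s * exp (∫ r in a..s, θ r)) -
        ∫ s in a..y, k s * exp (∫ r in a..s, θ r))) (Icc a b) := by
    apply ContinuousOn.mul
    · exact (prim_cont hθ hab (left_mem_Icc.2 hab)).neg.cexp
    · apply continuousOn_const.sub
      exact prim_cont (integrand_int hk hθ hab (left_mem_Icc.2 hab)) hab (left_mem_Icc.2 hab)
  refine h1.congr fun y hy => ?_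
  rw [U_eq hθ hab hy]
  have hi := integrand_int hk hθ hab (left_mem_Icc.2 hab)
  have := intervalIntegral.integral_add_adjacent_intervals (sub_int hi (left_mem_Icc.2 hab) hy)
    (sub_int hi hy (right_mem_Icc.2 hab))
  simp only []
  rw [← this]
  ring

/-- splitting -/
theorem U_split (hk : IntervalIntegrable k volume a b) (hθ : IntervalIntegrable θ volume a b)
    (hab : a ≤ b) {y₁ y₂ : ℝ} (h1 : y₁ ∈ Icc a b) (h2 : y₂ ∈ Icc a b) :
    U b k θ y₁ = (∫ s in y₁..y₂, k s * exp (∫ r in y₁..s, θ r)) +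
      exp (∫ r in y₁..y₂, θ r) * U b k θ y₂ := by
  have hi := integrand_int hk hθ hab h1
  rw [U, ← intervalIntegral.integral_add_adjacent_intervals (sub_int hi h1 h2)
    (sub_int hi h2 (right_mem_Icc.2 hab))]
  congr 1
  rw [U, ← intervalIntegral.integral_const_mul]
  apply intervalIntegral.integral_congr
  intro s hs
  have hs' : s ∈ Icc a b := uIcc_subset_Icc h2 (right_mem_Icc.2 hab) hs
  simp only []
  rw [← intervalIntegral.integral_add_adjacent_intervals (sub_int hθ h1 h2) (sub_int hθ h2 hs'),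
    exp_add]
  ring

/-- left representation when the total transport vanishes -/
theorem U_left (hk : IntervalIntegrable k volume a b) (hθ : IntervalIntegrable θ volume a b)
    (hab : a ≤ b) (h0 : U b k θ a = 0) {y : ℝ} (hy : y ∈ Icc a b) :
    U b k θ y = -∫ s in a..y, k s * exp (-∫ r in s..y, θ r) := by
  have h1 := U_split hk hθ hab (left_mem_Icc.2 hab) hy
  rw [h0] at h1
  have h2 : ∫ s in a..y, k s * exp (-∫ r in s..y, θ r) =
      exp (-∫ r in a..y, θ r) * ∫ s in a..y, k s * exp (∫ r in a..s, θ r) := by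
    rw [← intervalIntegral.integral_const_mul]
    apply intervalIntegral.integral_congr
    intro s hs
    have hs' : s ∈ Icc a b := uIcc_subset_Icc (left_mem_Icc.2 hab) hy hs
    simp only []
    rw [← intervalIntegral.integral_add_adjacent_intervals
      (sub_int hθ (left_mem_Icc.2 hab) hs') (sub_int hθ hs' hy), neg_add, exp_add]
    have h3 : exp (-∫ r in a..s, θ r) * exp (∫ r in a..s, θ r) = 1 := by
      rw [← exp_add, neg_add_cancel, exp_zero]
    linear_combination (-(k s * exp (-∫ r in s..y, θ r))) * h3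
  rw [h2]
  have h3 : exp (-∫ r in a..y, θ r) * exp (∫ r in a..y, θ r) = 1 := by
    rw [← exp_add, neg_add_cancel, exp_zero]
  linear_combination (-(exp (-∫ r in a..y, θ r))) * h1 - (U b k θ y) * h3

/-- bound from the right representation -/
theorem norm_U_le (hk : IntervalIntegrable k volume a b) (hθ : IntervalIntegrable θ volume a b)
    (hab : a ≤ b) {y L : ℝ} (hy : y ∈ Icc a b)
    (hL : ∀ s ∈ Icc y b, (∫ r in y..s, θ r).re ≤ L) :
    ‖U b k θ y‖ ≤ (∫ s in a..b, ‖k s‖) * Real.exp L := by
  have hi := integrand_int hk hθ hab hy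
  calc ‖U b k θ y‖ ≤ ∫ s in y..b, ‖k s * exp (∫ r in y..s, θ r)‖ :=
        intervalIntegral.norm_integral_le_integral_norm hy.2
    _ ≤ ∫ s in y..b, ‖k s‖ * Real.exp L := by
        apply intervalIntegral.integral_mono_on hy.2
        · exact (sub_int hi hy (right_mem_Icc.2 hab)).norm
        · exact (sub_int hk hy (right_mem_Icc.2 hab)).norm.mul_const _
        · intro s hs
          rw [norm_mul, Complex.norm_exp]
          gcongr
          exact hL s hs
    _ = (∫ s in y..b, ‖k s‖) * Real.exp L := by rw [intervalIntegral.integral_mul_const]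
    _ ≤ (∫ s in a..b, ‖k s‖) * Real.exp L := by
        gcongr
        apply intervalIntegral.integral_mono_interval hy.1 hy.2 le_rfl
        · filter_upwards with s using norm_nonneg _
        · exact hk.norm

/-- bound from the left representation -/
theorem norm_U_le' (hk : IntervalIntegrable k volume a b) (hθ : IntervalIntegrable θ volume a b)
    (hab : a ≤ b) (h0 : U b k θ a = 0) {y L : ℝ} (hy : y ∈ Icc a b)
    (hL : ∀ s ∈ Icc a y, -L ≤ (∫ r in s..y, θ r).re) :
    ‖U b k θ y‖ ≤ (∫ s in a..b, ‖k s‖) * Real.exp L := by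
  rw [U_left hk hθ hab h0 hy, norm_neg]
  have hi : IntervalIntegrable (fun s => k s * exp (-∫ r in s..y, θ r)) volume a b := by
    apply hk.mul_continuousOn
    rw [uIcc_of_le hab]
    have : ContinuousOn (fun s => ∫ r in y..s, θ r) (Icc a b) := prim_cont hθ hab hy
    refine this.cexp.congr fun s _ => ?_
    rw [intervalIntegral.integral_symm, neg_neg]
  calc ‖∫ s in a..y, k s * exp (-∫ r in s..y, θ r)‖
      ≤ ∫ s in a..y, ‖k s * exp (-∫ r in s..y, θ r)‖ :=
        intervalIntegral.norm_integral_le_integral_norm hy.1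
    _ ≤ ∫ s in a..y, ‖k s‖ * Real.exp L := by
        apply intervalIntegral.integral_mono_on hy.1
        · exact (sub_int hi (left_mem_Icc.2 hab) hy).norm
        · exact (sub_int hk (left_mem_Icc.2 hab) hy).norm.mul_const _
        · intro s hs
          rw [norm_mul, Complex.norm_exp, neg_re]
          gcongr
          have := hL s hs
          linarith
    _ = (∫ s in a..y, ‖k s‖) * Real.exp L := by rw [intervalIntegral.integral_mul_const]
    _ ≤ (∫ s in a..b, ‖k s‖) * Real.exp L := by
        gcongr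
        apply intervalIntegral.integral_mono_interval le_rfl hy.1 hy.2
        · filter_upwards with s using norm_nonneg _
        · exact hk.norm

/-- norm of the primitive -/
theorem norm_prim_le {T : ℝ → ℝ} (hT : IntervalIntegrable T volume a b)
    (_hab : a ≤ b) (hθT : ∀ᵐ s ∂(volume.restrict (Ioc a b)), ‖θ s‖ ≤ T s) (hT0 : ∀ s, 0 ≤ T s)
    {x y : ℝ} (hx : x ∈ Icc a b) (hy : y ∈ Icc a b) :
    ‖∫ r in x..y, θ r‖ ≤ ∫ r in a..b, T r := by
  wlog hxy : x ≤ y generalizing x y
  · rw [intervalIntegral.integral_symm, norm_neg]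
    exact this hy hx (le_of_not_ge hxy)
  have hsub : Ioc x y ⊆ Ioc a b := Ioc_subset_Ioc hx.1 hy.2
  calc ‖∫ r in x..y, θ r‖ ≤ ∫ r in x..y, T r := by
        apply intervalIntegral.norm_integral_le_of_norm_le hxy _ (sub_int hT hx hy)
        rw [ae_restrict_iff' measurableSet_Ioc] at hθT
        filter_upwards [hθT] with s hs hs' using hs (hsub hs')
    _ ≤ ∫ r in a..b, T r := by
        apply intervalIntegral.integral_mono_interval hx.1 hxy hy.2
        · filter_upwards with s using hT0 s
        · exact hT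

/-- limits -/
theorem U_tendsto {ι : Type*} {l : Filter ι} [l.IsCountablyGenerated] {kn θn : ι → ℝ → ℂ}
    (hab : a ≤ b) {K T : ℝ → ℝ} (hK : IntervalIntegrable K volume a b)
    (hT : IntervalIntegrable T volume a b) (hT0 : ∀ s, 0 ≤ T s)
    (hkm : ∀ᶠ n in l, AEStronglyMeasurable (kn n) (volume.restrict (Ioc a b)))
    (hθm : ∀ᶠ n in l, AEStronglyMeasurable (θn n) (volume.restrict (Ioc a b)))
    (hkb : ∀ᶠ n in l, ∀ᵐ s ∂(volume.restrict (Ioc a b)), ‖kn n s‖ ≤ K s)
    (hθb : ∀ᶠ n in l, ∀ᵐ s ∂(volume.restrict (Ioc a b)), ‖θn n s‖ ≤ T s)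
    (hkl : ∀ᵐ s ∂(volume.restrict (Ioc a b)), Tendsto (fun n => kn n s) l (𝓝 (k s)))
    (hθl : ∀ᵐ s ∂(volume.restrict (Ioc a b)), Tendsto (fun n => θn n s) l (𝓝 (θ s)))
    {y : ℝ} (hy : y ∈ Icc a b) :
    Tendsto (fun n => U b (kn n) (θn n) y) l (𝓝 (U b k θ y)) := by
  have hres : ∀ {x z : ℝ}, x ∈ Icc a b → z ∈ Icc a b →
      volume.restrict (uIoc x z) ≤ volume.restrict (Ioc a b) := by
    intro x z hx hz
    apply Measure.restrict_mono _ le_rfl
    intro s hs
    rw [mem_uIoc] at hs
    rcases hs with hs | hs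
    · exact ⟨lt_of_le_of_lt hx.1 hs.1, hs.2.trans hz.2⟩
    · exact ⟨lt_of_le_of_lt hz.1 hs.1, hs.2.trans hx.2⟩
  have hθlim : ∀ {z : ℝ}, z ∈ Icc a b →
      Tendsto (fun n => ∫ r in y..z, θn n r) l (𝓝 (∫ r in y..z, θ r)) := by
    intro z hz
    apply intervalIntegral.tendsto_integral_filter_of_dominated_convergence T
    · filter_upwards [hθm] with n hn using hn.mono_measure (hres hy hz)
    · filter_upwards [hθb] with n hn
      rw [← ae_restrict_iff' measurableSet_uIoc]
      exact ae_mono (hres hy hz) hn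
    · exact sub_int hT hy hz
    · rw [← ae_restrict_iff' measurableSet_uIoc]
      exact ae_mono (hres hy hz) hθl
  unfold U
  apply intervalIntegral.tendsto_integral_filter_of_dominated_convergence
    (fun s => K s * Real.exp (∫ r in a..b, T r))
  · filter_upwards [hkm, hθm, hθb] with n h1 h2 h3
    apply (h1.mono_measure (hres hy (right_mem_Icc.2 hab))).mul
    have hint : IntervalIntegrable (θn n) volume a b := by
      rw [intervalIntegrable_iff_integrableOn_Ioc_of_le hab] at hT ⊢
      exact hT.mono' h2 h3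
    have hc : ContinuousOn (fun s => exp (∫ r in y..s, θn n r)) (uIoc y b) :=
      (prim_cont hint hab hy).cexp.mono (by
        rw [uIoc_of_le hy.2]
        exact fun s hs => ⟨hy.1.trans hs.1.le, hs.2⟩)
    exact hc.aestronglyMeasurable measurableSet_uIoc
  · filter_upwards [hkb, hθb] with n h1 h2
    rw [← ae_restrict_iff' measurableSet_uIoc]
    have h3 := ae_mono (hres hy (right_mem_Icc.2 hab)) h1
    filter_upwards [h3, ae_restrict_mem measurableSet_uIoc] with s hs hs'
    rw [norm_mul, Complex.norm_exp]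
    have hs2 : s ∈ Icc a b := by
      rw [uIoc_of_le hy.2] at hs'
      exact ⟨hy.1.trans hs'.1.le, hs'.2⟩
    have h4 := norm_prim_le hT hab h2 hT0 hy hs2
    have h5 := (Complex.re_le_norm (∫ r in y..s, θn n r)).trans h4
    have h6 : 0 ≤ K s := (norm_nonneg _).trans hs
    gcongr
  · exact (sub_int hK hy (right_mem_Icc.2 hab)).mul_const _
  · rw [← ae_restrict_iff' measurableSet_uIoc]
    filter_upwards [ae_mono (hres hy (right_mem_Icc.2 hab)) hkl,
      ae_restrict_mem measurableSet_uIoc] with s hs hs'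
    have hs2 : s ∈ Icc a b := by
      rw [uIoc_of_le hy.2] at hs'
      exact ⟨hy.1.trans hs'.1.le, hs'.2⟩
    apply hs.mul
    exact (Complex.continuous_exp.tendsto _).comp (hθlim hs2)

/-- holomorphic dependence -/
theorem U_differentiableAt {kz θz : ℂ → ℝ → ℂ} {z₀ : ℂ} {ε : ℝ} (hε : 0 < ε)
    (hab : a ≤ b) {K T : ℝ → ℝ} (hK : IntervalIntegrable K volume a b)
    (hT : IntervalIntegrable T volume a b) (hT0 : ∀ s, 0 ≤ T s)
    (hkm : ∀ z ∈ ball z₀ ε, AEStronglyMeasurable (kz z) (volume.restrict (Ioc a b)))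
    (hθm : ∀ z ∈ ball z₀ ε, AEStronglyMeasurable (θz z) (volume.restrict (Ioc a b)))
    (hkb : ∀ᵐ s ∂(volume.restrict (Ioc a b)), ∀ z ∈ ball z₀ ε, ‖kz z s‖ ≤ K s)
    (hθb : ∀ᵐ s ∂(volume.restrict (Ioc a b)), ∀ z ∈ ball z₀ ε, ‖θz z s‖ ≤ T s)
    (hkd : ∀ᵐ s ∂(volume.restrict (Ioc a b)), DifferentiableOn ℂ (fun z => kz z s) (ball z₀ ε))
    (hθd : ∀ᵐ s ∂(volume.restrict (Ioc a b)), DifferentiableOn ℂ (fun z => θz z s) (ball z₀ ε))
    {y : ℝ} (hy : y ∈ Icc a b) :
    DifferentiableAt ℂ (fun z => U b (kz z) (θz z) y) z₀ := by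
  have hres : ∀ {x z : ℝ}, x ∈ Icc a b → z ∈ Icc a b →
      volume.restrict (uIoc x z) ≤ volume.restrict (Ioc a b) := by
    intro x z hx hz
    apply Measure.restrict_mono _ le_rfl
    intro s hs
    rw [mem_uIoc] at hs
    rcases hs with hs | hs
    · exact ⟨lt_of_le_of_lt hx.1 hs.1, hs.2.trans hz.2⟩
    · exact ⟨lt_of_le_of_lt hz.1 hs.1, hs.2.trans hx.2⟩
  have hθi : ∀ z ∈ ball z₀ ε, IntervalIntegrable (θz z) volume a b := by
    intro z hz
    rw [intervalIntegrable_iff_integrableOn_Ioc_of_le hab] at hT ⊢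
    apply hT.mono' (hθm z hz)
    filter_upwards [hθb] with s hs using hs z hz
  have hθhol : ∀ {s : ℝ}, s ∈ Icc a b →
      DifferentiableOn ℂ (fun z => ∫ r in y..s, θz z r) (ball z₀ ε) := by
    intro s hs w hw
    obtain ⟨η, hη, hηs⟩ := Metric.isOpen_iff.1 (isOpen_ball (x := z₀) (ε := ε)) w hw
    apply DifferentiableAt.differentiableWithinAt
    apply differentiableAt_intervalIntegral hη (B := T)
    · intro z hz
      exact (hθm z (hηs hz)).mono_measure (hres hy hs)
    · filter_upwards [ae_mono (hres hy hs) hθd] with r hr using hr.mono hηs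
    · exact sub_int hT hy hs
    · filter_upwards [ae_mono (hres hy hs) hθb] with r hr z hz using hr z (hηs hz)
  unfold U
  apply differentiableAt_intervalIntegral hε (B := fun s => K s * Real.exp (∫ r in a..b, T r))
  · intro z hz
    apply ((hkm z hz).mono_measure (hres hy (right_mem_Icc.2 hab))).mul
    have hc : ContinuousOn (fun s => exp (∫ r in y..s, θz z r)) (uIoc y b) :=
      (prim_cont (hθi z hz) hab hy).cexp.mono (by
        rw [uIoc_of_le hy.2]
        exact fun s hs => ⟨hy.1.trans hs.1.le, hs.2⟩)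
    exact hc.aestronglyMeasurable measurableSet_uIoc
  · filter_upwards [ae_mono (hres hy (right_mem_Icc.2 hab)) hkd,
      ae_restrict_mem measurableSet_uIoc] with s hs hs'
    have hs2 : s ∈ Icc a b := by
      rw [uIoc_of_le hy.2] at hs'
      exact ⟨hy.1.trans hs'.1.le, hs'.2⟩
    exact hs.mul (hθhol hs2).cexp
  · exact (sub_int hK hy (right_mem_Icc.2 hab)).mul_const _
  · filter_upwards [ae_mono (hres hy (right_mem_Icc.2 hab)) hkb,
      ae_restrict_mem measurableSet_uIoc] with s hs hs' z hz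
    have hs2 : s ∈ Icc a b := by
      rw [uIoc_of_le hy.2] at hs'
      exact ⟨hy.1.trans hs'.1.le, hs'.2⟩
    rw [norm_mul, Complex.norm_exp]
    have h2 : ∀ᵐ s ∂(volume.restrict (Ioc a b)), ‖θz z s‖ ≤ T s := by
      filter_upwards [hθb] with s hs using hs z hz
    have h4 := norm_prim_le hT hab h2 hT0 hy hs2
    have h5 := (Complex.re_le_norm (∫ r in y..s, θz z r)).trans h4
    have h6 : 0 ≤ K s := (norm_nonneg _).trans (hs z hz)
    gcongr
    exact hs z hz

end Pool.Agent.XRay
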