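import Pool.Agent.Lib_helper92.XRay.Apply

/-!
# The abstract uniqueness theorem
-/

set_option autoImplicit false

namespace Pool.Agent.XRay

open Complex Set Topology MeasureTheory Filter FourierTransform

variable {V : Type*} [NormedAddCommGroup V] [NormedSpace ℝ V] [MeasurableSpace V] [BorelSpace V]
variable {E : Type*} [NormedAddCommGroup E] [InnerProductSpace ℝ E] [FiniteDimensional ℝ E]
  [MeasurableSpace E] [BorelSpace E]

section sl

variable {φ : E × ℝ → ℝ} {C R : ℝ}

theorem sl_continuous (hφm : Measurable φ) (hφb : ∀ z, |φ z| ≤ C)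
    (hφs : ∀ x y, R < ‖x‖ → φ (x, y) = 0) (y : ℝ) : Continuous (fun ω : E => sl φ ω 1 y) := by
  unfold sl
  apply continuous_of_dominated (bound := fun x : E => ‖φ (x, y)‖)
  · intro ω
    have hs : Measurable (fun x : E => (x, y)) := by fun_prop
    exact ((sl_integrand_meas hφm ω 1).comp hs).aestronglyMeasurable
  · intro ω
    filter_upwards with x
    rw [norm_mul, norm_real]
    have : ‖exp (-(I * 1 * ((inner ℝ ω x : ℝ) : ℂ)))‖ = 1 := by
      rw [norm_exp, mul_one]
      simp
    rw [this, mul_one]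
  · exact (sl_integrable hφm hφb hφs y).norm
  · filter_upwards with x
    fun_prop

theorem sl_inversion (hφm : Measurable φ) (hφb : ∀ z, |φ z| ≤ C)
    (hφs : ∀ x y, R < ‖x‖ → φ (x, y) = 0) {y : ℝ} (h : ∀ ω, sl φ ω 1 y = 0) {x : E}
    (hc : ContinuousAt (fun x => φ (x, y)) x) : φ (x, y) = 0 := by
  have hF : 𝓕 (fun x : E => (φ (x, y) : ℂ)) = fun _ => 0 := by
    funext w
    rw [Real.fourier_eq', ← h ((2 * Real.pi) • w), sl]
    apply integral_congr_ae
    filter_upwards with x
    rw [smul_eq_mul, mul_comm, inner_smul_left, real_inner_comm]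
    congr 2
    simp
    ring
  have hi : Integrable (fun x : E => (φ (x, y) : ℂ)) := (sl_integrable hφm hφb hφs y).ofReal
  have h1 := hi.fourierInv_fourier_eq (v := x) (by rw [hF]; exact integrable_zero _ _ _)
    (Complex.continuous_ofReal.continuousAt.comp hc)
  rw [hF, Real.fourierInv_eq'] at h1
  simp only [smul_zero, integral_zero] at h1
  exact_mod_cast h1.symm

end sl

namespace Frame

variable {F : Frame V E} {G : V → Form V} {M : Set V} {f : V → ℝ} {δ : ℝ}

theorem sl_ae_zero (hG : IsMetric G) (hinv : ∀ (x : E) (z : V), G (z + F.ι x) = G z)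
    (hM : IsCompact M) (hf : ContinuousOn f M) (hδ : 0 < δ) (h0 : ZeroData F G M f δ)
    (hN : (volume : Measure (E × ℝ))
      ((fun z : E × ℝ => F.ι z.1 + z.2 • F.e) ⁻¹' frontier M) = 0)
    {ω : E} (hω : ω ≠ 0) {φ : E × ℝ → ℝ}
    (hφ : ∀ z, φ z = M.indicator f (F.ι z.1 + z.2 • F.e))
    (hφm : Measurable φ) {C R Y₀ : ℝ} (hφb : ∀ z, |φ z| ≤ C)
    (hφs : ∀ x y, R < ‖x‖ → φ (x, y) = 0) (hφy : ∀ x y, Y₀ < |y| → φ (x, y) = 0)
    {a b : ℝ} (hab : a < b)
    (hMa : ∀ v ∈ M, F.ℓ v ≠ a) (hMb : ∀ v ∈ M, F.ℓ v ≠ b) :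
    ∀ᵐ y ∂(volume.restrict (Ioc a b)), sl φ ω 1 y = 0 := by
  obtain ⟨B₀, hB₀⟩ := (isCompact_Icc (a := -Y₀) (b := Y₀)).exists_bound_of_continuousOn
    (b0_cont (F := F) hG ω a).continuousOn
  obtain ⟨K, hK⟩ := (isCompact_Icc (a := a) (b := b)).exists_bound_of_continuousOn
    (csq_cont (F := F) hG ω).continuousOn
  have hωn : 0 < ‖ω‖ := norm_pos_iff.2 hω
  have hK1 : 0 < |K| + 1 := by positivity
  set p₀ := min (δ / ‖ω‖) (√(|K| + 1))⁻¹ with hp₀
  have hp₀' : 0 < p₀ := lt_min (div_pos hδ hωn) (inv_pos.2 (Real.sqrt_pos.2 hK1))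
  have hu := (toData hG hω hφm hφb hφs hφy hab hB₀).uniqueness hp₀' (by
    intro p hp ξ
    apply toData_u_zero hG hinv hM hf h0 hN hω hφ hφm hφb hφs hφy hab hB₀ le_rfl le_rfl hMa hMb
    · have := hp.le.trans (min_le_left _ _)
      rwa [le_div_iff₀ hωn] at this
    · intro y hy
      have h1 : |p| < (√(|K| + 1))⁻¹ := lt_of_lt_of_le hp (min_le_right _ _)
      have h2 : p ^ 2 < (|K| + 1)⁻¹ := by
        have h3 : |p| ^ 2 < ((√(|K| + 1))⁻¹) ^ 2 := pow_lt_pow_left₀ h1 (abs_nonneg _) two_ne_zero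
        rwa [sq_abs, inv_pow, Real.sq_sqrt hK1.le] at h3
      have h4 : F.csq ω (G (y • F.e)) ≤ |K| := by
        have := hK y hy
        rw [Real.norm_eq_abs] at this
        exact (le_abs_self _).trans (this.trans (le_abs_self _))
      have h5 : p ^ 2 * (|K| + 1) < 1 := (lt_div_iff₀ hK1).1 (by rwa [one_div])
      have h6 := sq_nonneg p
      nlinarith) one_pos
  filter_upwards [hu] with y hy
  have hh : (toData hG hω hφm hφb hφs hφy hab hB₀).h ((1 : ℝ) : ℂ) y =
      exp (-(I * ((1 : ℝ) : ℂ) * ((F.b0 G ω a y : ℝ) : ℂ))) * sl φ ω ((1 : ℝ) : ℂ) y := rfl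
  rw [hh] at hy
  rcases mul_eq_zero.1 hy with h | h
  · exact absurd h (exp_ne_zero _)
  · rwa [ofReal_one] at h

theorem main [Nontrivial E] (hG : IsMetric G) (hinv : ∀ (x : E) (z : V), G (z + F.ι x) = G z)
    (hM : IsCompact M) (hf : ContinuousOn f M) (hδ : 0 < δ) (h0 : ZeroData F G M f δ)
    (hN : (volume : Measure (E × ℝ))
      ((fun z : E × ℝ => F.ι z.1 + z.2 • F.e) ⁻¹' frontier M) = 0) :
    ∀ v ∈ closure (interior M), f v = 0 := by
  -- bounds
  obtain ⟨R, hR⟩ := hM.exists_bound_of_continuousOn (f := F.π) F.π.continuous.continuousOn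
  obtain ⟨Y₀, hY₀⟩ := hM.exists_bound_of_continuousOn (f := F.ℓ) F.ℓ.continuous.continuousOn
  obtain ⟨C, hC⟩ := hM.exists_bound_of_continuousOn hf
  have hπ : ∀ (x : E) (y : ℝ), F.π (F.ι x + y • F.e) = x := by
    intro x y
    rw [map_add, F.πι, map_smul, F.πe, smul_zero, add_zero]
  have hℓ : ∀ (x : E) (y : ℝ), F.ℓ (F.ι x + y • F.e) = y := by
    intro x y
    rw [map_add, F.ℓι, map_smul, F.ℓe, smul_eq_mul, mul_one, zero_add]
  have hΨ : Continuous (fun z : E × ℝ => F.ι z.1 + z.2 • F.e) := by fun_prop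
  set φ : E × ℝ → ℝ := fun z => M.indicator f (F.ι z.1 + z.2 • F.e) with hφdef
  have hφm : Measurable φ :=
    (measurable_indicator_of_continuousOn hM.isClosed.measurableSet hf).comp hΨ.measurable
  have hφb : ∀ z, |φ z| ≤ |C| := by
    intro z
    rw [hφdef]
    by_cases h : F.ι z.1 + z.2 • F.e ∈ M
    · simp only []
      rw [indicator_of_mem h]
      exact (hC _ h).trans (le_abs_self _)
    · simp only []
      rw [indicator_of_notMem h, abs_zero]; exact abs_nonneg _
  have hφs : ∀ x y, R < ‖x‖ → φ (x, y) = 0 := by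
    intro x y hx
    apply indicator_of_notMem
    intro h
    have := hR _ h
    simp only [] at this
    rw [hπ] at this
    linarith
  have hφy : ∀ x y, Y₀ < |y| → φ (x, y) = 0 := by
    intro x y hy
    apply indicator_of_notMem
    intro h
    have := hY₀ _ h
    simp only [] at this
    rw [hℓ, Real.norm_eq_abs] at this
    linarith
  set b := |Y₀| + 1 with hb
  have hb0 : 0 < b := by positivity
  have hMab : ∀ v ∈ M, F.ℓ v ∈ Ioo (-b) b := by
    intro v hv
    have h1 := hY₀ v hv
    rw [Real.norm_eq_abs] at h1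
    have h2 : |F.ℓ v| < b := lt_of_le_of_lt (h1.trans (le_abs_self _)) (by linarith)
    exact abs_lt.1 h2
  have hMa : ∀ v ∈ M, F.ℓ v ≠ -b := fun v hv => (hMab v hv).1.ne'
  have hMb : ∀ v ∈ M, F.ℓ v ≠ b := fun v hv => (hMab v hv).2.ne
  -- almost every slice has zero Fourier transform
  have hall : ∀ᵐ y ∂(volume.restrict (Ioc (-b) b)), ∀ ω : E, sl φ ω 1 y = 0 := by
    obtain ⟨s, hsc, hsd⟩ := TopologicalSpace.exists_countable_dense E
    have : (𝓝[≠] (0 : E)).NeBot := Module.punctured_nhds_neBot ℝ E 0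
    have hsd' : Dense (s \ {0}) := hsd.sdiff_singleton 0
    have h1 : ∀ᵐ y ∂(volume.restrict (Ioc (-b) b)), ∀ ω ∈ s \ {0}, sl φ ω 1 y = 0 := by
      rw [ae_ball_iff (hsc.mono sdiff_subset)]
      intro ω hω
      exact sl_ae_zero hG hinv hM hf hδ h0 hN hω.2 (fun _ => rfl) hφm hφb hφs hφy
        (by linarith) hMa hMb
    filter_upwards [h1] with y hy
    have h2 := Continuous.ext_on hsd' (sl_continuous hφm hφb hφs y) continuous_const hy
    exact fun ω => congrFun h2 ω
  rw [ae_restrict_iff' measurableSet_Ioc] at hall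
  have hdense := Measure.dense_of_ae hall
  have hfi : ContinuousOn f (interior M) := hf.mono interior_subset
  -- vanishing in the interior
  have hint : ∀ v ∈ interior M, f v = 0 := by
    intro v hv
    by_contra hne
    set x := F.π v with hx
    have hline : Continuous (fun y : ℝ => F.ι x + y • F.e) := by fun_prop
    set U : Set V := interior M ∩ f ⁻¹' {r | r ≠ 0} with hU
    have hUo : IsOpen U := hfi.isOpen_inter_preimage isOpen_interior isOpen_ne
    have hne' : ((fun y : ℝ => F.ι x + y • F.e) ⁻¹' U).Nonempty := by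
      refine ⟨F.ℓ v, ?_⟩
      change F.ι (F.π v) + F.ℓ v • F.e ∈ U
      rw [F.eq v]
      exact ⟨hv, hne⟩
    obtain ⟨y, hyU, hy⟩ := hdense.inter_open_nonempty _ (hUo.preimage hline) hne'
    have hyM : F.ι x + y • F.e ∈ M := interior_subset (s := M) hyU.1
    have hyI : y ∈ Ioc (-b) b := by
      have := hMab _ hyM
      rw [hℓ] at this
      exact Ioo_subset_Ioc_self this
    have h1 : ContinuousAt (fun x' => φ (x', y)) x := by
      have h2 : Continuous (fun x' : E => F.ι x' + y • F.e) := by fun_prop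
      have h3 : ContinuousAt (fun x' : E => f (F.ι x' + y • F.e)) x := by
        have h4 : ContinuousAt f (F.ι x + y • F.e) :=
          hfi.continuousAt (isOpen_interior.mem_nhds hyU.1)
        exact ContinuousAt.comp (f := fun x' : E => F.ι x' + y • F.e) (g := f) h4 h2.continuousAt
      apply h3.congr
      filter_upwards [(isOpen_interior.preimage h2).mem_nhds hyU.1] with x' hx'
      rw [hφdef]
      simp only []
      rw [indicator_of_mem (interior_subset (s := M) hx')]
    have h5 := sl_inversion hφm hφb hφs (hy hyI) h1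
    rw [hφdef] at h5
    simp only [] at h5
    rw [indicator_of_mem hyM] at h5
    exact hyU.2 h5
  have hcl : closure (interior M) ⊆ M :=
    closure_minimal interior_subset hM.isClosed
  exact EqOn.of_subset_closure (s := interior M) (g := fun _ => 0) hint (hf.mono hcl)
    continuousOn_const subset_closure subset_rfl

end Frame

end Pool.Agent.XRay
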